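import Mathlib
import Pool.Agent.W442.SV.Defs
import Pool.Agent.W442.SV.Data

/-!
# Tangent cones of Schubert varieties: negative coefficients. Definitions and statements.
-/

open MvPolynomial

namespace Pool.Agent.W442.SN

open Pool.Agent.W442.SV

/-- `f` is homogeneous of degree `i` and `f` plus terms of larger degree lies in `I`: the initial
forms of degree `i` of `I` (and `0`). -/
def Init {σ : Type} (I : Ideal (MvPolynomial σ ℂ)) (i : ℕ) (f : MvPolynomial σ ℂ) : Prop :=
  f.IsHomogeneous i ∧ ∃ g ∈ originIdeal σ ^ (i + 1), f + g ∈ I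

/-- The localization at the origin. -/
abbrev Loc {σ : Type} (I : Ideal (MvPolynomial σ ℂ)) : Type :=
  Localization ((originIdeal σ).primeCompl.map (Ideal.Quotient.mk I))

/-- The ideal of the origin in the localization at the origin. -/
noncomputable def locMax {σ : Type} (I : Ideal (MvPolynomial σ ℂ)) : Ideal (Loc I) :=
  (originIdeal σ).map ((algebraMap (MvPolynomial σ ℂ ⧸ I) (Loc I)).comp (Ideal.Quotient.mk I))

/-- Upper bound for the dimension of `m^i / m^(i+1)`: the monomials of `N` span modulo the initial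
forms. -/
def S_upper : Prop := ∀ (σ : Type) [Fintype σ] [DecidableEq σ] (I : Ideal (MvPolynomial σ ℂ))
  (_ : I ≤ originIdeal σ) (i : ℕ) (N : Finset (σ →₀ ℕ))
  (_ : ∀ s : σ →₀ ℕ, s.degree = i → ∃ f : MvPolynomial σ ℂ, (∀ t, coeff t f ≠ 0 → t ∈ N) ∧
    Init I i (monomial s (1 : ℂ) - f)),
  grDim (R := Loc I) (locMax I) i ≤ N.card

/-- Lower bound for the dimension of `m^i / m^(i+1)`: the monomials of `N` are independent modulo
the initial forms. -/
def S_lower : Prop := ∀ (σ : Type) [Fintype σ] [DecidableEq σ] (I : Ideal (MvPolynomial σ ℂ))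
  (_ : I ≤ originIdeal σ) (i : ℕ) (N : Finset (σ →₀ ℕ)) (_ : ∀ s ∈ N, s.degree = i)
  (_ : ∀ f : MvPolynomial σ ℂ, (∀ t, coeff t f ≠ 0 → t ∈ N) → Init I i f → f = 0),
  N.card ≤ grDim (R := Loc I) (locMax I) i

/-- The part of a point in the slice: the coordinates at the inversions of `v` are set to zero. -/
def slice {n : ℕ} (v : Equiv.Perm (Fin n)) (y : Low n → ℂ) : Low n → ℂ :=
  fun i => if v i.1.2 < v i.1.1 then y i else 0

/-- The points whose slice part lies in the patch. -/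
def tube {n : ℕ} (v w : Equiv.Perm (Fin n)) : Set (Low n → ℂ) :=
  {y | slice v y ∈ patch v w}

/-- The patch and the tube have the same initial forms. -/
def S_tube : Prop := ∀ (n : ℕ) (v w : Equiv.Perm (Fin n)) (i : ℕ) (f : MvPolynomial (Low n) ℂ),
  Init (vanishingIdeal ℂ (patch v w)) i f ↔ Init (vanishingIdeal ℂ (tube v w)) i f

/-- The Hilbert function at the smooth point `e_w` of `X_w`. -/
def S_smooth : Prop := ∀ (n : ℕ) (w : Equiv.Perm (Fin n)) (i : ℕ),
  hilb w w i = (len w + i - 1).choose i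

/-- The h-polynomial at the smooth point `e_w` of `X_w` is `1`. -/
def S_smooth_h : Prop := ∀ (n : ℕ) (w : Equiv.Perm (Fin n)) (i : ℕ),
  hcoeff w w i = if i = 0 then 1 else 0

/-- Division by `F0 - X s * X t * X u` after a substitution. -/
def S_div : Prop := ∀ (σ : Type) [Fintype σ] [DecidableEq σ] (s t u : σ)
  (_ : s ≠ t) (_ : s ≠ u) (_ : t ≠ u)
  (Φ : MvPolynomial σ ℂ →ₐ[ℂ] MvPolynomial σ ℂ)
  (_ : Φ (X s) = X s) (_ : Φ (X t) = X t) (_ : Φ (X u) = X u)
  (_ : ∀ j, j ≠ s → j ≠ t → j ≠ u → ∀ m : σ →₀ ℕ, coeff m (Φ (X j)) ≠ 0 →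
    m s = 0 ∧ m t = 0 ∧ m u = 0)
  (F0 : MvPolynomial σ ℂ) (_ : ∀ m : σ →₀ ℕ, coeff m F0 ≠ 0 → m s = 0 ∧ m t = 0 ∧ m u = 0)
  (_ : Φ F0 ≠ 0) (f : MvPolynomial σ ℂ)
  (_ : ∀ y : σ → ℂ, y s * y t * y u = eval y (Φ F0) → eval y (Φ f) = 0),
  ∃ q : MvPolynomial σ ℂ, Φ (f - (F0 - X s * X t * X u) * q) = 0

/-- The depth of a local ring is at most the dimension of the ring modulo an annihilator. -/
def S_depth : Prop := ∀ (R : Type) [CommRing R] [IsLocalRing R] [IsNoetherianRing R]
  (rs : List R) (_ : ∀ r ∈ rs, r ∈ IsLocalRing.maximalIdeal R)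
  (_ : RingTheory.Sequence.IsRegular R rs) (x : R) (_ : x ≠ 0) (J : Ideal R)
  (_ : ∀ a ∈ J, a * x = 0), (rs.length : WithBot ℕ∞) ≤ ringKrullDim (R ⧸ J)

/-- The associated graded ring `⊕ m^i / m^(i+1)` of a ring with respect to an ideal: the Rees
algebra `⊕ m^i t^i` modulo the ideal generated by `m`, i.e. modulo `⊕ m^(i+1) t^i`. -/
abbrev GrRing {R : Type} [CommRing R] (m : Ideal R) : Type :=
  reesAlgebra m ⧸ m.map (algebraMap R (reesAlgebra m))

/-- The ideal generated by the initial forms. -/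
noncomputable def initIdeal {σ : Type} (I : Ideal (MvPolynomial σ ℂ)) :
    Ideal (MvPolynomial σ ℂ) :=
  Ideal.span {f | ∃ i, Init I i f}

/-- The associated graded ring of the localization at the origin. -/
def S_gr : Prop := ∀ (σ : Type) [Fintype σ] [DecidableEq σ] (I : Ideal (MvPolynomial σ ℂ))
  (_ : I ≤ originIdeal σ),
  Nonempty (GrRing (R := Loc I) (locMax I) ≃+* (MvPolynomial σ ℂ ⧸ initIdeal I))

/-- All localizations at prime ideals have a regular sequence in the maximal ideal whose length is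
the Krull dimension. -/
def IsCM (S : Type) [CommRing S] : Prop :=
  ∀ (p : Ideal S) [p.IsPrime], ∃ rs : List (Localization.AtPrime p),
    (∀ r ∈ rs, r ∈ IsLocalRing.maximalIdeal (Localization.AtPrime p)) ∧
    RingTheory.Sequence.IsRegular (Localization.AtPrime p) rs ∧
    (rs.length : WithBot ℕ∞) = ringKrullDim (Localization.AtPrime p)

/-- Cohen-Macaulayness is invariant under isomorphisms. -/
def S_cmiso : Prop := ∀ (S T : Type) [CommRing S] [CommRing T] (_ : S ≃+* T), IsCM S → IsCM T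

/-- A quotient `MvPolynomial σ ℂ ⧸ J` by a homogeneous ideal is not Cohen-Macaulay if there is a
form `ξ` of degree 2 outside `J` that is killed by the variables of `A`, while `J` is contained in
the ideal generated by the variables of a smaller set `B`. -/
def S_notcm : Prop := ∀ (σ : Type) [Fintype σ] [DecidableEq σ] (J : Ideal (MvPolynomial σ ℂ))
  (_ : ∀ f ∈ J, ∀ i, homogeneousComponent i f ∈ J) (A B : Finset σ) (_ : B.card < A.card)
  (ξ : MvPolynomial σ ℂ) (i : ℕ) (_ : ξ.IsHomogeneous i) (_ : ξ ∉ J)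
  (_ : ∀ j ∈ A, X j * ξ ∈ J)
  (_ : J ≤ Ideal.span ((fun j => (X j : MvPolynomial σ ℂ)) '' (B : Set σ))),
  ¬ IsCM (MvPolynomial σ ℂ ⧸ J)

end Pool.Agent.W442.SN
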