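import Mathlib
import Pool.Agent.W442.SN.Base
import Pool.Agent.W442.SV.Entries

open MvPolynomial

namespace Pool.Agent.W442.SN

open Pool.Agent.W442.SV

/-- The point `1 6 9 4 8 7 5 2 3 10`. -/
def v1 : Equiv.Perm (Fin 10) where
  toFun := ![0, 5, 8, 3, 7, 6, 4, 1, 2, 9]
  invFun := ![0, 7, 8, 3, 6, 1, 5, 4, 2, 9]
  left_inv := by decide
  right_inv := by decide

/-- The Schubert variety of `6 9 10 4 8 7 5 1 2 3`. -/
def w1 : Equiv.Perm (Fin 10) where
  toFun := ![5, 8, 9, 3, 7, 6, 4, 0, 1, 2]
  invFun := ![7, 8, 9, 3, 6, 0, 5, 4, 1, 2]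
  left_inv := by decide
  right_inv := by decide

theorem len_w1 : len w1 = 34 := by decide +kernel

theorem v1_le_w1 : BruhatLE v1 w1 := by
  refine bruhat_step 0 1 (by decide) (by decide) rfl ?_
  refine bruhat_step 1 2 (by decide) (by decide) rfl ?_
  refine bruhat_step 2 3 (by decide) (by decide) rfl ?_
  refine bruhat_step 2 4 (by decide) (by decide) rfl ?_
  refine bruhat_step 2 9 (by decide) (by decide) rfl ?_
  refine bruhat_step 3 4 (by decide) (by decide) rfl ?_
  refine bruhat_step 4 5 (by decide) (by decide) rfl ?_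
  refine bruhat_step 4 9 (by decide) (by decide) rfl ?_
  refine bruhat_step 5 6 (by decide) (by decide) rfl ?_
  refine bruhat_step 5 9 (by decide) (by decide) rfl ?_
  refine bruhat_step 6 7 (by decide) (by decide) rfl ?_
  refine bruhat_step 6 8 (by decide) (by decide) rfl ?_
  refine bruhat_step 6 9 (by decide) (by decide) rfl ?_
  have h : v1 * Equiv.swap 0 1 * Equiv.swap 1 2 * Equiv.swap 2 3 * Equiv.swap 2 4 * Equiv.swap 2 9 * Equiv.swap 3 4 * Equiv.swap 4 5 * Equiv.swap 4 9 * Equiv.swap 5 6 * Equiv.swap 5 9 * Equiv.swap 6 7 * Equiv.swap 6 8 * Equiv.swap 6 9 = w1 := by decide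
  rw [h]
  exact Relation.ReflTransGen.refl

/-- Sum over ten indices. -/
theorem sum10 {R : Type} [AddCommMonoid R] (f : Fin 10 → R) : ∑ i, f i =
    f 0 + (f 1 + (f 2 + (f 3 + (f 4 + (f 5 + (f 6 + (f 7 + (f 8 + f 9)))))))) := by
  simp only [Fin.sum_univ_succ, Fin.sum_univ_zero, add_zero]
  rfl

section entries
variable (y : Low 10 → ℂ)

theorem s00 : chart v1 (slice v1 y) 0 0 = 1 := by rw [chart_apply]; exact uni_self _ _
theorem s01 : chart v1 (slice v1 y) 0 1 = 0 := by
  rw [chart_apply]; exact uni_lt _ (by decide)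
theorem s02 : chart v1 (slice v1 y) 0 2 = 0 := by
  rw [chart_apply]; exact uni_lt _ (by decide)
theorem s03 : chart v1 (slice v1 y) 0 3 = 0 := by
  rw [chart_apply]; exact uni_lt _ (by decide)
theorem s04 : chart v1 (slice v1 y) 0 4 = 0 := by
  rw [chart_apply]; exact uni_lt _ (by decide)
theorem s05 : chart v1 (slice v1 y) 0 5 = 0 := by
  rw [chart_apply]; exact uni_lt _ (by decide)
theorem s06 : chart v1 (slice v1 y) 0 6 = 0 := by
  rw [chart_apply]; exact uni_lt _ (by decide)
theorem s07 : chart v1 (slice v1 y) 0 7 = 0 := by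
  rw [chart_apply]; exact uni_lt _ (by decide)
theorem s08 : chart v1 (slice v1 y) 0 8 = 0 := by
  rw [chart_apply]; exact uni_lt _ (by decide)
theorem s09 : chart v1 (slice v1 y) 0 9 = 0 := by
  rw [chart_apply]; exact uni_lt _ (by decide)
theorem s50 : chart v1 (slice v1 y) 5 0 = y (ix 1 0) := by
  rw [chart_apply]; exact (uni_gt _ (by decide)).trans (if_pos (by decide))
theorem s51 : chart v1 (slice v1 y) 5 1 = 1 := by rw [chart_apply]; exact uni_self _ _
theorem s52 : chart v1 (slice v1 y) 5 2 = 0 := by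
  rw [chart_apply]; exact uni_lt _ (by decide)
theorem s53 : chart v1 (slice v1 y) 5 3 = 0 := by
  rw [chart_apply]; exact uni_lt _ (by decide)
theorem s54 : chart v1 (slice v1 y) 5 4 = 0 := by
  rw [chart_apply]; exact uni_lt _ (by decide)
theorem s55 : chart v1 (slice v1 y) 5 5 = 0 := by
  rw [chart_apply]; exact uni_lt _ (by decide)
theorem s56 : chart v1 (slice v1 y) 5 6 = 0 := by
  rw [chart_apply]; exact uni_lt _ (by decide)
theorem s57 : chart v1 (slice v1 y) 5 7 = 0 := by
  rw [chart_apply]; exact uni_lt _ (by decide)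
theorem s58 : chart v1 (slice v1 y) 5 8 = 0 := by
  rw [chart_apply]; exact uni_lt _ (by decide)
theorem s59 : chart v1 (slice v1 y) 5 9 = 0 := by
  rw [chart_apply]; exact uni_lt _ (by decide)
theorem s80 : chart v1 (slice v1 y) 8 0 = y (ix 2 0) := by
  rw [chart_apply]; exact (uni_gt _ (by decide)).trans (if_pos (by decide))
theorem s81 : chart v1 (slice v1 y) 8 1 = y (ix 2 1) := by
  rw [chart_apply]; exact (uni_gt _ (by decide)).trans (if_pos (by decide))
theorem s82 : chart v1 (slice v1 y) 8 2 = 1 := by rw [chart_apply]; exact uni_self _ _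
theorem s83 : chart v1 (slice v1 y) 8 3 = 0 := by
  rw [chart_apply]; exact uni_lt _ (by decide)
theorem s84 : chart v1 (slice v1 y) 8 4 = 0 := by
  rw [chart_apply]; exact uni_lt _ (by decide)
theorem s85 : chart v1 (slice v1 y) 8 5 = 0 := by
  rw [chart_apply]; exact uni_lt _ (by decide)
theorem s86 : chart v1 (slice v1 y) 8 6 = 0 := by
  rw [chart_apply]; exact uni_lt _ (by decide)
theorem s87 : chart v1 (slice v1 y) 8 7 = 0 := by
  rw [chart_apply]; exact uni_lt _ (by decide)
theorem s88 : chart v1 (slice v1 y) 8 8 = 0 := by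
  rw [chart_apply]; exact uni_lt _ (by decide)
theorem s89 : chart v1 (slice v1 y) 8 9 = 0 := by
  rw [chart_apply]; exact uni_lt _ (by decide)
theorem s30 : chart v1 (slice v1 y) 3 0 = y (ix 3 0) := by
  rw [chart_apply]; exact (uni_gt _ (by decide)).trans (if_pos (by decide))
theorem s31 : chart v1 (slice v1 y) 3 1 = 0 := by
  rw [chart_apply]; exact (uni_gt _ (by decide)).trans (if_neg (by decide))
theorem s32 : chart v1 (slice v1 y) 3 2 = 0 := by
  rw [chart_apply]; exact (uni_gt _ (by decide)).trans (if_neg (by decide))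
theorem s33 : chart v1 (slice v1 y) 3 3 = 1 := by rw [chart_apply]; exact uni_self _ _
theorem s34 : chart v1 (slice v1 y) 3 4 = 0 := by
  rw [chart_apply]; exact uni_lt _ (by decide)
theorem s35 : chart v1 (slice v1 y) 3 5 = 0 := by
  rw [chart_apply]; exact uni_lt _ (by decide)
theorem s36 : chart v1 (slice v1 y) 3 6 = 0 := by
  rw [chart_apply]; exact uni_lt _ (by decide)
theorem s37 : chart v1 (slice v1 y) 3 7 = 0 := by
  rw [chart_apply]; exact uni_lt _ (by decide)
theorem s38 : chart v1 (slice v1 y) 3 8 = 0 := by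
  rw [chart_apply]; exact uni_lt _ (by decide)
theorem s39 : chart v1 (slice v1 y) 3 9 = 0 := by
  rw [chart_apply]; exact uni_lt _ (by decide)
theorem s70 : chart v1 (slice v1 y) 7 0 = y (ix 4 0) := by
  rw [chart_apply]; exact (uni_gt _ (by decide)).trans (if_pos (by decide))
theorem s71 : chart v1 (slice v1 y) 7 1 = y (ix 4 1) := by
  rw [chart_apply]; exact (uni_gt _ (by decide)).trans (if_pos (by decide))
theorem s72 : chart v1 (slice v1 y) 7 2 = 0 := by
  rw [chart_apply]; exact (uni_gt _ (by decide)).trans (if_neg (by decide))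
theorem s73 : chart v1 (slice v1 y) 7 3 = y (ix 4 3) := by
  rw [chart_apply]; exact (uni_gt _ (by decide)).trans (if_pos (by decide))
theorem s74 : chart v1 (slice v1 y) 7 4 = 1 := by rw [chart_apply]; exact uni_self _ _
theorem s75 : chart v1 (slice v1 y) 7 5 = 0 := by
  rw [chart_apply]; exact uni_lt _ (by decide)
theorem s76 : chart v1 (slice v1 y) 7 6 = 0 := by
  rw [chart_apply]; exact uni_lt _ (by decide)
theorem s77 : chart v1 (slice v1 y) 7 7 = 0 := by
  rw [chart_apply]; exact uni_lt _ (by decide)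
theorem s78 : chart v1 (slice v1 y) 7 8 = 0 := by
  rw [chart_apply]; exact uni_lt _ (by decide)
theorem s79 : chart v1 (slice v1 y) 7 9 = 0 := by
  rw [chart_apply]; exact uni_lt _ (by decide)
theorem s60 : chart v1 (slice v1 y) 6 0 = y (ix 5 0) := by
  rw [chart_apply]; exact (uni_gt _ (by decide)).trans (if_pos (by decide))
theorem s61 : chart v1 (slice v1 y) 6 1 = y (ix 5 1) := by
  rw [chart_apply]; exact (uni_gt _ (by decide)).trans (if_pos (by decide))
theorem s62 : chart v1 (slice v1 y) 6 2 = 0 := by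
  rw [chart_apply]; exact (uni_gt _ (by decide)).trans (if_neg (by decide))
theorem s63 : chart v1 (slice v1 y) 6 3 = y (ix 5 3) := by
  rw [chart_apply]; exact (uni_gt _ (by decide)).trans (if_pos (by decide))
theorem s64 : chart v1 (slice v1 y) 6 4 = 0 := by
  rw [chart_apply]; exact (uni_gt _ (by decide)).trans (if_neg (by decide))
theorem s65 : chart v1 (slice v1 y) 6 5 = 1 := by rw [chart_apply]; exact uni_self _ _
theorem s66 : chart v1 (slice v1 y) 6 6 = 0 := by
  rw [chart_apply]; exact uni_lt _ (by decide)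
theorem s67 : chart v1 (slice v1 y) 6 7 = 0 := by
  rw [chart_apply]; exact uni_lt _ (by decide)
theorem s68 : chart v1 (slice v1 y) 6 8 = 0 := by
  rw [chart_apply]; exact uni_lt _ (by decide)
theorem s69 : chart v1 (slice v1 y) 6 9 = 0 := by
  rw [chart_apply]; exact uni_lt _ (by decide)
theorem s40 : chart v1 (slice v1 y) 4 0 = y (ix 6 0) := by
  rw [chart_apply]; exact (uni_gt _ (by decide)).trans (if_pos (by decide))
theorem s41 : chart v1 (slice v1 y) 4 1 = 0 := by
  rw [chart_apply]; exact (uni_gt _ (by decide)).trans (if_neg (by decide))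
theorem s42 : chart v1 (slice v1 y) 4 2 = 0 := by
  rw [chart_apply]; exact (uni_gt _ (by decide)).trans (if_neg (by decide))
theorem s43 : chart v1 (slice v1 y) 4 3 = y (ix 6 3) := by
  rw [chart_apply]; exact (uni_gt _ (by decide)).trans (if_pos (by decide))
theorem s44 : chart v1 (slice v1 y) 4 4 = 0 := by
  rw [chart_apply]; exact (uni_gt _ (by decide)).trans (if_neg (by decide))
theorem s45 : chart v1 (slice v1 y) 4 5 = 0 := by
  rw [chart_apply]; exact (uni_gt _ (by decide)).trans (if_neg (by decide))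
theorem s46 : chart v1 (slice v1 y) 4 6 = 1 := by rw [chart_apply]; exact uni_self _ _
theorem s47 : chart v1 (slice v1 y) 4 7 = 0 := by
  rw [chart_apply]; exact uni_lt _ (by decide)
theorem s48 : chart v1 (slice v1 y) 4 8 = 0 := by
  rw [chart_apply]; exact uni_lt _ (by decide)
theorem s49 : chart v1 (slice v1 y) 4 9 = 0 := by
  rw [chart_apply]; exact uni_lt _ (by decide)
theorem s10 : chart v1 (slice v1 y) 1 0 = y (ix 7 0) := by
  rw [chart_apply]; exact (uni_gt _ (by decide)).trans (if_pos (by decide))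
theorem s11 : chart v1 (slice v1 y) 1 1 = 0 := by
  rw [chart_apply]; exact (uni_gt _ (by decide)).trans (if_neg (by decide))
theorem s12 : chart v1 (slice v1 y) 1 2 = 0 := by
  rw [chart_apply]; exact (uni_gt _ (by decide)).trans (if_neg (by decide))
theorem s13 : chart v1 (slice v1 y) 1 3 = 0 := by
  rw [chart_apply]; exact (uni_gt _ (by decide)).trans (if_neg (by decide))
theorem s14 : chart v1 (slice v1 y) 1 4 = 0 := by
  rw [chart_apply]; exact (uni_gt _ (by decide)).trans (if_neg (by decide))
theorem s15 : chart v1 (slice v1 y) 1 5 = 0 := by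
  rw [chart_apply]; exact (uni_gt _ (by decide)).trans (if_neg (by decide))
theorem s16 : chart v1 (slice v1 y) 1 6 = 0 := by
  rw [chart_apply]; exact (uni_gt _ (by decide)).trans (if_neg (by decide))
theorem s17 : chart v1 (slice v1 y) 1 7 = 1 := by rw [chart_apply]; exact uni_self _ _
theorem s18 : chart v1 (slice v1 y) 1 8 = 0 := by
  rw [chart_apply]; exact uni_lt _ (by decide)
theorem s19 : chart v1 (slice v1 y) 1 9 = 0 := by
  rw [chart_apply]; exact uni_lt _ (by decide)
theorem s20 : chart v1 (slice v1 y) 2 0 = y (ix 8 0) := by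
  rw [chart_apply]; exact (uni_gt _ (by decide)).trans (if_pos (by decide))
theorem s21 : chart v1 (slice v1 y) 2 1 = 0 := by
  rw [chart_apply]; exact (uni_gt _ (by decide)).trans (if_neg (by decide))
theorem s22 : chart v1 (slice v1 y) 2 2 = 0 := by
  rw [chart_apply]; exact (uni_gt _ (by decide)).trans (if_neg (by decide))
theorem s23 : chart v1 (slice v1 y) 2 3 = 0 := by
  rw [chart_apply]; exact (uni_gt _ (by decide)).trans (if_neg (by decide))
theorem s24 : chart v1 (slice v1 y) 2 4 = 0 := by
  rw [chart_apply]; exact (uni_gt _ (by decide)).trans (if_neg (by decide))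
theorem s25 : chart v1 (slice v1 y) 2 5 = 0 := by
  rw [chart_apply]; exact (uni_gt _ (by decide)).trans (if_neg (by decide))
theorem s26 : chart v1 (slice v1 y) 2 6 = 0 := by
  rw [chart_apply]; exact (uni_gt _ (by decide)).trans (if_neg (by decide))
theorem s27 : chart v1 (slice v1 y) 2 7 = y (ix 8 7) := by
  rw [chart_apply]; exact (uni_gt _ (by decide)).trans (if_pos (by decide))
theorem s28 : chart v1 (slice v1 y) 2 8 = 1 := by rw [chart_apply]; exact uni_self _ _
theorem s29 : chart v1 (slice v1 y) 2 9 = 0 := by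
  rw [chart_apply]; exact uni_lt _ (by decide)
theorem s90 : chart v1 (slice v1 y) 9 0 = y (ix 9 0) := by
  rw [chart_apply]; exact (uni_gt _ (by decide)).trans (if_pos (by decide))
theorem s91 : chart v1 (slice v1 y) 9 1 = y (ix 9 1) := by
  rw [chart_apply]; exact (uni_gt _ (by decide)).trans (if_pos (by decide))
theorem s92 : chart v1 (slice v1 y) 9 2 = y (ix 9 2) := by
  rw [chart_apply]; exact (uni_gt _ (by decide)).trans (if_pos (by decide))
theorem s93 : chart v1 (slice v1 y) 9 3 = y (ix 9 3) := by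
  rw [chart_apply]; exact (uni_gt _ (by decide)).trans (if_pos (by decide))
theorem s94 : chart v1 (slice v1 y) 9 4 = y (ix 9 4) := by
  rw [chart_apply]; exact (uni_gt _ (by decide)).trans (if_pos (by decide))
theorem s95 : chart v1 (slice v1 y) 9 5 = y (ix 9 5) := by
  rw [chart_apply]; exact (uni_gt _ (by decide)).trans (if_pos (by decide))
theorem s96 : chart v1 (slice v1 y) 9 6 = y (ix 9 6) := by
  rw [chart_apply]; exact (uni_gt _ (by decide)).trans (if_pos (by decide))
theorem s97 : chart v1 (slice v1 y) 9 7 = y (ix 9 7) := by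
  rw [chart_apply]; exact (uni_gt _ (by decide)).trans (if_pos (by decide))
theorem s98 : chart v1 (slice v1 y) 9 8 = y (ix 9 8) := by
  rw [chart_apply]; exact (uni_gt _ (by decide)).trans (if_pos (by decide))
theorem s99 : chart v1 (slice v1 y) 9 9 = 1 := by rw [chart_apply]; exact uni_self _ _

end entries

end Pool.Agent.W442.SN
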