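import Mathlib
import Pool.Agent.W442.SN.Data

open MvPolynomial

set_option linter.unusedSimpArgs false

namespace Pool.Agent.W442.SN

open Pool.Agent.W442.SV

variable {y : Low 10 → ℂ}

theorem q50 (hy : y ∈ tube v1 w1) : y (ix 5 0) = 0 := by
  have h := minor_schubert w1 hy 6 1 (k := 1) ![6] ![0] (by decide) (by decide) (by decide)
  rw [Matrix.det_fin_one] at h
  exact (s60 y).symm.trans h

theorem q40 (hy : y ∈ tube v1 w1) : y (ix 4 0) = 0 := by
  have h := minor_schubert w1 hy 6 1 (k := 1) ![7] ![0] (by decide) (by decide) (by decide)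
  rw [Matrix.det_fin_one] at h
  exact (s70 y).symm.trans h

theorem q20 (hy : y ∈ tube v1 w1) : y (ix 2 0) = 0 := by
  have h := minor_schubert w1 hy 6 1 (k := 1) ![8] ![0] (by decide) (by decide) (by decide)
  rw [Matrix.det_fin_one] at h
  exact (s80 y).symm.trans h

theorem q90 (hy : y ∈ tube v1 w1) : y (ix 9 0) = 0 := by
  have h := minor_schubert w1 hy 6 1 (k := 1) ![9] ![0] (by decide) (by decide) (by decide)
  rw [Matrix.det_fin_one] at h
  exact (s90 y).symm.trans h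

theorem q91 (hy : y ∈ tube v1 w1) : y (ix 9 1) = 0 := by
  have h := minor_schubert w1 hy 9 2 (k := 1) ![9] ![1] (by decide) (by decide) (by decide)
  rw [Matrix.det_fin_one] at h
  exact (s91 y).symm.trans h

theorem qae1 (hy : y ∈ tube v1 w1) : 
    y (ix 6 0) * y (ix 5 3) + y (ix 6 3) * y (ix 1 0) * y (ix 5 1) = 0 := by
  obtain ⟨z, hz, hb⟩ := row_relation w1 hy 4 4 (k := 4) ![4, 6, 5, 8] ![0, 1, 2, 3]
    (by decide) (by decide) (by decide)
  have h0 := hb 0
  have h1 := hb 1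
  have h2 := hb 2
  have h3 := hb 3
  simp [Fin.sum_univ_succ, s40, s41, s42, s43, s60, s61, s62, s63, s50, s51, s52, s53, s80, s81, s82, s83, q50 hy, q40 hy, q20 hy, q90 hy, q91 hy] at h0 h1 h2 h3
  have hne : z 0 ≠ 0 ∨ z 1 ≠ 0 := by
    by_contra hcon
    push Not at hcon
    obtain ⟨u0, u1⟩ := hcon
    have u3 : z 3 = 0 := by linear_combination h2
    have u2 : z 2 = 0 := by linear_combination h1 - u1 * y (ix 5 1) - u3 * y (ix 2 1)
    apply hz
    funext i
    fin_cases i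
    exacts [u0, u1, u2, u3]
  have e1 : z 0 * y (ix 6 0) + z 1 * (-(y (ix 1 0) * y (ix 5 1))) = 0 := by
    linear_combination h0 - y (ix 1 0) * h1 + y (ix 1 0) * y (ix 2 1) * h2
  have key := det2 hne e1 h3
  linear_combination key

theorem qae2 (hy : y ∈ tube v1 w1) : 
    y (ix 6 0) * y (ix 4 3) + y (ix 6 3) * y (ix 1 0) * y (ix 4 1) = 0 := by
  obtain ⟨z, hz, hb⟩ := row_relation w1 hy 4 4 (k := 4) ![4, 7, 5, 8] ![0, 1, 2, 3]
    (by decide) (by decide) (by decide)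
  have h0 := hb 0
  have h1 := hb 1
  have h2 := hb 2
  have h3 := hb 3
  simp [Fin.sum_univ_succ, s40, s41, s42, s43, s70, s71, s72, s73, s50, s51, s52, s53, s80, s81, s82, s83, q50 hy, q40 hy, q20 hy, q90 hy, q91 hy] at h0 h1 h2 h3
  have hne : z 0 ≠ 0 ∨ z 1 ≠ 0 := by
    by_contra hcon
    push Not at hcon
    obtain ⟨u0, u1⟩ := hcon
    have u3 : z 3 = 0 := by linear_combination h2
    have u2 : z 2 = 0 := by linear_combination h1 - u1 * y (ix 4 1) - u3 * y (ix 2 1)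
    apply hz
    funext i
    fin_cases i
    exacts [u0, u1, u2, u3]
  have e1 : z 0 * y (ix 6 0) + z 1 * (-(y (ix 1 0) * y (ix 4 1))) = 0 := by
    linear_combination h0 - y (ix 1 0) * h1 + y (ix 1 0) * y (ix 2 1) * h2
  have key := det2 hne e1 h3
  linear_combination key

theorem qah (hy : y ∈ tube v1 w1) : 
    y (ix 6 0) * y (ix 9 3) - y (ix 6 3) * y (ix 1 0) * y (ix 2 1) * y (ix 9 2) = 0 := by
  obtain ⟨z, hz, hb⟩ := row_relation w1 hy 4 4 (k := 4) ![4, 9, 5, 8] ![0, 1, 2, 3]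
    (by decide) (by decide) (by decide)
  have h0 := hb 0
  have h1 := hb 1
  have h2 := hb 2
  have h3 := hb 3
  simp [Fin.sum_univ_succ, s40, s41, s42, s43, s90, s91, s92, s93, s50, s51, s52, s53, s80, s81, s82, s83, q50 hy, q40 hy, q20 hy, q90 hy, q91 hy] at h0 h1 h2 h3
  have hne : z 0 ≠ 0 ∨ z 1 ≠ 0 := by
    by_contra hcon
    push Not at hcon
    obtain ⟨u0, u1⟩ := hcon
    have u3 : z 3 = 0 := by linear_combination h2 - u1 * y (ix 9 2)
    have u2 : z 2 = 0 := by linear_combination h1 - u3 * y (ix 2 1)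
    apply hz
    funext i
    fin_cases i
    exacts [u0, u1, u2, u3]
  have e1 : z 0 * y (ix 6 0) + z 1 * (y (ix 1 0) * y (ix 2 1) * y (ix 9 2)) = 0 := by
    linear_combination h0 - y (ix 1 0) * h1 + y (ix 1 0) * y (ix 2 1) * h2
  have key := det2 hne e1 h3
  linear_combination key

theorem qdd (hy : y ∈ tube v1 w1) : 
    y (ix 5 1) * y (ix 4 3) - y (ix 4 1) * y (ix 5 3) = 0 := by
  obtain ⟨z, hz, hb⟩ := row_relation w1 hy 6 4 (k := 3) ![6, 7, 8] ![1, 2, 3]
    (by decide) (by decide) (by decide)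
  have h1 := hb 0
  have h2 := hb 1
  have h3 := hb 2
  simp [Fin.sum_univ_succ, s61, s62, s63, s71, s72, s73, s81, s82, s83, q50 hy, q40 hy, q20 hy, q90 hy, q91 hy] at h1 h2 h3
  have hne : z 0 ≠ 0 ∨ z 1 ≠ 0 := by
    by_contra hcon
    push Not at hcon
    obtain ⟨u0, u1⟩ := hcon
    have u2 : z 2 = 0 := by linear_combination h2
    apply hz
    funext i
    fin_cases i
    exacts [u0, u1, u2]
  have e1 : z 0 * y (ix 5 1) + z 1 * y (ix 4 1) = 0 := by
    linear_combination h1 - y (ix 2 1) * h2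
  have key := det2 hne e1 h3
  linear_combination key

theorem qdh1 (hy : y ∈ tube v1 w1) : 
    y (ix 5 1) * y (ix 9 3) + y (ix 5 3) * y (ix 2 1) * y (ix 9 2) = 0 := by
  obtain ⟨z, hz, hb⟩ := row_relation w1 hy 6 4 (k := 3) ![6, 9, 8] ![1, 2, 3]
    (by decide) (by decide) (by decide)
  have h1 := hb 0
  have h2 := hb 1
  have h3 := hb 2
  simp [Fin.sum_univ_succ, s61, s62, s63, s91, s92, s93, s81, s82, s83, q50 hy, q40 hy, q20 hy, q90 hy, q91 hy] at h1 h2 h3
  have hne : z 0 ≠ 0 ∨ z 1 ≠ 0 := by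
    by_contra hcon
    push Not at hcon
    obtain ⟨u0, u1⟩ := hcon
    have u2 : z 2 = 0 := by linear_combination h2 - u1 * y (ix 9 2)
    apply hz
    funext i
    fin_cases i
    exacts [u0, u1, u2]
  have e1 : z 0 * y (ix 5 1) + z 1 * (-(y (ix 2 1) * y (ix 9 2))) = 0 := by
    linear_combination h1 - y (ix 2 1) * h2
  have key := det2 hne e1 h3
  linear_combination key

theorem qdh2 (hy : y ∈ tube v1 w1) : 
    y (ix 4 1) * y (ix 9 3) + y (ix 4 3) * y (ix 2 1) * y (ix 9 2) = 0 := by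
  obtain ⟨z, hz, hb⟩ := row_relation w1 hy 6 4 (k := 3) ![7, 9, 8] ![1, 2, 3]
    (by decide) (by decide) (by decide)
  have h1 := hb 0
  have h2 := hb 1
  have h3 := hb 2
  simp [Fin.sum_univ_succ, s71, s72, s73, s91, s92, s93, s81, s82, s83, q50 hy, q40 hy, q20 hy, q90 hy, q91 hy] at h1 h2 h3
  have hne : z 0 ≠ 0 ∨ z 1 ≠ 0 := by
    by_contra hcon
    push Not at hcon
    obtain ⟨u0, u1⟩ := hcon
    have u2 : z 2 = 0 := by linear_combination h2 - u1 * y (ix 9 2)
    apply hz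
    funext i
    fin_cases i
    exacts [u0, u1, u2]
  have e1 : z 0 * y (ix 4 1) + z 1 * (-(y (ix 2 1) * y (ix 9 2))) = 0 := by
    linear_combination h1 - y (ix 2 1) * h2
  have key := det2 hne e1 h3
  linear_combination key

theorem q80 (hy : y ∈ tube v1 w1) : y (ix 8 0) - y (ix 7 0) * y (ix 8 7) = 0 := by
  obtain ⟨z, hz, hb⟩ := row_relation w1 hy 1 8 (k := 8) ![1, 2, 3, 4, 5, 6, 7, 8] ![0, 1, 2, 3, 4, 5, 6, 7]
    (by decide) (by decide) (by decide)
  have h0 := hb 0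
  have h1 := hb 1
  have h2 := hb 2
  have h3 := hb 3
  have h4 := hb 4
  have h5 := hb 5
  have h6 := hb 6
  have h7 := hb 7
  simp [Fin.sum_univ_succ, s10, s11, s12, s13, s14, s15, s16, s17, s20, s21, s22, s23, s24, s25, s26, s27, s30, s31, s32, s33, s34, s35, s36, s37, s40, s41, s42, s43, s44, s45, s46, s47, s50, s51, s52, s53, s54, s55, s56, s57, s60, s61, s62, s63, s64, s65, s66, s67, s70, s71, s72, s73, s74, s75, s76, s77, s80, s81, s82, s83, s84, s85, s86, s87, q50 hy, q40 hy, q20 hy, q90 hy, q91 hy] at h0 h1 h2 h3 h4 h5 h6 h7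
  have hne : z 1 ≠ 0 := by
    intro u1
    have u7 : z 7 = 0 := by linear_combination h2
    have u6 : z 6 = 0 := by linear_combination h4
    have u5 : z 5 = 0 := by linear_combination h5
    have u3 : z 3 = 0 := by linear_combination h6
    have u2 : z 2 = 0 := by linear_combination h3 - y (ix 6 3) * h6 - y (ix 5 3) * h5 - y (ix 4 3) * h4
    have u4 : z 4 = 0 := by linear_combination h1 - y (ix 5 1) * h5 - y (ix 4 1) * h4 - y (ix 2 1) * h2
    have u0 : z 0 = 0 := by linear_combination h7 - y (ix 8 7) * u1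
    apply hz
    funext i
    fin_cases i
    exacts [u0, u1, u2, u3, u4, u5, u6, u7]
  have key : z 1 * (y (ix 8 0) - y (ix 7 0) * y (ix 8 7)) = 0 := by
    linear_combination h0 - y (ix 7 0) * h7 - y (ix 3 0) * (h3 - y (ix 6 3) * h6 - y (ix 5 3) * h5 - y (ix 4 3) * h4) - y (ix 6 0) * h6 - y (ix 1 0) * (h1 - y (ix 5 1) * h5 - y (ix 4 1) * h4 - y (ix 2 1) * h2)
  exact (mul_eq_zero.mp key).resolve_left hne

theorem q97 (hy : y ∈ tube v1 w1) : y (ix 9 7) - y (ix 8 7) * y (ix 9 8) = 0 := by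
  obtain ⟨z, hz, hb⟩ := row_relation w1 hy 2 9 (k := 8) ![2, 3, 4, 5, 6, 7, 8, 9] ![1, 2, 3, 4, 5, 6, 7, 8]
    (by decide) (by decide) (by decide)
  have h1 := hb 0
  have h2 := hb 1
  have h3 := hb 2
  have h4 := hb 3
  have h5 := hb 4
  have h6 := hb 5
  have h7 := hb 6
  have h8 := hb 7
  simp [Fin.sum_univ_succ, s21, s22, s23, s24, s25, s26, s27, s28, s31, s32, s33, s34, s35, s36, s37, s38, s41, s42, s43, s44, s45, s46, s47, s48, s51, s52, s53, s54, s55, s56, s57, s58, s61, s62, s63, s64, s65, s66, s67, s68, s71, s72, s73, s74, s75, s76, s77, s78, s81, s82, s83, s84, s85, s86, s87, s88, s91, s92, s93, s94, s95, s96, s97, s98, q50 hy, q40 hy, q20 hy, q90 hy, q91 hy] at h1 h2 h3 h4 h5 h6 h7 h8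
  have hne : z 7 ≠ 0 := by
    intro u7
    have u6 : z 6 = 0 := by linear_combination h2 - y (ix 9 2) * u7
    have u5 : z 5 = 0 := by linear_combination h4 - y (ix 9 4) * u7
    have u4 : z 4 = 0 := by linear_combination h5 - y (ix 9 5) * u7
    have u2 : z 2 = 0 := by linear_combination h6 - y (ix 9 6) * u7
    have u0 : z 0 = 0 := by linear_combination h8 - y (ix 9 8) * u7
    have u1 : z 1 = 0 := by linear_combination h3 - y (ix 6 3) * u2 - y (ix 5 3) * u4 - y (ix 4 3) * u5 - y (ix 9 3) * u7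
    have u3 : z 3 = 0 := by linear_combination h1 - y (ix 5 1) * u4 - y (ix 4 1) * u5 - y (ix 2 1) * u6
    apply hz
    funext i
    fin_cases i
    exacts [u0, u1, u2, u3, u4, u5, u6, u7]
  have key : z 7 * (y (ix 9 7) - y (ix 8 7) * y (ix 9 8)) = 0 := by
    linear_combination h7 - y (ix 8 7) * h8
  exact (mul_eq_zero.mp key).resolve_left hne

theorem qF (hy : y ∈ tube v1 w1) : 
    -(y (ix 7 0) * y (ix 8 7) * y (ix 9 8)) - y (ix 3 0) * y (ix 9 3) - y (ix 6 0) * y (ix 9 6)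
      + y (ix 3 0) * y (ix 6 3) * y (ix 9 6)
      + y (ix 3 0) * (y (ix 5 3) * y (ix 9 5) + y (ix 4 3) * y (ix 9 4))
      + y (ix 1 0) * (y (ix 5 1) * y (ix 9 5) + y (ix 4 1) * y (ix 9 4))
      + y (ix 1 0) * y (ix 2 1) * y (ix 9 2) = 0 := by
  obtain ⟨z, hz, hb⟩ := row_relation w1 hy 1 8 (k := 8) ![1, 3, 4, 5, 6, 7, 8, 9] ![0, 1, 2, 3, 4, 5, 6, 7]
    (by decide) (by decide) (by decide)
  have h0 := hb 0
  have h1 := hb 1
  have h2 := hb 2
  have h3 := hb 3
  have h4 := hb 4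
  have h5 := hb 5
  have h6 := hb 6
  have h7 := hb 7
  simp [Fin.sum_univ_succ, s10, s11, s12, s13, s14, s15, s16, s17, s30, s31, s32, s33, s34, s35, s36, s37, s40, s41, s42, s43, s44, s45, s46, s47, s50, s51, s52, s53, s54, s55, s56, s57, s60, s61, s62, s63, s64, s65, s66, s67, s70, s71, s72, s73, s74, s75, s76, s77, s80, s81, s82, s83, s84, s85, s86, s87, s90, s91, s92, s93, s94, s95, s96, s97, q50 hy, q40 hy, q20 hy, q90 hy, q91 hy] at h0 h1 h2 h3 h4 h5 h6 h7
  have hne : z 7 ≠ 0 := by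
    intro u7
    have u6 : z 6 = 0 := by linear_combination h2 - y (ix 9 2) * u7
    have u5 : z 5 = 0 := by linear_combination h4 - y (ix 9 4) * u7
    have u4 : z 4 = 0 := by linear_combination h5 - y (ix 9 5) * u7
    have u2 : z 2 = 0 := by linear_combination h6 - y (ix 9 6) * u7
    have u0 : z 0 = 0 := by linear_combination h7 - y (ix 9 7) * u7
    have u1 : z 1 = 0 := by linear_combination h3 - y (ix 6 3) * u2 - y (ix 5 3) * u4 - y (ix 4 3) * u5 - y (ix 9 3) * u7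
    have u3 : z 3 = 0 := by linear_combination h1 - y (ix 5 1) * u4 - y (ix 4 1) * u5 - y (ix 2 1) * u6
    apply hz
    funext i
    fin_cases i
    exacts [u0, u1, u2, u3, u4, u5, u6, u7]
  have key : z 7 * (-(y (ix 7 0) * y (ix 8 7) * y (ix 9 8)) - y (ix 3 0) * y (ix 9 3) - y (ix 6 0) * y (ix 9 6)
      + y (ix 3 0) * y (ix 6 3) * y (ix 9 6)
      + y (ix 3 0) * (y (ix 5 3) * y (ix 9 5) + y (ix 4 3) * y (ix 9 4))
      + y (ix 1 0) * (y (ix 5 1) * y (ix 9 5) + y (ix 4 1) * y (ix 9 4))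
      + y (ix 1 0) * y (ix 2 1) * y (ix 9 2)) = 0 := by
    linear_combination h0 - y (ix 7 0) * h7 - y (ix 3 0) * (h3 - y (ix 6 3) * h6 - y (ix 5 3) * h5 - y (ix 4 3) * h4) - y (ix 6 0) * h6 - y (ix 1 0) * (h1 - y (ix 5 1) * h5 - y (ix 4 1) * h4 - y (ix 2 1) * h2) + z 7 * y (ix 7 0) * q97 hy
  exact (mul_eq_zero.mp key).resolve_left hne

end Pool.Agent.W442.SN
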