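import Mathlib
import Pool.Agent.W442.SN.Geo
import Pool.Agent.W442.SV.Mem

open MvPolynomial

set_option linter.unusedSimpArgs false

namespace Pool.Agent.W442.SN

open Pool.Agent.W442.SV

theorem rank_two {m n : Type} [Fintype m] [Fintype n] [DecidableEq n] (M : Matrix m n ℂ)
    (l1 l2 : n → ℂ) (h1 : M.mulVec l1 = 0) (h2 : M.mulVec l2 = 0)
    (hli : LinearIndependent ℂ ![l1, l2]) : M.rank + 2 ≤ Fintype.card n := by
  have h3 := LinearMap.finrank_range_add_finrank_ker M.mulVecLin
  rw [Module.finrank_pi] at h3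
  have h4 : Submodule.span ℂ (Set.range ![l1, l2]) ≤ LinearMap.ker M.mulVecLin := by
    rw [Submodule.span_le]
    rintro _ ⟨i, rfl⟩
    fin_cases i
    · exact h1
    · exact h2
  have h5 := Submodule.finrank_mono h4
  rw [finrank_span_eq_card hli, Fintype.card_fin] at h5
  unfold Matrix.rank
  omega

theorem rank_sw_two {g : Matrix (Fin 10) (Fin 10) ℂ} (p q : ℕ) (l : Fin 10 → ℂ)
    (h0 : ∀ i : Fin 10, 6 ≤ (i : ℕ) → g i 0 = 0) (hl0 : l 0 = 0) (hl1 : l 1 = 1)
    (hl : ∀ j : Fin 10, 4 ≤ (j : ℕ) → l j = 0)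
    (hrel : ∀ i : Fin 10, 6 ≤ (i : ℕ) → ∑ j, g i j * l j = 0)
    (hp : 6 ≤ p) (hq : 4 ≤ q) : (southWest g p q).rank + 2 ≤ min 10 q := by
  rw [← card_lt q]
  have hz : (0 : ℕ) < q := by omega
  have ho : (1 : ℕ) < q := by omega
  apply rank_two (southWest g p q) (fun j => if j.1 = 0 then 1 else 0) (fun j => l j.1)
  · funext i
    simp only [Matrix.mulVec, dotProduct, Pi.zero_apply]
    rw [Finset.sum_eq_single (⟨0, hz⟩ : {j : Fin 10 // (j : ℕ) < q})]
    · simp only [southWest, Matrix.submatrix_apply, if_true, mul_one]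
      exact h0 i.1 (le_trans hp i.2)
    · intro b _ hb
      rw [if_neg, mul_zero]
      intro h
      exact hb (Subtype.ext h)
    · intro h
      exact absurd (Finset.mem_univ _) h
  · funext i
    simp only [Matrix.mulVec, dotProduct, Pi.zero_apply]
    rw [← hrel i.1 (le_trans hp i.2)]
    have h2 := Finset.sum_subtype (F := inferInstance) (p := fun j : Fin 10 => (j : ℕ) < q)
      (Finset.univ.filter fun j : Fin 10 => (j : ℕ) < q) (by simp)
      (fun j : Fin 10 => g i.1 j * l j)
    refine Eq.trans ?_ (h2.symm.trans ?_)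
    · rfl
    · apply Finset.sum_filter_of_ne
      intro j _ hj
      by_contra hlt
      apply hj
      rw [hl j (by omega), mul_zero]
  · rw [LinearIndependent.pair_iff]
    intro a b hab
    have e0 := congrFun hab ⟨0, hz⟩
    have e1 := congrFun hab ⟨1, ho⟩
    simp [hl0, hl1] at e0 e1
    exact ⟨e0, e1⟩

theorem sw_min1 (p q : ℕ) : swRank w1 p q = swRank w1 p (min 10 q) := by
  unfold swRank
  congr 1
  apply Finset.filter_congr
  intro j _
  have := j.2
  constructor <;> rintro ⟨h1, h2⟩ <;> exact ⟨by omega, h2⟩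

theorem sw_table1 : ∀ p : Fin 10, ∀ q : Fin 11,
    10 - (p : ℕ) ≤ swRank w1 p q ∨ (q : ℕ) ≤ swRank w1 p q ∨
    ((q : ℕ) ≤ 2 ∧ 10 - (p : ℕ) ≤ swRank w1 p q + 1) ∨
    ((p : ℕ) ≤ 2 ∧ (q : ℕ) ≤ 9 ∧ 10 - (p : ℕ) ≤ swRank w1 p q + 1) ∨
    (6 ≤ (p : ℕ) ∧ 1 ≤ (q : ℕ) ∧ (q : ℕ) ≤ swRank w1 p q + 1) ∨
    (4 ≤ (p : ℕ) ∧ 4 ≤ (q : ℕ) ∧ (q : ℕ) ≤ swRank w1 p q + 1) ∨
    (1 ≤ (p : ℕ) ∧ 8 ≤ (q : ℕ) ∧ (q : ℕ) ≤ swRank w1 p q + 1) ∨
    (6 ≤ (p : ℕ) ∧ 4 ≤ (q : ℕ) ∧ (q : ℕ) ≤ swRank w1 p q + 2) := by
  decide +kernel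

theorem lt2 {P : Fin 10 → Prop} (h0 : P 0) (h1 : P 1) :
    ∀ j : Fin 10, (j : ℕ) < 2 → P j := by
  intro j hj
  fin_cases j
  exacts [h0, h1, absurd hj (by decide), absurd hj (by decide), absurd hj (by decide),
    absurd hj (by decide), absurd hj (by decide), absurd hj (by decide), absurd hj (by decide),
    absurd hj (by decide)]

theorem lt9 {P : Fin 10 → Prop} (h0 : P 0) (h1 : P 1) (h2 : P 2) (h3 : P 3) (h4 : P 4) (h5 : P 5)
    (h6 : P 6) (h7 : P 7) (h8 : P 8) : ∀ j : Fin 10, (j : ℕ) < 9 → P j := by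
  intro j hj
  fin_cases j
  exacts [h0, h1, h2, h3, h4, h5, h6, h7, h8, absurd hj (by decide)]

theorem ge6 {P : Fin 10 → Prop} (h6 : P 6) (h7 : P 7) (h8 : P 8) (h9 : P 9) :
    ∀ j : Fin 10, 6 ≤ (j : ℕ) → P j := by
  intro j hj
  fin_cases j
  exacts [absurd hj (by decide), absurd hj (by decide), absurd hj (by decide),
    absurd hj (by decide), absurd hj (by decide), absurd hj (by decide), h6, h7, h8, h9]

theorem ge4' {P : Fin 10 → Prop} (h4 : P 4) (h5 : P 5) (h6 : P 6) (h7 : P 7) (h8 : P 8)
    (h9 : P 9) : ∀ j : Fin 10, 4 ≤ (j : ℕ) → P j := by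
  intro j hj
  fin_cases j
  exacts [absurd hj (by decide), absurd hj (by decide), absurd hj (by decide),
    absurd hj (by decide), h4, h5, h6, h7, h8, h9]

theorem ge1' {P : Fin 10 → Prop} (h1 : P 1) (h2 : P 2) (h3 : P 3) (h4 : P 4) (h5 : P 5)
    (h6 : P 6) (h7 : P 7) (h8 : P 8) (h9 : P 9) : ∀ j : Fin 10, 1 ≤ (j : ℕ) → P j := by
  intro j hj
  fin_cases j
  exacts [absurd hj (by decide), h1, h2, h3, h4, h5, h6, h7, h8, h9]

theorem mem_tube (y : Low 10 → ℂ) (l : ℂ) (h50 : y (ix 5 0) = 0) (h40 : y (ix 4 0) = 0)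
    (h20 : y (ix 2 0) = 0) (h90 : y (ix 9 0) = 0) (h91 : y (ix 9 1) = 0)
    (ha : y (ix 6 0) = y (ix 6 3) * y (ix 1 0) * l) (hd1 : y (ix 5 1) = -(l * y (ix 5 3)))
    (hd2 : y (ix 4 1) = -(l * y (ix 4 3))) (hg : y (ix 2 1) * y (ix 9 2) = l * y (ix 9 3))
    (h80 : y (ix 8 0) = y (ix 7 0) * y (ix 8 7)) (h97 : y (ix 9 7) = y (ix 8 7) * y (ix 9 8))
    (hF : -(y (ix 7 0) * y (ix 8 7) * y (ix 9 8)) - y (ix 3 0) * y (ix 9 3) - y (ix 6 0) * y (ix 9 6)
      + y (ix 3 0) * y (ix 6 3) * y (ix 9 6)
      + y (ix 3 0) * (y (ix 5 3) * y (ix 9 5) + y (ix 4 3) * y (ix 9 4))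
      + y (ix 1 0) * (y (ix 5 1) * y (ix 9 5) + y (ix 4 1) * y (ix 9 4))
      + y (ix 1 0) * y (ix 2 1) * y (ix 9 2) = 0) : y ∈ tube v1 w1 := by
  change chart v1 (slice v1 y) ∈ schubert w1
  apply Pool.Agent.W22.SV.Clos.main 10 w1 (chart v1 (slice v1 y)) (isUnit_det_chart v1 _)
  intro p q
  have t1 : (southWest (chart v1 (slice v1 y)) p q).rank ≤ 10 - p := by
    rw [← card_ge p]
    exact Matrix.rank_le_card_height _
  have t2 : (southWest (chart v1 (slice v1 y)) p q).rank ≤ min 10 q := by
    rw [← card_lt q]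
    exact Matrix.rank_le_card_width _
  rcases lt_or_ge p 10 with hp | hp
  swap
  · omega
  rw [sw_min1]
  have ht := sw_table1 ⟨p, hp⟩ ⟨min 10 q, by omega⟩
  simp only at ht
  rcases ht with h | h | ⟨e1, h⟩ | ⟨e1, e2, h⟩ | ⟨e1, e2, h⟩ | ⟨e1, e2, h⟩ | ⟨e1, e2, h⟩ | ⟨e1, e2, h⟩
  · omega
  · omega
  · have := rank_sw_row (g := chart v1 (slice v1 y)) p q 9 2 ![0, 0, 0, 0, 0, 0, 0, 0, 0, 1] ?_ ?_ ?_ (by omega) (by omega)
    · omega
    · intro hcon
      exact one_ne_zero (congrFun hcon 9)
    · intro i hi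
      fin_cases i
      exacts [rfl, rfl, rfl, rfl, rfl, rfl, rfl, rfl, rfl, absurd hi (by decide)]
    · apply lt2
      · simp only [sum10, Matrix.cons_val, s00, s10, s20, s30, s40, s50, s60, s70, s80, s90, h50, h40, h20, h90, h91]
        linear_combination 0
      · simp only [sum10, Matrix.cons_val, s01, s11, s21, s31, s41, s51, s61, s71, s81, s91, h50, h40, h20, h90, h91]
        linear_combination 0
  · have := rank_sw_row (g := chart v1 (slice v1 y)) p q 2 9 ![0, 0, -y (ix 9 8), -(y (ix 9 3) - y (ix 9 4) * y (ix 4 3) - y (ix 9 5) * y (ix 5 3) - y (ix 9 6) * y (ix 6 3)), -y (ix 9 6), -(-(y (ix 9 2) * y (ix 2 1)) - y (ix 9 4) * y (ix 4 1) - y (ix 9 5) * y (ix 5 1)), -y (ix 9 5), -y (ix 9 4), -y (ix 9 2), 1] ?_ ?_ ?_ (by omega) (by omega)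
    · omega
    · intro hcon
      exact one_ne_zero (congrFun hcon 9)
    · intro i hi
      fin_cases i
      exacts [rfl, rfl, absurd hi (by decide), absurd hi (by decide), absurd hi (by decide), absurd hi (by decide), absurd hi (by decide), absurd hi (by decide), absurd hi (by decide), absurd hi (by decide)]
    · apply lt9
      · simp only [sum10, Matrix.cons_val, s00, s10, s20, s30, s40, s50, s60, s70, s80, s90, h50, h40, h20, h90, h91]
        linear_combination hF - y (ix 9 8) * h80
      · simp only [sum10, Matrix.cons_val, s01, s11, s21, s31, s41, s51, s61, s71, s81, s91, h50, h40, h20, h90, h91]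
        linear_combination 0
      · simp only [sum10, Matrix.cons_val, s02, s12, s22, s32, s42, s52, s62, s72, s82, s92, h50, h40, h20, h90, h91]
        linear_combination 0
      · simp only [sum10, Matrix.cons_val, s03, s13, s23, s33, s43, s53, s63, s73, s83, s93, h50, h40, h20, h90, h91]
        linear_combination 0
      · simp only [sum10, Matrix.cons_val, s04, s14, s24, s34, s44, s54, s64, s74, s84, s94, h50, h40, h20, h90, h91]
        linear_combination 0
      · simp only [sum10, Matrix.cons_val, s05, s15, s25, s35, s45, s55, s65, s75, s85, s95, h50, h40, h20, h90, h91]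
        linear_combination 0
      · simp only [sum10, Matrix.cons_val, s06, s16, s26, s36, s46, s56, s66, s76, s86, s96, h50, h40, h20, h90, h91]
        linear_combination 0
      · simp only [sum10, Matrix.cons_val, s07, s17, s27, s37, s47, s57, s67, s77, s87, s97, h50, h40, h20, h90, h91]
        linear_combination h97
      · simp only [sum10, Matrix.cons_val, s08, s18, s28, s38, s48, s58, s68, s78, s88, s98, h50, h40, h20, h90, h91]
        linear_combination 0
  · have := rank_sw_col (g := chart v1 (slice v1 y)) p q 6 1 ![1, 0, 0, 0, 0, 0, 0, 0, 0, 0] ?_ ?_ ?_ (by omega) (by omega)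
    · omega
    · intro hcon
      exact one_ne_zero (congrFun hcon 0)
    · intro i hi
      fin_cases i
      exacts [absurd hi (by decide), rfl, rfl, rfl, rfl, rfl, rfl, rfl, rfl, rfl]
    · apply ge6
      · simp only [sum10, Matrix.cons_val, s60, s61, s62, s63, s64, s65, s66, s67, s68, s69, h50, h40, h20, h90, h91]
        linear_combination 0
      · simp only [sum10, Matrix.cons_val, s70, s71, s72, s73, s74, s75, s76, s77, s78, s79, h50, h40, h20, h90, h91]
        linear_combination 0
      · simp only [sum10, Matrix.cons_val, s80, s81, s82, s83, s84, s85, s86, s87, s88, s89, h50, h40, h20, h90, h91]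
        linear_combination 0
      · simp only [sum10, Matrix.cons_val, s90, s91, s92, s93, s94, s95, s96, s97, s98, s99, h50, h40, h20, h90, h91]
        linear_combination 0
  · have := rank_sw_col (g := chart v1 (slice v1 y)) p q 4 4 ![1, -y (ix 1 0), y (ix 1 0) * y (ix 2 1), -(l * y (ix 1 0)), 0, 0, 0, 0, 0, 0] ?_ ?_ ?_ (by omega) (by omega)
    · omega
    · intro hcon
      exact one_ne_zero (congrFun hcon 0)
    · intro i hi
      fin_cases i
      exacts [absurd hi (by decide), absurd hi (by decide), absurd hi (by decide), absurd hi (by decide), rfl, rfl, rfl, rfl, rfl, rfl]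
    · apply ge4'
      · simp only [sum10, Matrix.cons_val, s40, s41, s42, s43, s44, s45, s46, s47, s48, s49, h50, h40, h20, h90, h91]
        linear_combination ha
      · simp only [sum10, Matrix.cons_val, s50, s51, s52, s53, s54, s55, s56, s57, s58, s59, h50, h40, h20, h90, h91]
        linear_combination 0
      · simp only [sum10, Matrix.cons_val, s60, s61, s62, s63, s64, s65, s66, s67, s68, s69, h50, h40, h20, h90, h91]
        linear_combination -y (ix 1 0) * hd1
      · simp only [sum10, Matrix.cons_val, s70, s71, s72, s73, s74, s75, s76, s77, s78, s79, h50, h40, h20, h90, h91]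
        linear_combination -y (ix 1 0) * hd2
      · simp only [sum10, Matrix.cons_val, s80, s81, s82, s83, s84, s85, s86, s87, s88, s89, h50, h40, h20, h90, h91]
        linear_combination 0
      · simp only [sum10, Matrix.cons_val, s90, s91, s92, s93, s94, s95, s96, s97, s98, s99, h50, h40, h20, h90, h91]
        linear_combination y (ix 1 0) * hg
  · have := rank_sw_col (g := chart v1 (slice v1 y)) p q 1 8 ![1, -y (ix 1 0), y (ix 1 0) * y (ix 2 1), -y (ix 3 0), y (ix 1 0) * y (ix 4 1) + y (ix 3 0) * y (ix 4 3), y (ix 1 0) * y (ix 5 1) + y (ix 3 0) * y (ix 5 3), y (ix 3 0) * y (ix 6 3) - y (ix 6 0), -y (ix 7 0), 0, 0] ?_ ?_ ?_ (by omega) (by omega)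
    · omega
    · intro hcon
      exact one_ne_zero (congrFun hcon 0)
    · intro i hi
      fin_cases i
      exacts [absurd hi (by decide), absurd hi (by decide), absurd hi (by decide), absurd hi (by decide), absurd hi (by decide), absurd hi (by decide), absurd hi (by decide), absurd hi (by decide), rfl, rfl]
    · apply ge1'
      · simp only [sum10, Matrix.cons_val, s10, s11, s12, s13, s14, s15, s16, s17, s18, s19, h50, h40, h20, h90, h91]
        linear_combination 0
      · simp only [sum10, Matrix.cons_val, s20, s21, s22, s23, s24, s25, s26, s27, s28, s29, h50, h40, h20, h90, h91]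
        linear_combination h80
      · simp only [sum10, Matrix.cons_val, s30, s31, s32, s33, s34, s35, s36, s37, s38, s39, h50, h40, h20, h90, h91]
        linear_combination 0
      · simp only [sum10, Matrix.cons_val, s40, s41, s42, s43, s44, s45, s46, s47, s48, s49, h50, h40, h20, h90, h91]
        linear_combination 0
      · simp only [sum10, Matrix.cons_val, s50, s51, s52, s53, s54, s55, s56, s57, s58, s59, h50, h40, h20, h90, h91]
        linear_combination 0
      · simp only [sum10, Matrix.cons_val, s60, s61, s62, s63, s64, s65, s66, s67, s68, s69, h50, h40, h20, h90, h91]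
        linear_combination 0
      · simp only [sum10, Matrix.cons_val, s70, s71, s72, s73, s74, s75, s76, s77, s78, s79, h50, h40, h20, h90, h91]
        linear_combination 0
      · simp only [sum10, Matrix.cons_val, s80, s81, s82, s83, s84, s85, s86, s87, s88, s89, h50, h40, h20, h90, h91]
        linear_combination 0
      · simp only [sum10, Matrix.cons_val, s90, s91, s92, s93, s94, s95, s96, s97, s98, s99, h50, h40, h20, h90, h91]
        linear_combination hF - y (ix 7 0) * h97
  · have := rank_sw_two (g := chart v1 (slice v1 y)) p q ![0, 1, -y (ix 2 1), l, 0, 0, 0, 0, 0, 0] ?_ rfl rfl ?_ ?_ (by omega) (by omega)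
    · omega
    · apply ge6
      · rw [s60]; exact h50
      · rw [s70]; exact h40
      · rw [s80]; exact h20
      · rw [s90]; exact h90
    · intro i hi
      fin_cases i
      exacts [absurd hi (by decide), absurd hi (by decide), absurd hi (by decide), absurd hi (by decide), rfl, rfl, rfl, rfl, rfl, rfl]
    · apply ge6
      · simp only [sum10, Matrix.cons_val, s60, s61, s62, s63, s64, s65, s66, s67, s68, s69, h50, h40, h20, h90, h91]
        linear_combination hd1
      · simp only [sum10, Matrix.cons_val, s70, s71, s72, s73, s74, s75, s76, s77, s78, s79, h50, h40, h20, h90, h91]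
        linear_combination hd2
      · simp only [sum10, Matrix.cons_val, s80, s81, s82, s83, s84, s85, s86, s87, s88, s89, h50, h40, h20, h90, h91]
        linear_combination 0
      · simp only [sum10, Matrix.cons_val, s90, s91, s92, s93, s94, s95, s96, s97, s98, s99, h50, h40, h20, h90, h91]
        linear_combination -hg

end Pool.Agent.W442.SN
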