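import Mathlib
import Pool.Agent.W442.SN.Geo
import Pool.Agent.W308.SV.Loc

open MvPolynomial

namespace Pool.Agent.W442.SN

open Pool.Agent.W442.SV Pool.Agent.W308.SV

section
variable {σ : Type} {I : Ideal (MvPolynomial σ ℂ)} {i : ℕ}

theorem Init.zero : Init I i 0 :=
  ⟨isHomogeneous_zero _ _ _, 0, Ideal.zero_mem _, by rw [add_zero]; exact I.zero_mem⟩

theorem Init.add {f g : MvPolynomial σ ℂ} (hf : Init I i f) (hg : Init I i g) :
    Init I i (f + g) := by
  obtain ⟨h1, a, ha, ha'⟩ := hf
  obtain ⟨h2, b, hb, hb'⟩ := hg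
  refine ⟨h1.add h2, a + b, Ideal.add_mem _ ha hb, ?_⟩
  have := I.add_mem ha' hb'
  have e : f + g + (a + b) = f + a + (g + b) := by ring
  rwa [e]

theorem Init.neg {f : MvPolynomial σ ℂ} (hf : Init I i f) : Init I i (-f) := by
  obtain ⟨h1, a, ha, ha'⟩ := hf
  refine ⟨h1.neg, -a, Ideal.neg_mem_iff _ |>.2 ha, ?_⟩
  have e : -f + -a = -(f + a) := by ring
  rw [e]
  exact I.neg_mem ha'

theorem Init.sub {f g : MvPolynomial σ ℂ} (hf : Init I i f) (hg : Init I i g) :
    Init I i (f - g) := by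
  rw [sub_eq_add_neg]
  exact hf.add hg.neg

theorem Init.mul {f p : MvPolynomial σ ℂ} {j k : ℕ} (hf : Init I i f) (hp : p.IsHomogeneous j)
    (hk : k = i + j) : Init I k (f * p) := by
  subst hk
  obtain ⟨h1, a, ha, ha'⟩ := hf
  refine ⟨h1.mul hp, a * p, ?_, ?_⟩
  · have e : i + j + 1 = (i + 1) + j := by ring
    rw [e, pow_add]
    exact Ideal.mul_mem_mul ha (homog_mem hp)
  · rw [← add_mul]
    exact I.mul_mem_right _ ha'

theorem Init.smul {f : MvPolynomial σ ℂ} (c : ℂ) (hf : Init I i f) : Init I i (C c * f) := by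
  rw [mul_comm]
  exact hf.mul (isHomogeneous_C σ c) (by rw [add_zero])

theorem Init.sum {ι : Type} (s : Finset ι) (F : ι → MvPolynomial σ ℂ)
    (h : ∀ a ∈ s, Init I i (F a)) : Init I i (∑ a ∈ s, F a) := by
  classical
  induction s using Finset.induction_on with
  | empty => rw [Finset.sum_empty]; exact Init.zero
  | insert a s ha ih =>
    rw [Finset.sum_insert ha]
    exact (h a (Finset.mem_insert_self _ _)).add
      (ih fun b hb => h b (Finset.mem_insert_of_mem hb))

/-- Monomials divisible by an initial monomial. -/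
theorem Init.mono {s u : σ →₀ ℕ} {j : ℕ} (hu : Init I j (monomial u 1)) (h : u ≤ s)
    (hs : s.degree = i) : Init I i (monomial s 1) := by
  classical
  obtain ⟨t, rfl⟩ := exists_add_of_le h
  have e : (monomial (u + t) 1 : MvPolynomial σ ℂ) = monomial u 1 * monomial t 1 := by
    rw [monomial_mul, one_mul]
  rw [e]
  refine hu.mul (isHomogeneous_monomial (n := t.degree) 1 rfl) ?_
  rw [← hs, map_add]
  have h3 := hu.1
  have : u.degree = j := by
    by_contra hne
    have := h3.coeff_eq_zero hne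
    rw [coeff_monomial, if_pos rfl] at this
    exact one_ne_zero this
  rw [this]

/-- `h` can be reduced to the monomials of `N` modulo initial forms. -/
def Red (I : Ideal (MvPolynomial σ ℂ)) (i : ℕ) (N : Finset (σ →₀ ℕ)) (h : MvPolynomial σ ℂ) :
    Prop :=
  ∃ f : MvPolynomial σ ℂ, (∀ t, coeff t f ≠ 0 → t ∈ N) ∧ Init I i (h - f)

variable {N : Finset (σ →₀ ℕ)}

theorem Red.zero : Red I i N 0 :=
  ⟨0, fun t h => absurd (coeff_zero t) h, by rw [sub_zero]; exact Init.zero⟩

theorem Red.of_init {h : MvPolynomial σ ℂ} (hh : Init I i h) : Red I i N h :=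
  ⟨0, fun t h => absurd (coeff_zero t) h, by rw [sub_zero]; exact hh⟩

theorem Red.of_mem {t : σ →₀ ℕ} (ht : t ∈ N) : Red I i N (monomial t 1) := by
  classical
  refine ⟨monomial t 1, fun u hu => ?_, by rw [sub_self]; exact Init.zero⟩
  rw [coeff_monomial] at hu
  split_ifs at hu with h
  · rwa [← h]
  · exact absurd rfl hu

theorem Red.add {g h : MvPolynomial σ ℂ} (hg : Red I i N g) (hh : Red I i N h) :
    Red I i N (g + h) := by
  obtain ⟨a, ha, ha'⟩ := hg
  obtain ⟨b, hb, hb'⟩ := hh
  refine ⟨a + b, fun t ht => ?_, ?_⟩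
  · by_cases h1 : coeff t a = 0
    · apply hb
      intro h2
      apply ht
      rw [coeff_add, h1, h2, add_zero]
    · exact ha t h1
  · have e : g + h - (a + b) = (g - a) + (h - b) := by ring
    rw [e]
    exact ha'.add hb'

theorem Red.smul {h : MvPolynomial σ ℂ} (c : ℂ) (hh : Red I i N h) : Red I i N (C c * h) := by
  obtain ⟨b, hb, hb'⟩ := hh
  refine ⟨C c * b, fun t ht => ?_, ?_⟩
  · apply hb
    intro h2
    apply ht
    rw [coeff_C_mul, h2, mul_zero]
  · rw [← mul_sub]
    exact hb'.smul c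

theorem Red.neg {h : MvPolynomial σ ℂ} (hh : Red I i N h) : Red I i N (-h) := by
  have := hh.smul (-1)
  rwa [map_neg, C_1, neg_one_mul] at this

theorem Red.congr {g h : MvPolynomial σ ℂ} (h1 : Init I i (g - h)) (h2 : Red I i N h) :
    Red I i N g := by
  have := (Red.of_init (N := N) h1).add h2
  rwa [sub_add_cancel] at this

theorem Red.sum {ι : Type} (s : Finset ι) (F : ι → MvPolynomial σ ℂ)
    (h : ∀ a ∈ s, Red I i N (F a)) : Red I i N (∑ a ∈ s, F a) := by
  classical
  induction s using Finset.induction_on with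
  | empty => rw [Finset.sum_empty]; exact Red.zero
  | insert a s ha ih =>
    rw [Finset.sum_insert ha]
    exact (h a (Finset.mem_insert_self _ _)).add
      (ih fun b hb => h b (Finset.mem_insert_of_mem hb))

theorem Red.trans {N' : Finset (σ →₀ ℕ)} {h : MvPolynomial σ ℂ} (h1 : Red I i N h)
    (h2 : ∀ t ∈ N, Red I i N' (monomial t 1)) : Red I i N' h := by
  obtain ⟨f, hf, hf'⟩ := h1
  apply Red.congr hf'
  rw [f.as_sum]
  apply Red.sum
  intro t ht
  have e : (monomial t (coeff t f) : MvPolynomial σ ℂ) = C (coeff t f) * monomial t 1 := by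
    rw [C_mul_monomial, mul_one]
  rw [e]
  exact (h2 t (hf t (mem_support_iff.mp ht))).smul _

end

end Pool.Agent.W442.SN
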