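import Mathlib
import Pool.Agent.W442.SN.Ini

open MvPolynomial

set_option linter.unusedSimpArgs false

namespace Pool.Agent.W442.SN

open Pool.Agent.W442.SV Pool.Agent.W308.SV

/-- The ideal of the tube. -/
noncomputable abbrev I1 : Ideal A10 := vanishingIdeal ℂ (tube v1 w1)

theorem mem_I1 {p : A10} (h : ∀ y ∈ tube v1 w1, eval y p = 0) : p ∈ I1 := by
  rw [mem_vanishingIdeal_iff]
  exact h

/-- A product of two variables. -/
theorem hom2 (i j : Low 10) : (X i * X j : A10).IsHomogeneous 2 :=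
  (isHomogeneous_X ℂ i).mul (isHomogeneous_X ℂ j)

theorem mem_org (j : Low 10) : (X j : A10) ∈ originIdeal (Low 10) := by
  rw [mem_origin, coeff_zero_X]

theorem org_mul {p q : A10} {i j : ℕ} (hp : p ∈ originIdeal (Low 10) ^ i)
    (hq : q ∈ originIdeal (Low 10) ^ j) {k : ℕ} (hk : i + j = k) :
    p * q ∈ originIdeal (Low 10) ^ k := by
  rw [← hk, pow_add]
  exact Ideal.mul_mem_mul hp hq

theorem org1 (j : Low 10) : (X j : A10) ∈ originIdeal (Low 10) ^ 1 := by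
  rw [pow_one]
  exact mem_org j

theorem org2 (i j : Low 10) : (X i * X j : A10) ∈ originIdeal (Low 10) ^ 2 :=
  org_mul (org1 i) (org1 j) rfl

theorem org3 (i j k : Low 10) : (X i * X j * X k : A10) ∈ originIdeal (Low 10) ^ 3 :=
  org_mul (org2 i j) (org1 k) rfl

theorem org4 (i j k l : Low 10) : (X i * X j * X k * X l : A10) ∈ originIdeal (Low 10) ^ 4 :=
  org_mul (org3 i j k) (org1 l) rfl

theorem org_le {p : A10} {i j : ℕ} (hp : p ∈ originIdeal (Low 10) ^ j) (h : i ≤ j) :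
    p ∈ originIdeal (Low 10) ^ i := Ideal.pow_le_pow_right h hp

theorem lin0 {j : Low 10} (h : ∀ y ∈ tube v1 w1, y j = 0) : Init I1 1 (X j) :=
  ⟨isHomogeneous_X ℂ j, 0, Ideal.zero_mem _, mem_I1 fun y hy => by
    rw [add_zero, eval_X]; exact h y hy⟩

theorem l50 : Init I1 1 (X (ix 5 0)) := lin0 fun _ h => q50 h
theorem l40 : Init I1 1 (X (ix 4 0)) := lin0 fun _ h => q40 h
theorem l20 : Init I1 1 (X (ix 2 0)) := lin0 fun _ h => q20 h
theorem l90 : Init I1 1 (X (ix 9 0)) := lin0 fun _ h => q90 h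
theorem l91 : Init I1 1 (X (ix 9 1)) := lin0 fun _ h => q91 h

theorem l80 : Init I1 1 (X (ix 8 0)) :=
  ⟨isHomogeneous_X ℂ _, -(X (ix 7 0) * X (ix 8 7)), Ideal.neg_mem_iff _ |>.2 (org2 _ _),
    mem_I1 fun y hy => by
      simp only [map_add, map_neg, map_mul, eval_X]
      linear_combination q80 hy⟩

theorem l97 : Init I1 1 (X (ix 9 7)) :=
  ⟨isHomogeneous_X ℂ _, -(X (ix 8 7) * X (ix 9 8)), Ideal.neg_mem_iff _ |>.2 (org2 _ _),
    mem_I1 fun y hy => by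
      simp only [map_add, map_neg, map_mul, eval_X]
      linear_combination q97 hy⟩

theorem k_ae1 : Init I1 2 (X (ix 6 0) * X (ix 5 3)) :=
  ⟨hom2 _ _, X (ix 6 3) * X (ix 1 0) * X (ix 5 1), org3 _ _ _, mem_I1 fun y hy => by
    simp only [map_add, map_neg, map_mul, eval_X]
    linear_combination qae1 hy⟩

theorem k_ae2 : Init I1 2 (X (ix 6 0) * X (ix 4 3)) :=
  ⟨hom2 _ _, X (ix 6 3) * X (ix 1 0) * X (ix 4 1), org3 _ _ _, mem_I1 fun y hy => by
    simp only [map_add, map_neg, map_mul, eval_X]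
    linear_combination qae2 hy⟩

theorem k_ah : Init I1 2 (X (ix 6 0) * X (ix 9 3)) :=
  ⟨hom2 _ _, -(X (ix 6 3) * X (ix 1 0) * X (ix 2 1) * X (ix 9 2)),
    Ideal.neg_mem_iff _ |>.2 (org_le (org4 _ _ _ _) (by norm_num)), mem_I1 fun y hy => by
    simp only [map_add, map_neg, map_mul, eval_X]
    linear_combination qah hy⟩

theorem k_d1h : Init I1 2 (X (ix 5 1) * X (ix 9 3)) :=
  ⟨hom2 _ _, X (ix 5 3) * X (ix 2 1) * X (ix 9 2), org3 _ _ _, mem_I1 fun y hy => by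
    simp only [map_add, map_neg, map_mul, eval_X]
    linear_combination qdh1 hy⟩

theorem k_d2h : Init I1 2 (X (ix 4 1) * X (ix 9 3)) :=
  ⟨hom2 _ _, X (ix 4 3) * X (ix 2 1) * X (ix 9 2), org3 _ _ _, mem_I1 fun y hy => by
    simp only [map_add, map_neg, map_mul, eval_X]
    linear_combination qdh2 hy⟩

theorem k_dd : Init I1 2 (X (ix 4 1) * X (ix 5 3) - X (ix 5 1) * X (ix 4 3)) :=
  ⟨(hom2 _ _).sub (hom2 _ _), 0, Ideal.zero_mem _, mem_I1 fun y hy => by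
    simp only [map_add, map_sub, map_neg, map_mul, eval_X, map_zero]
    linear_combination -qdd hy⟩

/-- The cubic part of the last equation. -/
noncomputable def F3 : A10 :=
  -(X (ix 7 0) * X (ix 8 7) * X (ix 9 8)) + X (ix 3 0) * X (ix 6 3) * X (ix 9 6)
    + (X (ix 3 0) * X (ix 5 3) * X (ix 9 5) + X (ix 3 0) * X (ix 4 3) * X (ix 9 4))
    + (X (ix 1 0) * X (ix 5 1) * X (ix 9 5) + X (ix 1 0) * X (ix 4 1) * X (ix 9 4))
    + X (ix 1 0) * X (ix 2 1) * X (ix 9 2)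

theorem F3_mem : F3 ∈ originIdeal (Low 10) ^ 3 := by
  unfold F3
  refine Ideal.add_mem _ (Ideal.add_mem _ (Ideal.add_mem _ (Ideal.add_mem _
    (Ideal.neg_mem_iff _ |>.2 (org3 _ _ _)) (org3 _ _ _))
    (Ideal.add_mem _ (org3 _ _ _) (org3 _ _ _))) (Ideal.add_mem _ (org3 _ _ _) (org3 _ _ _)))
    (org3 _ _ _)

theorem k_G : Init I1 2 (X (ix 6 0) * X (ix 9 6) + X (ix 3 0) * X (ix 9 3)) :=
  ⟨(hom2 _ _).add (hom2 _ _), -F3, Ideal.neg_mem_iff _ |>.2 F3_mem, mem_I1 fun y hy => by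
    unfold F3
    simp only [map_add, map_sub, map_neg, map_mul, eval_X, map_zero]
    linear_combination -qF hy⟩

/-- The quintics. -/
noncomputable def QQ (d e d' e' : Low 10) : A10 :=
  X (ix 6 3) * X (ix 1 0) * X (ix 9 6) * X d * X d' +
    X (ix 3 0) * X (ix 2 1) * X (ix 9 2) * X e * X e' + X d * X e' * F3

theorem hom3 (i j k : Low 10) : (X i * X j * X k : A10).IsHomogeneous 3 :=
  (hom2 i j).mul (isHomogeneous_X ℂ k)

theorem F3_hom : F3.IsHomogeneous 3 := by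
  unfold F3
  refine ((((hom3 _ _ _).neg.add (hom3 _ _ _)).add ((hom3 _ _ _).add (hom3 _ _ _))).add
    ((hom3 _ _ _).add (hom3 _ _ _))).add (hom3 _ _ _)

theorem QQ_hom (d e d' e' : Low 10) : (QQ d e d' e').IsHomogeneous 5 := by
  unfold QQ
  refine (((hom3 _ _ _).mul (isHomogeneous_X ℂ _)).mul (isHomogeneous_X ℂ _)).add
    (((hom3 _ _ _).mul (isHomogeneous_X ℂ _)).mul (isHomogeneous_X ℂ _)) |>.add
    ((hom2 _ _).mul F3_hom)

theorem k_Q (d e d' e' : Low 10)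
    (h1 : ∀ y ∈ tube v1 w1, y d * y (ix 9 3) + y e * y (ix 2 1) * y (ix 9 2) = 0)
    (h2 : ∀ y ∈ tube v1 w1, y (ix 6 0) * y e' + y (ix 6 3) * y (ix 1 0) * y d' = 0) :
    Init I1 5 (QQ d e d' e') :=
  ⟨QQ_hom _ _ _ _, 0, Ideal.zero_mem _, mem_I1 fun y hy => by
    unfold QQ F3
    simp only [map_add, map_sub, map_neg, map_mul, eval_X, map_zero]
    linear_combination y d * y e' * qF hy + y (ix 3 0) * y e' * h1 y hy
      + y (ix 9 6) * y d * h2 y hy⟩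

theorem k_Q11 : Init I1 5 (QQ (ix 5 1) (ix 5 3) (ix 5 1) (ix 5 3)) :=
  k_Q _ _ _ _ (fun _ h => qdh1 h) (fun _ h => qae1 h)
theorem k_Q12 : Init I1 5 (QQ (ix 5 1) (ix 5 3) (ix 4 1) (ix 4 3)) :=
  k_Q _ _ _ _ (fun _ h => qdh1 h) (fun _ h => qae2 h)
theorem k_Q22 : Init I1 5 (QQ (ix 4 1) (ix 4 3) (ix 4 1) (ix 4 3)) :=
  k_Q _ _ _ _ (fun _ h => qdh2 h) (fun _ h => qae2 h)

end Pool.Agent.W442.SN
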