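import Mathlib
import Pool.Agent.W442.SN.Up
import Pool.Agent.W442.SN.Mem
import Pool.Agent.W442.SV.Coef

open MvPolynomial Filter Topology

set_option linter.unusedSimpArgs false

namespace Pool.Agent.W442.SN

open Pool.Agent.W442.SV Pool.Agent.W308.SV

/-- Initial forms vanish at limit directions. -/
theorem arc_vanish {σ : Type} [Fintype σ] {f : MvPolynomial σ ℂ} {i : ℕ}
    (hf : f ∈ originIdeal σ ^ i) (q : ℂ → σ → ℂ) (hq : ContinuousAt q 0)
    (hp : ∀ᶠ ε in 𝓝[≠] (0 : ℂ), eval (ε • q ε) f = 0) :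
    eval (q 0) (homogeneousComponent i f) = 0 := by
  let R : ℂ → ℂ := fun ε => -(ε * ∑ d ∈ Finset.range (f.totalDegree + 1),
    if d < i + 1 then 0 else ε ^ (d - (i + 1)) * eval (q ε) (homogeneousComponent d f))
  have hR : ContinuousAt R 0 := by
    apply ContinuousAt.neg
    apply ContinuousAt.mul continuousAt_id
    apply tendsto_finsetSum
    intro d _
    split_ifs
    · exact continuousAt_const
    · apply ContinuousAt.mul
      · fun_prop
      · exact ((MvPolynomial.continuous_eval _).continuousAt).comp hq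
  have hL : ContinuousAt (fun ε => eval (q ε) (homogeneousComponent i f)) 0 :=
    ((MvPolynomial.continuous_eval _).continuousAt).comp hq
  have hR0 : R 0 = 0 := by simp [R]
  have heq : (fun ε => eval (q ε) (homogeneousComponent i f)) =ᶠ[𝓝[≠] (0 : ℂ)] R := by
    filter_upwards [hp, self_mem_nhdsWithin] with ε h1 h2
    have h2' : ε ≠ 0 := h2
    have h4 : eval (ε • q ε) f = ∑ d ∈ Finset.range (f.totalDegree + 1),
        ε ^ d * eval (q ε) (homogeneousComponent d f) := by
      conv_lhs => rw [← sum_homogeneousComponent f]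
      rw [map_sum]
      apply Finset.sum_congr rfl
      intro d _
      exact eval_smul_homog (homogeneousComponent_isHomogeneous d f) ε (q ε)
    have h5 : ∀ d, d < i → homogeneousComponent d f = 0 := by
      intro d hd
      ext s
      rw [coeff_homogeneousComponent, coeff_zero]
      split_ifs with hs
      · exact (mem_origin_pow i f).mp hf s (by omega)
      · rfl
    have h6 : eval (ε • q ε) f = ε ^ i * eval (q ε) (homogeneousComponent i f) +
        ε ^ (i + 1) * ∑ d ∈ Finset.range (f.totalDegree + 1),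
        if d < i + 1 then 0 else
          ε ^ (d - (i + 1)) * eval (q ε) (homogeneousComponent d f) := by
      rw [h4]
      have h7 : ∀ d ∈ Finset.range (f.totalDegree + 1),
          ε ^ d * eval (q ε) (homogeneousComponent d f) =
          (if d = i then ε ^ i * eval (q ε) (homogeneousComponent i f) else 0) +
          ε ^ (i + 1) * (if d < i + 1 then 0 else
          ε ^ (d - (i + 1)) * eval (q ε) (homogeneousComponent d f)) := by
        intro d _
        rcases lt_trichotomy d i with h | h | h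
        · rw [h5 d h, if_neg h.ne, if_pos (by omega)]
          simp
        · subst h
          rw [if_pos rfl, if_pos (by omega), mul_zero, add_zero]
        · rw [if_neg h.ne', if_neg (by omega), zero_add, ← mul_assoc, ← pow_add,
            Nat.add_sub_cancel' (by omega)]
      rw [Finset.sum_congr rfl h7, Finset.sum_add_distrib, ← Finset.mul_sum]
      congr 1
      rw [Finset.sum_ite_eq' (Finset.range (f.totalDegree + 1)) i]
      split_ifs with h8
      · rfl
      · have : homogeneousComponent i f = 0 := by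
          apply homogeneousComponent_eq_zero
          rw [Finset.mem_range] at h8
          omega
        rw [this, map_zero, mul_zero]
    rw [h6] at h1
    have h8 : ε ^ i * (eval (q ε) (homogeneousComponent i f) - R ε) = 0 := by
      simp only [R]
      linear_combination h1
    exact sub_eq_zero.mp ((mul_eq_zero.mp h8).resolve_left (pow_ne_zero _ h2'))
  have t1 : Tendsto (fun ε => eval (q ε) (homogeneousComponent i f)) (𝓝[≠] 0)
      (𝓝 (eval (q 0) (homogeneousComponent i f))) := hL.tendsto.mono_left nhdsWithin_le_nhds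
  have t2 : Tendsto R (𝓝[≠] 0) (𝓝 (R 0)) := hR.tendsto.mono_left nhdsWithin_le_nhds
  rw [hR0] at t2
  exact tendsto_nhds_unique (t1.congr' heq) t2

/-- The parametrization of the determinantal variety. -/
noncomputable def par (j : Low 10) : A10 :=
  if j = ix 6 0 then X (ix 6 3) * X (ix 1 0) * X (ix 6 0)
  else if j = ix 5 1 then -(X (ix 6 0) * X (ix 5 3))
  else if j = ix 4 1 then -(X (ix 6 0) * X (ix 4 3))
  else if j = ix 9 2 then X (ix 6 0) * X (ix 9 2)
  else if j = ix 9 3 then X (ix 2 1) * X (ix 9 2)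
  else X j

/-- The substitution of the parametrization. -/
noncomputable def Phi : A10 →ₐ[ℂ] A10 := aeval par

/-- The point with given parameters. -/
noncomputable def ppt (z : Low 10 → ℂ) (j : Low 10) : ℂ :=
  if j = ix 6 0 then z (ix 6 3) * z (ix 1 0) * z (ix 6 0)
  else if j = ix 5 1 then -(z (ix 6 0) * z (ix 5 3))
  else if j = ix 4 1 then -(z (ix 6 0) * z (ix 4 3))
  else if j = ix 9 2 then z (ix 6 0) * z (ix 9 2)
  else if j = ix 9 3 then z (ix 2 1) * z (ix 9 2)
  else z j

theorem eval_Phi (z : Low 10 → ℂ) (f : A10) : eval z (Phi f) = eval (ppt z) f := by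
  have h : (eval z).comp (Phi : A10 →+* A10) = eval (ppt z) := by
    apply MvPolynomial.ringHom_ext
    · intro r
      simp [Phi]
    · intro j
      simp only [Phi, RingHom.coe_comp, RingHom.coe_coe, Function.comp_apply, aeval_X, eval_X,
        par, ppt]
      split_ifs <;> simp
  exact RingHom.congr_fun h f

theorem n63 : ix 6 3 ≠ ix 6 0 ∧ ix 6 3 ≠ ix 9 2 ∧ ix 6 3 ≠ ix 5 1 ∧ ix 6 3 ≠ ix 4 1 ∧ ix 6 3 ≠ ix 9 3 ∧
    ix 6 3 ≠ ix 5 3 ∧ ix 6 3 ≠ ix 4 3 := by decide +kernel
theorem n10 : ix 1 0 ≠ ix 6 0 ∧ ix 1 0 ≠ ix 9 2 ∧ ix 1 0 ≠ ix 5 1 ∧ ix 1 0 ≠ ix 4 1 ∧ ix 1 0 ≠ ix 9 3 ∧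
    ix 1 0 ≠ ix 5 3 ∧ ix 1 0 ≠ ix 4 3 := by decide +kernel
theorem n21 : ix 2 1 ≠ ix 6 0 ∧ ix 2 1 ≠ ix 9 2 ∧ ix 2 1 ≠ ix 5 1 ∧ ix 2 1 ≠ ix 4 1 ∧ ix 2 1 ≠ ix 9 3 ∧
    ix 2 1 ≠ ix 5 3 ∧ ix 2 1 ≠ ix 4 3 := by decide +kernel
theorem n53 : ix 5 3 ≠ ix 6 0 ∧ ix 5 3 ≠ ix 9 2 ∧ ix 5 3 ≠ ix 5 1 ∧ ix 5 3 ≠ ix 4 1 ∧ ix 5 3 ≠ ix 9 3 ∧
    ix 5 3 ≠ ix 4 3 := by decide +kernel
theorem n43 : ix 4 3 ≠ ix 6 0 ∧ ix 4 3 ≠ ix 9 2 ∧ ix 4 3 ≠ ix 5 1 ∧ ix 4 3 ≠ ix 4 1 ∧ ix 4 3 ≠ ix 9 3 ∧
    ix 4 3 ≠ ix 5 3 := by decide +kernel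
theorem n92 : ix 9 2 ≠ ix 6 0 ∧ ix 9 2 ≠ ix 5 1 ∧ ix 9 2 ≠ ix 4 1 ∧ ix 9 2 ≠ ix 9 3 ∧ ix 9 2 ≠ ix 5 3 ∧
    ix 9 2 ≠ ix 4 3 := by decide +kernel
theorem n60 : ix 6 0 ≠ ix 9 2 ∧ ix 6 0 ≠ ix 5 1 ∧ ix 6 0 ≠ ix 4 1 ∧ ix 6 0 ≠ ix 9 3 ∧ ix 6 0 ≠ ix 5 3 ∧
    ix 6 0 ≠ ix 4 3 := by decide +kernel
theorem n51 : ix 5 1 ≠ ix 6 0 ∧ ix 5 1 ≠ ix 9 2 ∧ ix 5 1 ≠ ix 4 1 ∧ ix 5 1 ≠ ix 9 3 ∧ ix 5 1 ≠ ix 5 3 ∧
    ix 5 1 ≠ ix 4 3 := by decide +kernel
theorem n41 : ix 4 1 ≠ ix 6 0 ∧ ix 4 1 ≠ ix 9 2 ∧ ix 4 1 ≠ ix 5 1 ∧ ix 4 1 ≠ ix 9 3 ∧ ix 4 1 ≠ ix 5 3 ∧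
    ix 4 1 ≠ ix 4 3 := by decide +kernel
theorem n93 : ix 9 3 ≠ ix 6 0 ∧ ix 9 3 ≠ ix 9 2 ∧ ix 9 3 ≠ ix 5 1 ∧ ix 9 3 ≠ ix 4 1 ∧ ix 9 3 ≠ ix 5 3 ∧
    ix 9 3 ≠ ix 4 3 := by decide +kernel

section arcs
variable {ψ : A10} {k : ℕ}

/-- The arc for the component where the coordinates `a, d` vanish. -/
noncomputable def q1 (y : Low 10 → ℂ) (ε : ℂ) (j : Low 10) : ℂ :=
  if j = ix 6 0 then ε ^ 2 * (y (ix 6 3) * y (ix 1 0) * y (ix 2 1) * y (ix 9 2) / y (ix 9 3))
  else if j = ix 5 1 then -(ε * (y (ix 5 3) * y (ix 2 1) * y (ix 9 2) / y (ix 9 3)))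
  else if j = ix 4 1 then -(ε * (y (ix 4 3) * y (ix 2 1) * y (ix 9 2) / y (ix 9 3)))
  else y j

/-- Its parameters. -/
noncomputable def z1 (y : Low 10 → ℂ) (ε : ℂ) (j : Low 10) : ℂ :=
  if j = ix 6 0 then ε * (y (ix 2 1) * y (ix 9 2) / y (ix 9 3))
  else if j = ix 9 2 then y (ix 9 3) / y (ix 2 1)
  else ε * y j

theorem arc1 (hψ : Phi ψ = 0) (hk : ψ ∈ originIdeal (Low 10) ^ k) (y : Low 10 → ℂ)
    (h1 : y (ix 6 0) = 0) (h2 : y (ix 5 1) = 0) (h3 : y (ix 4 1) = 0) (h4 : y (ix 2 1) ≠ 0)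
    (h5 : y (ix 9 3) ≠ 0) : eval y (homogeneousComponent k ψ) = 0 := by
  have h0 : q1 y 0 = y := by
    funext j
    unfold q1
    split_ifs with c0 c1 c2
    · rw [c0, h1]; ring
    · rw [c1, h2]; ring
    · rw [c2, h3]; ring
    · rfl
  have h := arc_vanish hk (q1 y) ?_ ?_
  · rwa [h0] at h
  · apply continuousAt_pi.mpr
    intro j
    unfold q1
    split_ifs <;> fun_prop
  · filter_upwards [self_mem_nhdsWithin] with ε hε
    have hε' : ε ≠ 0 := hε
    have e : ε • q1 y ε = ppt (z1 y ε) := by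
      funext j
      rw [Pi.smul_apply, smul_eq_mul]
      by_cases e60 : j = ix 6 0
      · subst e60
        simp only [q1, z1, ppt, n63, n10, n21, n53, n43, n92, n60, n51, n41, n93, if_true, if_false, ne_eq, not_false_eq_true, ite_true, ite_false]
        ring
      by_cases e51 : j = ix 5 1
      · subst e51
        simp only [q1, z1, ppt, n63, n10, n21, n53, n43, n92, n60, n51, n41, n93, if_true, if_false, ne_eq, not_false_eq_true, ite_true, ite_false]
        ring
      by_cases e41 : j = ix 4 1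
      · subst e41
        simp only [q1, z1, ppt, n63, n10, n21, n53, n43, n92, n60, n51, n41, n93, if_true, if_false, ne_eq, not_false_eq_true, ite_true, ite_false]
        ring
      by_cases e92 : j = ix 9 2
      · subst e92
        simp only [q1, z1, ppt, n63, n10, n21, n53, n43, n92, n60, n51, n41, n93, if_true, if_false, ne_eq, not_false_eq_true, ite_true, ite_false]
        field_simp
      by_cases e93 : j = ix 9 3
      · subst e93
        simp only [q1, z1, ppt, n63, n10, n21, n53, n43, n92, n60, n51, n41, n93, if_true, if_false, ne_eq, not_false_eq_true, ite_true, ite_false]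
        field_simp
      by_cases e53 : j = ix 5 3
      · subst e53
        simp only [q1, z1, ppt, n63, n10, n21, n53, n43, n92, n60, n51, n41, n93, if_true, if_false, ne_eq, not_false_eq_true, ite_true, ite_false]
      by_cases e43 : j = ix 4 3
      · subst e43
        simp only [q1, z1, ppt, n63, n10, n21, n53, n43, n92, n60, n51, n41, n93, if_true, if_false, ne_eq, not_false_eq_true, ite_true, ite_false]
      simp only [q1, z1, ppt, e60, e51, e41, e92, e93, e53, e43, if_false]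
    rw [e, ← eval_Phi, hψ, map_zero]

/-- The arc for the component where the coordinates `e, h` vanish. -/
noncomputable def q2 (y : Low 10 → ℂ) (ε : ℂ) (j : Low 10) : ℂ :=
  if j = ix 9 3 then ε ^ 2 * (y (ix 2 1) * y (ix 9 2) * y (ix 6 3) * y (ix 1 0) / y (ix 6 0))
  else if j = ix 5 3 then -(ε * (y (ix 5 1) * y (ix 6 3) * y (ix 1 0) / y (ix 6 0)))
  else if j = ix 4 3 then -(ε * (y (ix 4 1) * y (ix 6 3) * y (ix 1 0) / y (ix 6 0)))
  else y j

/-- Its parameters. -/
noncomputable def z2 (y : Low 10 → ℂ) (ε : ℂ) (j : Low 10) : ℂ :=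
  if j = ix 6 0 then y (ix 6 0) / (ε * (y (ix 6 3) * y (ix 1 0)))
  else if j = ix 9 2 then ε ^ 2 * (y (ix 9 2) * y (ix 6 3) * y (ix 1 0) / y (ix 6 0))
  else if j = ix 5 3 then -(ε ^ 2 * (y (ix 5 1) * y (ix 6 3) * y (ix 1 0) / y (ix 6 0)))
  else if j = ix 4 3 then -(ε ^ 2 * (y (ix 4 1) * y (ix 6 3) * y (ix 1 0) / y (ix 6 0)))
  else ε * y j

theorem arc2 (hψ : Phi ψ = 0) (hk : ψ ∈ originIdeal (Low 10) ^ k) (y : Low 10 → ℂ)
    (h1 : y (ix 9 3) = 0) (h2 : y (ix 5 3) = 0) (h3 : y (ix 4 3) = 0) (h4 : y (ix 6 0) ≠ 0)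
    (h5 : y (ix 6 3) ≠ 0) (h6 : y (ix 1 0) ≠ 0) : eval y (homogeneousComponent k ψ) = 0 := by
  have h0 : q2 y 0 = y := by
    funext j
    unfold q2
    split_ifs with c0 c1 c2
    · rw [c0, h1]; ring
    · rw [c1, h2]; ring
    · rw [c2, h3]; ring
    · rfl
  have h := arc_vanish hk (q2 y) ?_ ?_
  · rwa [h0] at h
  · apply continuousAt_pi.mpr
    intro j
    unfold q2
    split_ifs <;> fun_prop
  · filter_upwards [self_mem_nhdsWithin] with ε hε
    have hε' : ε ≠ 0 := hε
    have e : ε • q2 y ε = ppt (z2 y ε) := by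
      funext j
      rw [Pi.smul_apply, smul_eq_mul]
      by_cases e60 : j = ix 6 0
      · subst e60
        simp only [q2, z2, ppt, n63, n10, n21, n53, n43, n92, n60, n51, n41, n93, if_true, if_false, ne_eq, not_false_eq_true, ite_true, ite_false]
        field_simp
      by_cases e51 : j = ix 5 1
      · subst e51
        simp only [q2, z2, ppt, n63, n10, n21, n53, n43, n92, n60, n51, n41, n93, if_true, if_false, ne_eq, not_false_eq_true, ite_true, ite_false]
        field_simp
      by_cases e41 : j = ix 4 1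
      · subst e41
        simp only [q2, z2, ppt, n63, n10, n21, n53, n43, n92, n60, n51, n41, n93, if_true, if_false, ne_eq, not_false_eq_true, ite_true, ite_false]
        field_simp
      by_cases e92 : j = ix 9 2
      · subst e92
        simp only [q2, z2, ppt, n63, n10, n21, n53, n43, n92, n60, n51, n41, n93, if_true, if_false, ne_eq, not_false_eq_true, ite_true, ite_false]
        field_simp
      by_cases e93 : j = ix 9 3
      · subst e93
        simp only [q2, z2, ppt, n63, n10, n21, n53, n43, n92, n60, n51, n41, n93, if_true, if_false, ne_eq, not_false_eq_true, ite_true, ite_false]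
        ring
      by_cases e53 : j = ix 5 3
      · subst e53
        simp only [q2, z2, ppt, n63, n10, n21, n53, n43, n92, n60, n51, n41, n93, if_true, if_false, ne_eq, not_false_eq_true, ite_true, ite_false]
        ring
      by_cases e43 : j = ix 4 3
      · subst e43
        simp only [q2, z2, ppt, n63, n10, n21, n53, n43, n92, n60, n51, n41, n93, if_true, if_false, ne_eq, not_false_eq_true, ite_true, ite_false]
        ring
      simp only [q2, z2, ppt, e60, e51, e41, e92, e93, e53, e43, if_false]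
    rw [e, ← eval_Phi, hψ, map_zero]

/-- The arc for the component where the coordinates `a, h` vanish. -/
noncomputable def q3 (y : Low 10 → ℂ) (α β ε : ℂ) (j : Low 10) : ℂ :=
  if j = ix 6 0 then -(ε * (y (ix 6 3) * y (ix 1 0) * (α / β)))
  else if j = ix 9 3 then -(ε * (y (ix 2 1) * y (ix 9 2) * (β / α)))
  else y j

/-- Its parameters. -/
noncomputable def z3 (y : Low 10 → ℂ) (α β ε : ℂ) (j : Low 10) : ℂ :=
  if j = ix 6 0 then -(α / β)
  else if j = ix 9 2 then -(ε * (y (ix 9 2) * (β / α)))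
  else ε * y j

theorem arc3 (hψ : Phi ψ = 0) (hk : ψ ∈ originIdeal (Low 10) ^ k) (y : Low 10 → ℂ)
    (α β : ℂ)
    (h1 : y (ix 6 0) = 0) (h2 : y (ix 9 3) = 0) (h3 : α * y (ix 5 3) = β * y (ix 5 1))
    (h3m : α * y (ix 4 3) = β * y (ix 4 1)) (h4 : α ≠ 0) (h5 : β ≠ 0) : eval y (homogeneousComponent k ψ) = 0 := by
  have h0 : q3 y α β 0 = y := by
    funext j
    unfold q3
    split_ifs with c0 c1
    · rw [c0, h1]; ring
    · rw [c1, h2]; ring
    · rfl
  have h := arc_vanish hk (q3 y α β) ?_ ?_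
  · rwa [h0] at h
  · apply continuousAt_pi.mpr
    intro j
    unfold q3
    split_ifs <;> fun_prop
  · filter_upwards [self_mem_nhdsWithin] with ε hε
    have hε' : ε ≠ 0 := hε
    have e : ε • q3 y α β ε = ppt (z3 y α β ε) := by
      funext j
      rw [Pi.smul_apply, smul_eq_mul]
      by_cases e60 : j = ix 6 0
      · subst e60
        simp only [q3, z3, ppt, n63, n10, n21, n53, n43, n92, n60, n51, n41, n93, if_true, if_false, ne_eq, not_false_eq_true, ite_true, ite_false]
        ring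
      by_cases e51 : j = ix 5 1
      · subst e51
        simp only [q3, z3, ppt, n63, n10, n21, n53, n43, n92, n60, n51, n41, n93, if_true, if_false, ne_eq, not_false_eq_true, ite_true, ite_false]
        field_simp
        linear_combination -h3
      by_cases e41 : j = ix 4 1
      · subst e41
        simp only [q3, z3, ppt, n63, n10, n21, n53, n43, n92, n60, n51, n41, n93, if_true, if_false, ne_eq, not_false_eq_true, ite_true, ite_false]
        field_simp
        linear_combination -h3m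
      by_cases e92 : j = ix 9 2
      · subst e92
        simp only [q3, z3, ppt, n63, n10, n21, n53, n43, n92, n60, n51, n41, n93, if_true, if_false, ne_eq, not_false_eq_true, ite_true, ite_false]
        field_simp
      by_cases e93 : j = ix 9 3
      · subst e93
        simp only [q3, z3, ppt, n63, n10, n21, n53, n43, n92, n60, n51, n41, n93, if_true, if_false, ne_eq, not_false_eq_true, ite_true, ite_false]
        ring
      by_cases e53 : j = ix 5 3
      · subst e53
        simp only [q3, z3, ppt, n63, n10, n21, n53, n43, n92, n60, n51, n41, n93, if_true, if_false, ne_eq, not_false_eq_true, ite_true, ite_false]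
      by_cases e43 : j = ix 4 3
      · subst e43
        simp only [q3, z3, ppt, n63, n10, n21, n53, n43, n92, n60, n51, n41, n93, if_true, if_false, ne_eq, not_false_eq_true, ite_true, ite_false]
      simp only [q3, z3, ppt, e60, e51, e41, e92, e93, e53, e43, if_false]
    rw [e, ← eval_Phi, hψ, map_zero]

end arcs

end Pool.Agent.W442.SN
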