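import Mathlib
import Pool.Agent.W442.SN.Up
import Pool.Agent.W442.SV.Cnt

open MvPolynomial Finset

namespace Pool.Agent.W442.SN

open Pool.Agent.W442.SV

/-- The variables that are initial forms. -/
def Lin : Finset (Low 10) := {ix 5 0, ix 4 0, ix 2 0, ix 9 0, ix 9 1, ix 8 0, ix 9 7}

def S0 : Finset (Low 10) := univ \ ({ix 6 0, ix 5 1, ix 4 1, ix 3 0} ∪ Lin)
def S1 : Finset (Low 10) := univ \ ({ix 6 0, ix 5 1, ix 4 1, ix 3 0, ix 9 3} ∪ Lin)
def S2 : Finset (Low 10) := univ \ ({ix 6 0, ix 5 1, ix 4 1, ix 5 3, ix 4 3, ix 9 3} ∪ Lin)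
def S3 : Finset (Low 10) := univ \ ({ix 5 3, ix 4 3, ix 9 3, ix 9 6} ∪ Lin)
def S4 : Finset (Low 10) := univ \ ({ix 6 0, ix 9 3, ix 5 3} ∪ Lin)
def S5 : Finset (Low 10) := univ \ ({ix 6 0, ix 9 3, ix 4 1} ∪ Lin)

theorem card_S0 : S0.card = 34 := by decide +kernel
theorem card_S1 : S1.card = 33 := by decide +kernel
theorem card_S2 : S2.card = 32 := by decide +kernel
theorem card_S3 : S3.card = 34 := by decide +kernel
theorem card_S4 : S4.card = 35 := by decide +kernel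
theorem card_S5 : S5.card = 35 := by decide +kernel

theorem notin_S0 : ∀ j : Low 10, j ∉ S0 ↔
    (j = ix 6 0 ∨ j = ix 5 1 ∨ j = ix 4 1 ∨ j = ix 3 0) ∨ j ∈ Lin := by decide +kernel
theorem notin_S1 : ∀ j : Low 10, j ∉ S1 ↔
    (j = ix 6 0 ∨ j = ix 5 1 ∨ j = ix 4 1 ∨ j = ix 3 0 ∨ j = ix 9 3) ∨ j ∈ Lin := by
  decide +kernel
theorem notin_S2 : ∀ j : Low 10, j ∉ S2 ↔
    (j = ix 6 0 ∨ j = ix 5 1 ∨ j = ix 4 1 ∨ j = ix 5 3 ∨ j = ix 4 3 ∨ j = ix 9 3) ∨ j ∈ Lin := by
  decide +kernel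
theorem notin_S3 : ∀ j : Low 10, j ∉ S3 ↔
    (j = ix 5 3 ∨ j = ix 4 3 ∨ j = ix 9 3 ∨ j = ix 9 6) ∨ j ∈ Lin := by decide +kernel
theorem notin_S4 : ∀ j : Low 10, j ∉ S4 ↔
    (j = ix 6 0 ∨ j = ix 9 3 ∨ j = ix 5 3) ∨ j ∈ Lin := by decide +kernel
theorem notin_S5 : ∀ j : Low 10, j ∉ S5 ↔
    (j = ix 6 0 ∨ j = ix 9 3 ∨ j = ix 4 1) ∨ j ∈ Lin := by decide +kernel

/-- The monomials `x^(b + u)` with `b` of degree `i` supported on `S`. -/
noncomputable def cell (u : Low 10 →₀ ℕ) (S : Finset (Low 10)) (i : ℕ) :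
    Finset (Low 10 →₀ ℕ) :=
  (finsuppAntidiag S i).image (fun b => b + u)

theorem mem_cell (u : Low 10 →₀ ℕ) (S : Finset (Low 10)) (i : ℕ) (s : Low 10 →₀ ℕ) :
    s ∈ cell u S i ↔ s.degree = i + u.degree ∧ u ≤ s ∧ ∀ j, j ∉ S → s j = u j := by
  unfold cell
  rw [Finset.mem_image]
  constructor
  · rintro ⟨b, hb, rfl⟩
    rw [mem_anti] at hb
    refine ⟨by rw [map_add, hb.1], le_add_self, fun j hj => ?_⟩
    rw [Finsupp.add_apply, hb.2 j hj, zero_add]
  · rintro ⟨h1, h2, h3⟩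
    obtain ⟨b, rfl⟩ := exists_add_of_le h2
    refine ⟨b, ?_, add_comm _ _⟩
    rw [mem_anti]
    refine ⟨?_, fun j hj => ?_⟩
    · rw [map_add] at h1
      omega
    · have := h3 j hj
      rw [Finsupp.add_apply] at this
      omega

theorem card_cell (u : Low 10 →₀ ℕ) (S : Finset (Low 10)) (i : ℕ) :
    (cell u S i).card = (S.card + i - 1).choose i := by
  unfold cell
  rw [Finset.card_image_of_injective _ (add_left_injective _),
    card_finsuppAntidiag_nat_eq_choose]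

/-- No variable of `Lin` occurs. -/
def L0 (s : Low 10 →₀ ℕ) : Prop := ∀ j ∈ Lin, s j = 0

theorem ne_lin : ix 6 0 ∉ Lin ∧ ix 9 3 ∉ Lin ∧ ix 5 3 ∉ Lin ∧ ix 4 3 ∉ Lin ∧ ix 5 1 ∉ Lin ∧
    ix 4 1 ∉ Lin ∧ ix 9 6 ∉ Lin ∧ ix 3 0 ∉ Lin := by decide +kernel

theorem single_lin {j k : Low 10} (hj : j ∉ Lin) (hk : k ∈ Lin) (c : ℕ) :
    Finsupp.single j c k = 0 := by
  rw [Finsupp.single_apply, if_neg]
  rintro rfl
  exact hj hk

theorem single_off {j k : Low 10} (h : j ≠ k) (c : ℕ) : Finsupp.single j c k = 0 := by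
  rw [Finsupp.single_apply, if_neg h]

theorem mem_c0 (i : ℕ) (s : Low 10 →₀ ℕ) : s ∈ cell (Finsupp.single (ix 9 3) 2) S0 i ↔
    s.degree = i + 2 ∧ L0 s ∧ 2 ≤ s (ix 9 3) ∧ s (ix 6 0) = 0 ∧ s (ix 5 1) = 0 ∧
      s (ix 4 1) = 0 ∧ s (ix 3 0) = 0 := by
  rw [mem_cell, Finsupp.degree_single, Finsupp.single_le_iff]
  constructor
  · rintro ⟨h1, h2, h3⟩
    refine ⟨h1, fun j hj => ?_, h2, ?_, ?_, ?_, ?_⟩
    · rw [h3 j ((notin_S0 j).mpr (Or.inr hj)), single_lin ne_lin.2.1 hj]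
    · rw [h3 _ (by decide +kernel), single_off (by decide +kernel)]
    · rw [h3 _ (by decide +kernel), single_off (by decide +kernel)]
    · rw [h3 _ (by decide +kernel), single_off (by decide +kernel)]
    · rw [h3 _ (by decide +kernel), single_off (by decide +kernel)]
  · rintro ⟨h1, h2, h3, h4, h5, h6, h7⟩
    refine ⟨h1, h3, fun j hj => ?_⟩
    rcases (notin_S0 j).mp hj with (rfl | rfl | rfl | rfl) | h
    · rw [h4, single_off (by decide +kernel)]
    · rw [h5, single_off (by decide +kernel)]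
    · rw [h6, single_off (by decide +kernel)]
    · rw [h7, single_off (by decide +kernel)]
    · rw [h2 j h, single_lin ne_lin.2.1 h]

theorem mem_c1 (i : ℕ) (s : Low 10 →₀ ℕ) : s ∈ cell (Finsupp.single (ix 9 3) 1) S1 i ↔
    s.degree = i + 1 ∧ L0 s ∧ s (ix 9 3) = 1 ∧ s (ix 6 0) = 0 ∧ s (ix 5 1) = 0 ∧
      s (ix 4 1) = 0 ∧ s (ix 3 0) = 0 := by
  rw [mem_cell, Finsupp.degree_single, Finsupp.single_le_iff]
  constructor
  · rintro ⟨h1, h2, h3⟩
    refine ⟨h1, fun j hj => ?_, ?_, ?_, ?_, ?_, ?_⟩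
    · rw [h3 j ((notin_S1 j).mpr (Or.inr hj)), single_lin ne_lin.2.1 hj]
    · rw [h3 _ (by decide +kernel), Finsupp.single_eq_same]
    · rw [h3 _ (by decide +kernel), single_off (by decide +kernel)]
    · rw [h3 _ (by decide +kernel), single_off (by decide +kernel)]
    · rw [h3 _ (by decide +kernel), single_off (by decide +kernel)]
    · rw [h3 _ (by decide +kernel), single_off (by decide +kernel)]
  · rintro ⟨h1, h2, h3, h4, h5, h6, h7⟩
    refine ⟨h1, h3.ge, fun j hj => ?_⟩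
    rcases (notin_S1 j).mp hj with (rfl | rfl | rfl | rfl | rfl) | h
    · rw [h4, single_off (by decide +kernel)]
    · rw [h5, single_off (by decide +kernel)]
    · rw [h6, single_off (by decide +kernel)]
    · rw [h7, single_off (by decide +kernel)]
    · rw [h3, Finsupp.single_eq_same]
    · rw [h2 j h, single_lin ne_lin.2.1 h]

theorem mem_c2 (i : ℕ) (s : Low 10 →₀ ℕ) :
    s ∈ cell (Finsupp.single (ix 9 3) 1 + Finsupp.single (ix 3 0) 1) S2 i ↔
    s.degree = i + 2 ∧ L0 s ∧ s (ix 9 3) = 1 ∧ 1 ≤ s (ix 3 0) ∧ s (ix 6 0) = 0 ∧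
      s (ix 5 1) = 0 ∧ s (ix 4 1) = 0 ∧ s (ix 5 3) = 0 ∧ s (ix 4 3) = 0 := by
  rw [mem_cell, map_add, Finsupp.degree_single, Finsupp.degree_single]
  constructor
  · rintro ⟨h1, h2, h3⟩
    refine ⟨h1, fun j hj => ?_, ?_, ?_, ?_, ?_, ?_, ?_, ?_⟩
    · rw [h3 j ((notin_S2 j).mpr (Or.inr hj)), Finsupp.add_apply, single_lin ne_lin.2.1 hj,
        single_lin ne_lin.2.2.2.2.2.2.2 hj]
    · rw [h3 _ (by decide +kernel), Finsupp.add_apply, Finsupp.single_eq_same,
        single_off (by decide +kernel)]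
    · have := h2 (ix 3 0)
      rwa [Finsupp.add_apply, Finsupp.single_eq_same, single_off (by decide +kernel),
        zero_add] at this
    all_goals
      rw [h3 _ (by decide +kernel), Finsupp.add_apply, single_off (by decide +kernel),
        single_off (by decide +kernel)]
  · rintro ⟨h1, h2, h3, h4, h5, h6, h7, h8, h9⟩
    refine ⟨h1, fun j => ?_, fun j hj => ?_⟩
    · rw [Finsupp.add_apply]
      by_cases ha : ix 9 3 = j
      · rw [← ha, Finsupp.single_eq_same, single_off (by decide +kernel), h3]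
      · by_cases hb : ix 3 0 = j
        · rw [← hb, Finsupp.single_eq_same, single_off (by decide +kernel), zero_add]
          exact h4
        · rw [single_off ha, single_off hb]
          exact Nat.zero_le _
    · rw [Finsupp.add_apply]
      rcases (notin_S2 j).mp hj with (rfl | rfl | rfl | rfl | rfl | rfl) | h
      · rw [h5, single_off (by decide +kernel), single_off (by decide +kernel)]
      · rw [h6, single_off (by decide +kernel), single_off (by decide +kernel)]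
      · rw [h7, single_off (by decide +kernel), single_off (by decide +kernel)]
      · rw [h8, single_off (by decide +kernel), single_off (by decide +kernel)]
      · rw [h9, single_off (by decide +kernel), single_off (by decide +kernel)]
      · rw [h3, Finsupp.single_eq_same, single_off (by decide +kernel)]
      · rw [h2 j h, single_lin ne_lin.2.1 h, single_lin ne_lin.2.2.2.2.2.2.2 h]

theorem mem_c3 (i : ℕ) (s : Low 10 →₀ ℕ) : s ∈ cell (Finsupp.single (ix 6 0) 1) S3 i ↔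
    s.degree = i + 1 ∧ L0 s ∧ 1 ≤ s (ix 6 0) ∧ s (ix 5 3) = 0 ∧ s (ix 4 3) = 0 ∧
      s (ix 9 3) = 0 ∧ s (ix 9 6) = 0 := by
  rw [mem_cell, Finsupp.degree_single, Finsupp.single_le_iff]
  constructor
  · rintro ⟨h1, h2, h3⟩
    refine ⟨h1, fun j hj => ?_, h2, ?_, ?_, ?_, ?_⟩
    · rw [h3 j ((notin_S3 j).mpr (Or.inr hj)), single_lin ne_lin.1 hj]
    all_goals
      rw [h3 _ (by decide +kernel), single_off (by decide +kernel)]
  · rintro ⟨h1, h2, h3, h4, h5, h6, h7⟩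
    refine ⟨h1, h3, fun j hj => ?_⟩
    rcases (notin_S3 j).mp hj with (rfl | rfl | rfl | rfl) | h
    · rw [h4, single_off (by decide +kernel)]
    · rw [h5, single_off (by decide +kernel)]
    · rw [h6, single_off (by decide +kernel)]
    · rw [h7, single_off (by decide +kernel)]
    · rw [h2 j h, single_lin ne_lin.1 h]

theorem mem_c4 (i : ℕ) (s : Low 10 →₀ ℕ) : s ∈ cell 0 S4 i ↔
    s.degree = i ∧ L0 s ∧ s (ix 6 0) = 0 ∧ s (ix 9 3) = 0 ∧ s (ix 5 3) = 0 := by
  rw [mem_cell, map_zero, add_zero]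
  constructor
  · rintro ⟨h1, h2, h3⟩
    refine ⟨h1, fun j hj => h3 j ((notin_S4 j).mpr (Or.inr hj)), h3 _ (by decide +kernel),
      h3 _ (by decide +kernel), h3 _ (by decide +kernel)⟩
  · rintro ⟨h1, h2, h3, h4, h5⟩
    refine ⟨h1, fun j => Nat.zero_le _, fun j hj => ?_⟩
    rcases (notin_S4 j).mp hj with (rfl | rfl | rfl) | h
    exacts [h3, h4, h5, h2 j h]

theorem mem_c5 (i : ℕ) (s : Low 10 →₀ ℕ) : s ∈ cell (Finsupp.single (ix 5 3) 1) S5 i ↔
    s.degree = i + 1 ∧ L0 s ∧ 1 ≤ s (ix 5 3) ∧ s (ix 6 0) = 0 ∧ s (ix 9 3) = 0 ∧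
      s (ix 4 1) = 0 := by
  rw [mem_cell, Finsupp.degree_single, Finsupp.single_le_iff]
  constructor
  · rintro ⟨h1, h2, h3⟩
    refine ⟨h1, fun j hj => ?_, h2, ?_, ?_, ?_⟩
    · rw [h3 j ((notin_S5 j).mpr (Or.inr hj)), single_lin ne_lin.2.2.1 hj]
    all_goals
      rw [h3 _ (by decide +kernel), single_off (by decide +kernel)]
  · rintro ⟨h1, h2, h3, h4, h5, h6⟩
    refine ⟨h1, h3, fun j hj => ?_⟩
    rcases (notin_S5 j).mp hj with (rfl | rfl | rfl) | h
    · rw [h4, single_off (by decide +kernel)]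
    · rw [h5, single_off (by decide +kernel)]
    · rw [h6, single_off (by decide +kernel)]
    · rw [h2 j h, single_lin ne_lin.2.2.1 h]

/-- The conditions on the exponents of a standard monomial. -/
def Good (s : Low 10 →₀ ℕ) : Prop :=
  L0 s ∧ (s (ix 6 0) = 0 ∨ s (ix 5 3) = 0) ∧ (s (ix 6 0) = 0 ∨ s (ix 4 3) = 0) ∧
    (s (ix 6 0) = 0 ∨ s (ix 9 3) = 0) ∧ (s (ix 5 1) = 0 ∨ s (ix 9 3) = 0) ∧
    (s (ix 4 1) = 0 ∨ s (ix 9 3) = 0) ∧ (s (ix 4 1) = 0 ∨ s (ix 5 3) = 0) ∧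
    (s (ix 6 0) = 0 ∨ s (ix 9 6) = 0) ∧ (s (ix 3 0) = 0 ∨ s (ix 9 3) = 0 ∨ s (ix 5 3) = 0) ∧
    (s (ix 3 0) = 0 ∨ s (ix 9 3) = 0 ∨ s (ix 4 3) = 0) ∧ (s (ix 3 0) = 0 ∨ s (ix 9 3) ≤ 1)

/-- The standard monomials of a given degree. -/
noncomputable def N1 : ℕ → Finset (Low 10 →₀ ℕ)
  | 0 => cell 0 S4 0
  | 1 => cell (Finsupp.single (ix 9 3) 1) S1 0 ∪ (cell (Finsupp.single (ix 6 0) 1) S3 0 ∪
      (cell 0 S4 1 ∪ cell (Finsupp.single (ix 5 3) 1) S5 0))
  | i + 2 => cell (Finsupp.single (ix 9 3) 2) S0 i ∪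
      (cell (Finsupp.single (ix 9 3) 1) S1 (i + 1) ∪
      (cell (Finsupp.single (ix 9 3) 1 + Finsupp.single (ix 3 0) 1) S2 i ∪
      (cell (Finsupp.single (ix 6 0) 1) S3 (i + 1) ∪
      (cell 0 S4 (i + 2) ∪ cell (Finsupp.single (ix 5 3) 1) S5 (i + 1)))))

theorem two_le_degree {s : Low 10 →₀ ℕ} {i j : Low 10} (hij : i ≠ j) :
    s i + s j ≤ s.degree := by
  rw [Finsupp.degree_eq_sum]
  rw [← Finset.sum_pair hij]
  exact Finset.sum_le_sum_of_subset (Finset.subset_univ _)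

theorem one_le_degree {s : Low 10 →₀ ℕ} (i : Low 10) : s i ≤ s.degree := by
  rw [Finsupp.degree_eq_sum]
  exact Finset.single_le_sum (f := fun i => s i) (fun _ _ => Nat.zero_le _) (Finset.mem_univ i)

theorem mem_N1 (i : ℕ) (s : Low 10 →₀ ℕ) : s ∈ N1 i ↔ s.degree = i ∧ Good s := by
  have d1 := one_le_degree (s := s) (ix 6 0)
  have d2 := one_le_degree (s := s) (ix 9 3)
  have d3 := one_le_degree (s := s) (ix 5 3)
  have d4 := two_le_degree (s := s) (i := ix 9 3) (j := ix 3 0) (by decide +kernel)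
  match i with
  | 0 =>
    rw [N1, mem_c4]
    unfold Good
    constructor
    · rintro ⟨h1, h2, h3⟩
      refine ⟨h1, h2, ?_⟩
      omega
    · rintro ⟨h1, h2, h3⟩
      refine ⟨h1, h2, ?_⟩
      omega
  | 1 =>
    rw [N1, mem_union, mem_union, mem_union, mem_c1, mem_c3, mem_c4, mem_c5]
    unfold Good
    constructor
    · rintro (⟨h1, h2, h3⟩ | ⟨h1, h2, h3⟩ | ⟨h1, h2, h3⟩ | ⟨h1, h2, h3⟩)
      all_goals
        refine ⟨h1, h2, ?_⟩
        omega
    · rintro ⟨h1, h2, h3⟩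
      simp only [h2, true_and]
      omega
  | i + 2 =>
    rw [N1, mem_union, mem_union, mem_union, mem_union, mem_union, mem_c0, mem_c1, mem_c2,
      mem_c3, mem_c4, mem_c5]
    unfold Good
    constructor
    · rintro (⟨h1, h2, h3⟩ | ⟨h1, h2, h3⟩ | ⟨h1, h2, h3⟩ | ⟨h1, h2, h3⟩ | ⟨h1, h2, h3⟩ |
        ⟨h1, h2, h3⟩)
      all_goals
        refine ⟨h1, h2, ?_⟩
        omega
    · rintro ⟨h1, h2, g1, g2, g3, g4, g5, g6, g7, g8, g9, g10⟩
      by_cases ha : s (ix 6 0) = 0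
      · by_cases hh : s (ix 9 3) = 0
        · by_cases he : s (ix 5 3) = 0
          · exact Or.inr (Or.inr (Or.inr (Or.inr (Or.inl ⟨h1, h2, ha, hh, he⟩))))
          · exact Or.inr (Or.inr (Or.inr (Or.inr (Or.inr ⟨h1, h2, Nat.one_le_iff_ne_zero.mpr he,
              ha, hh, g6.resolve_right he⟩))))
        · have k1 := g4.resolve_right hh
          have k2 := g5.resolve_right hh
          by_cases hr : s (ix 3 0) = 0
          · by_cases h2' : 2 ≤ s (ix 9 3)
            · exact Or.inl ⟨h1, h2, h2', ha, k1, k2, hr⟩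
            · exact Or.inr (Or.inl ⟨h1, h2, by omega, ha, k1, k2, hr⟩)
          · have k3 := (g8.resolve_left hr).resolve_left hh
            have k4 := (g9.resolve_left hr).resolve_left hh
            have k5 := g10.resolve_left hr
            exact Or.inr (Or.inr (Or.inl ⟨h1, h2, by omega, Nat.one_le_iff_ne_zero.mpr hr, ha, k1,
              k2, k3, k4⟩))
      · exact Or.inr (Or.inr (Or.inr (Or.inl ⟨h1, h2, Nat.one_le_iff_ne_zero.mpr ha,
          g1.resolve_left ha, g2.resolve_left ha, g3.resolve_left ha, g7.resolve_left ha⟩)))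

theorem card_N1 (i : ℕ) : (N1 (i + 2)).card =
    (34 + i - 1).choose i + ((33 + (i + 1) - 1).choose (i + 1) + ((32 + i - 1).choose i +
      ((34 + (i + 1) - 1).choose (i + 1) + ((35 + (i + 2) - 1).choose (i + 2) +
        (35 + (i + 1) - 1).choose (i + 1))))) := by
  rw [N1, card_union_of_disjoint, card_union_of_disjoint, card_union_of_disjoint,
    card_union_of_disjoint, card_union_of_disjoint, card_cell, card_cell, card_cell, card_cell,
    card_cell, card_cell, card_S0, card_S1, card_S2, card_S3, card_S4, card_S5]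
  all_goals
    rw [disjoint_left]
    intro s hs ht
    simp only [mem_union, mem_c0, mem_c1, mem_c2, mem_c3, mem_c4, mem_c5] at hs ht
    omega

theorem card_N1_zero : (N1 0).card = 1 := by
  rw [N1, card_cell]
  rfl

theorem card_N1_one : (N1 1).card ≤ 38 := by
  rw [N1]
  refine (card_union_le _ _).trans ?_
  refine (add_le_add (le_refl _) ((card_union_le _ _).trans
    (add_le_add (le_refl _) (card_union_le _ _)))).trans ?_
  rw [card_cell, card_cell, card_cell, card_cell, card_S1, card_S3, card_S4, card_S5]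
  simp

theorem card_N1_two : (N1 2).card = 734 := by
  rw [card_N1 0]
  norm_num [Nat.choose]

theorem card_N1_three : (N1 3).card = 9622 := by
  rw [card_N1 1]
  norm_num [Nat.choose]

theorem card_N1_four : (N1 4).card = 96393 := by
  rw [card_N1 2]
  norm_num [Nat.choose]

theorem card_N1_five : (N1 5).card = 787646 := by
  rw [card_N1 3]
  norm_num [Nat.choose]

attribute [irreducible] N1

end Pool.Agent.W442.SN
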