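import Mathlib
import Pool.Agent.W442.SN.Arc
import Pool.Agent.W442.SN.Cell
import Pool.Agent.W417.SN.Div

open MvPolynomial Filter Topology

set_option linter.unusedSimpArgs false

namespace Pool.Agent.W442.SN

open Pool.Agent.W442.SV Pool.Agent.W308.SV

/-! ## Elimination -/

/-- The values of the eliminated coordinates. -/
noncomputable def om (j : Low 10) : A10 :=
  if j = ix 8 0 then X (ix 7 0) * X (ix 8 7)
  else if j = ix 9 7 then X (ix 8 7) * X (ix 9 8)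
  else if j ∈ Lin then 0
  else X j

noncomputable def Om : A10 →ₐ[ℂ] A10 := aeval om

/-- The same for points. -/
noncomputable def opt (z : Low 10 → ℂ) (j : Low 10) : ℂ :=
  if j = ix 8 0 then z (ix 7 0) * z (ix 8 7)
  else if j = ix 9 7 then z (ix 8 7) * z (ix 9 8)
  else if j ∈ Lin then 0
  else z j

theorem eval_Om (z : Low 10 → ℂ) (f : A10) : eval z (Om f) = eval (opt z) f := by
  have h : (eval z).comp (Om : A10 →+* A10) = eval (opt z) := by
    apply MvPolynomial.ringHom_ext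
    · intro r
      simp [Om]
    · intro j
      simp only [Om, RingHom.coe_comp, RingHom.coe_coe, Function.comp_apply, aeval_X, eval_X,
        om, opt]
      split_ifs <;> simp
  exact RingHom.congr_fun h f

theorem om_mem (j : Low 10) : om j ∈ originIdeal (Low 10) := by
  unfold om
  split_ifs
  · exact Ideal.mul_mem_left _ _ (mem_org _)
  · exact Ideal.mul_mem_left _ _ (mem_org _)
  · exact Ideal.zero_mem _
  · exact mem_org _

theorem Om_mem {f : A10} {k : ℕ} (hf : f ∈ originIdeal (Low 10) ^ k) :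
    Om f ∈ originIdeal (Low 10) ^ k := by
  have h1 : (originIdeal (Low 10)).map (Om : A10 →+* A10) ≤ originIdeal (Low 10) := by
    rw [Ideal.map_le_iff_le_comap]
    intro p hp
    rw [Ideal.mem_comap]
    rw [origin_eq, idealOfVars] at hp
    induction hp using Submodule.span_induction with
    | mem x hx =>
      obtain ⟨j, rfl⟩ := hx
      rw [RingHom.coe_coe, Om, aeval_X]
      exact om_mem j
    | zero => rw [map_zero]; exact Ideal.zero_mem _
    | add a b _ _ ha hb => rw [map_add]; exact Ideal.add_mem _ ha hb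
    | smul a b _ hb => rw [smul_eq_mul, map_mul]; exact Ideal.mul_mem_left _ _ hb
  have h2 : Om f ∈ (originIdeal (Low 10) ^ k).map (Om : A10 →+* A10) :=
    Ideal.mem_map_of_mem (Om : A10 →+* A10) hf
  rw [Ideal.map_pow] at h2
  exact Ideal.pow_right_mono h1 k h2

theorem lin_spec : ix 8 0 ∈ Lin ∧ ix 9 7 ∈ Lin := by decide +kernel

theorem om_of_notMem {j : Low 10} (hj : j ∉ Lin) : om j = X j := by
  unfold om
  rw [if_neg, if_neg, if_neg hj]
  · rintro rfl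
    exact hj lin_spec.2
  · rintro rfl
    exact hj lin_spec.1

theorem opt_of_notMem {j : Low 10} (hj : j ∉ Lin) (z : Low 10 → ℂ) : opt z j = z j := by
  unfold opt
  rw [if_neg, if_neg, if_neg hj]
  · rintro rfl
    exact hj lin_spec.2
  · rintro rfl
    exact hj lin_spec.1

theorem Om_monomial {s : Low 10 →₀ ℕ} (h : L0 s) (c : ℂ) :
    Om (monomial s c) = monomial s c := by
  rw [Om, aeval_monomial, monomial_eq, algebraMap_eq]
  have : (s.prod fun i k => om i ^ k) = s.prod fun i k => (X i : A10) ^ k := by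
    apply Finsupp.prod_congr
    intro j hj
    have hj' : j ∉ Lin := fun h' => Finsupp.mem_support_iff.mp hj (h j h')
    rw [om_of_notMem hj']
  rw [this]

theorem Om_fix {P : A10} (hP : ∀ s, coeff s P ≠ 0 → L0 s) : Om P = P := by
  conv_lhs => rw [P.as_sum]
  conv_rhs => rw [P.as_sum]
  rw [map_sum]
  apply Finset.sum_congr rfl
  intro s hs
  exact Om_monomial (hP s (mem_support_iff.mp hs)) _

/-! ## The last equation -/

/-- The last equation without its first term. -/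
noncomputable def F0 : A10 :=
  -(X (ix 3 0) * X (ix 9 3)) - X (ix 6 0) * X (ix 9 6) + X (ix 3 0) * X (ix 6 3) * X (ix 9 6)
    + X (ix 3 0) * (X (ix 5 3) * X (ix 9 5) + X (ix 4 3) * X (ix 9 4))
    + X (ix 1 0) * (X (ix 5 1) * X (ix 9 5) + X (ix 4 1) * X (ix 9 4))
    + X (ix 1 0) * X (ix 2 1) * X (ix 9 2)

/-- Its leading form. -/
noncomputable def G0 : A10 := -(X (ix 3 0) * X (ix 9 3)) - X (ix 6 0) * X (ix 9 6)

/-- The last equation. -/
noncomputable def FF : A10 := F0 - X (ix 7 0) * X (ix 8 7) * X (ix 9 8)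

theorem FF_eq : FF = G0 + F3 := by
  unfold FF F0 G0 F3
  ring

theorem G0_hom : G0.IsHomogeneous 2 := (hom2 _ _).neg.sub (hom2 _ _)

theorem notlin : ix 6 3 ∉ Lin ∧ ix 1 0 ∉ Lin ∧ ix 2 1 ∉ Lin ∧ ix 9 2 ∉ Lin ∧ ix 9 5 ∉ Lin ∧
    ix 9 4 ∉ Lin ∧ ix 7 0 ∉ Lin ∧ ix 8 7 ∉ Lin ∧ ix 9 8 ∉ Lin := by decide +kernel

theorem ppt_eq (z : Low 10 → ℂ) : ppt z (ix 6 0) = z (ix 6 3) * z (ix 1 0) * z (ix 6 0) ∧
    ppt z (ix 5 1) = -(z (ix 6 0) * z (ix 5 3)) ∧ ppt z (ix 4 1) = -(z (ix 6 0) * z (ix 4 3)) ∧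
    ppt z (ix 9 2) = z (ix 6 0) * z (ix 9 2) ∧ ppt z (ix 9 3) = z (ix 2 1) * z (ix 9 2) := by
  simp only [ppt, n63, n10, n21, n53, n43, n92, n60, n51, n41, n93, if_true, if_false]
  tauto

theorem ppt_other {z : Low 10 → ℂ} {j : Low 10} (h1 : j ≠ ix 6 0) (h2 : j ≠ ix 5 1)
    (h3 : j ≠ ix 4 1) (h4 : j ≠ ix 9 2) (h5 : j ≠ ix 9 3) : ppt z j = z j := by
  simp only [ppt, h1, h2, h3, h4, h5, if_false]

theorem oth : ∀ j : Low 10, j = ix 6 3 ∨ j = ix 1 0 ∨ j = ix 2 1 ∨ j = ix 5 3 ∨ j = ix 4 3 ∨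
    j = ix 9 5 ∨ j = ix 9 4 ∨ j = ix 9 6 ∨ j = ix 3 0 ∨ j = ix 7 0 ∨ j = ix 8 7 ∨ j = ix 9 8 →
    j ≠ ix 6 0 ∧ j ≠ ix 5 1 ∧ j ≠ ix 4 1 ∧ j ≠ ix 9 2 ∧ j ≠ ix 9 3 := by decide +kernel

theorem ppt_oth {z : Low 10 → ℂ} {j : Low 10} (h : j = ix 6 3 ∨ j = ix 1 0 ∨ j = ix 2 1 ∨
    j = ix 5 3 ∨ j = ix 4 3 ∨ j = ix 9 5 ∨ j = ix 9 4 ∨ j = ix 9 6 ∨ j = ix 3 0 ∨ j = ix 7 0 ∨
    j = ix 8 7 ∨ j = ix 9 8) : ppt z j = z j := by
  obtain ⟨h1, h2, h3, h4, h5⟩ := oth j h
  exact ppt_other h1 h2 h3 h4 h5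

theorem eval_F0 (z : Low 10 → ℂ) : eval z (Phi F0) =
    -(z (ix 3 0) * (z (ix 2 1) * z (ix 9 2)))
      - z (ix 6 3) * z (ix 1 0) * z (ix 6 0) * z (ix 9 6)
      + z (ix 3 0) * z (ix 6 3) * z (ix 9 6)
      + z (ix 3 0) * (z (ix 5 3) * z (ix 9 5) + z (ix 4 3) * z (ix 9 4))
      + z (ix 1 0) * (-(z (ix 6 0) * z (ix 5 3)) * z (ix 9 5) +
          -(z (ix 6 0) * z (ix 4 3)) * z (ix 9 4))
      + z (ix 1 0) * z (ix 2 1) * (z (ix 6 0) * z (ix 9 2)) := by
  obtain ⟨h1, h2, h3, h4, h5⟩ := ppt_eq z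
  rw [eval_Phi]
  unfold F0
  simp only [map_add, map_sub, map_neg, map_mul, eval_X]
  rw [h1, h2, h3, h4, h5, ppt_oth (j := ix 6 3) (by tauto), ppt_oth (j := ix 1 0) (by tauto),
    ppt_oth (j := ix 2 1) (by tauto), ppt_oth (j := ix 5 3) (by tauto),
    ppt_oth (j := ix 4 3) (by tauto), ppt_oth (j := ix 9 5) (by tauto),
    ppt_oth (j := ix 9 4) (by tauto), ppt_oth (j := ix 9 6) (by tauto),
    ppt_oth (j := ix 3 0) (by tauto)]

/-- The parametrized points lie in the tube. -/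
theorem opt_mem (z : Low 10 → ℂ)
    (hz : z (ix 7 0) * z (ix 8 7) * z (ix 9 8) = eval z (Phi F0)) :
    opt (ppt z) ∈ tube v1 w1 := by
  obtain ⟨h1, h2, h3, h4, h5⟩ := ppt_eq z
  rw [eval_F0] at hz
  have o50 : opt (ppt z) (ix 5 0) = 0 := by
    unfold opt; rw [if_neg, if_neg, if_pos] <;> decide +kernel
  have o40 : opt (ppt z) (ix 4 0) = 0 := by
    unfold opt; rw [if_neg, if_neg, if_pos] <;> decide +kernel
  have o20 : opt (ppt z) (ix 2 0) = 0 := by
    unfold opt; rw [if_neg, if_neg, if_pos] <;> decide +kernel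
  have o90 : opt (ppt z) (ix 9 0) = 0 := by
    unfold opt; rw [if_neg, if_neg, if_pos] <;> decide +kernel
  have o91 : opt (ppt z) (ix 9 1) = 0 := by
    unfold opt; rw [if_neg, if_neg, if_pos] <;> decide +kernel
  have o80 : opt (ppt z) (ix 8 0) = z (ix 7 0) * z (ix 8 7) := by
    unfold opt
    rw [if_pos rfl, ppt_oth (j := ix 7 0) (by tauto), ppt_oth (j := ix 8 7) (by tauto)]
  have o97 : opt (ppt z) (ix 9 7) = z (ix 8 7) * z (ix 9 8) := by
    unfold opt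
    rw [if_neg (by decide +kernel), if_pos rfl, ppt_oth (j := ix 9 8) (by tauto),
      ppt_oth (j := ix 8 7) (by tauto)]
  have p60 := (opt_of_notMem ne_lin.1 (ppt z)).trans h1
  have p51 := (opt_of_notMem ne_lin.2.2.2.2.1 (ppt z)).trans h2
  have p41 := (opt_of_notMem ne_lin.2.2.2.2.2.1 (ppt z)).trans h3
  have p92 := (opt_of_notMem notlin.2.2.2.1 (ppt z)).trans h4
  have p93 := (opt_of_notMem ne_lin.2.1 (ppt z)).trans h5
  have p63 := (opt_of_notMem notlin.1 (ppt z)).trans (ppt_oth (z := z) (by tauto))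
  have p10 := (opt_of_notMem notlin.2.1 (ppt z)).trans (ppt_oth (z := z) (by tauto))
  have p21 := (opt_of_notMem notlin.2.2.1 (ppt z)).trans (ppt_oth (z := z) (by tauto))
  have p53 := (opt_of_notMem ne_lin.2.2.1 (ppt z)).trans (ppt_oth (z := z) (by tauto))
  have p43 := (opt_of_notMem ne_lin.2.2.2.1 (ppt z)).trans (ppt_oth (z := z) (by tauto))
  have p95 := (opt_of_notMem notlin.2.2.2.2.1 (ppt z)).trans (ppt_oth (z := z) (by tauto))
  have p94 := (opt_of_notMem notlin.2.2.2.2.2.1 (ppt z)).trans (ppt_oth (z := z) (by tauto))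
  have p96 := (opt_of_notMem ne_lin.2.2.2.2.2.2.1 (ppt z)).trans (ppt_oth (z := z) (by tauto))
  have p30 := (opt_of_notMem ne_lin.2.2.2.2.2.2.2 (ppt z)).trans (ppt_oth (z := z) (by tauto))
  have p70 := (opt_of_notMem notlin.2.2.2.2.2.2.1 (ppt z)).trans (ppt_oth (z := z) (by tauto))
  have p87 := (opt_of_notMem notlin.2.2.2.2.2.2.2.1 (ppt z)).trans (ppt_oth (z := z) (by tauto))
  have p98 := (opt_of_notMem notlin.2.2.2.2.2.2.2.2 (ppt z)).trans (ppt_oth (z := z) (by tauto))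
  refine mem_tube _ (z (ix 6 0)) o50 o40 o20 o90 o91 ?_ ?_ ?_ ?_ ?_ ?_ ?_
  · rw [p60, p63, p10]
  · rw [p51, p53]
  · rw [p41, p43]
  · rw [p21, p92, p93]; ring
  · rw [o80, p70, p87]
  · rw [o97, p87, p98]
  · rw [p70, p87, p98, p30, p93, p60, p96, p63, p53, p95, p43, p94, p10, p51, p41, p21, p92]
    linear_combination -hz

end Pool.Agent.W442.SN
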