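import Mathlib
import Pool.Agent.W442.SN.Low

open MvPolynomial Filter Topology

set_option linter.unusedSimpArgs false

namespace Pool.Agent.W442.SN

open Pool.Agent.W442.SV Pool.Agent.W308.SV

/-- The variables `s, t, u` do not occur. -/
def NoS (p : A10) : Prop :=
  ∀ m : Low 10 →₀ ℕ, coeff m p ≠ 0 → m (ix 7 0) = 0 ∧ m (ix 8 7) = 0 ∧ m (ix 9 8) = 0

theorem NoS.mul {p q : A10} (hp : NoS p) (hq : NoS q) : NoS (p * q) := by
  classical
  intro m hm
  rw [coeff_mul] at hm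
  obtain ⟨⟨a, b⟩, hab, h⟩ := Finset.exists_ne_zero_of_sum_ne_zero hm
  have hab' : a + b = m := Finset.HasAntidiagonal.mem_antidiagonal.mp hab
  obtain ⟨h1, h2, h3⟩ := hp a (left_ne_zero_of_mul h)
  obtain ⟨h4, h5, h6⟩ := hq b (right_ne_zero_of_mul h)
  rw [← hab']
  simp only [Finsupp.add_apply]
  omega

theorem NoS.add {p q : A10} (hp : NoS p) (hq : NoS q) : NoS (p + q) := by
  intro m hm
  by_cases h : coeff m p = 0
  · apply hq m
    rwa [coeff_add, h, zero_add] at hm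
  · exact hp m h

theorem NoS.neg {p : A10} (hp : NoS p) : NoS (-p) := by
  intro m hm
  rw [coeff_neg, neg_ne_zero] at hm
  exact hp m hm

theorem NoS.sub {p q : A10} (hp : NoS p) (hq : NoS q) : NoS (p - q) := by
  rw [sub_eq_add_neg]
  exact hp.add hq.neg

theorem NoS.X {j : Low 10} (h1 : j ≠ ix 7 0) (h2 : j ≠ ix 8 7) (h3 : j ≠ ix 9 8) :
    NoS (X j) := by
  classical
  intro m hm
  rw [coeff_X] at hm
  split_ifs at hm with h
  · rw [← h]
    exact ⟨single_off h1 1, single_off h2 1, single_off h3 1⟩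
  · exact absurd rfl hm

theorem nos1 : ∀ j : Low 10, j = ix 6 3 ∨ j = ix 1 0 ∨ j = ix 2 1 ∨ j = ix 5 3 ∨ j = ix 4 3 ∨
    j = ix 9 5 ∨ j = ix 9 4 → j ≠ ix 7 0 ∧ j ≠ ix 8 7 ∧ j ≠ ix 9 8 := by decide +kernel

theorem nos2 : ∀ j : Low 10, j = ix 9 6 ∨ j = ix 3 0 ∨ j = ix 6 0 ∨ j = ix 5 1 ∨ j = ix 4 1 ∨
    j = ix 9 2 ∨ j = ix 9 3 → j ≠ ix 7 0 ∧ j ≠ ix 8 7 ∧ j ≠ ix 9 8 := by decide +kernel

theorem nosX {j : Low 10} (h : (j = ix 6 3 ∨ j = ix 1 0 ∨ j = ix 2 1 ∨ j = ix 5 3 ∨ j = ix 4 3 ∨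
    j = ix 9 5 ∨ j = ix 9 4) ∨ (j = ix 9 6 ∨ j = ix 3 0 ∨ j = ix 6 0 ∨ j = ix 5 1 ∨
    j = ix 4 1 ∨ j = ix 9 2 ∨ j = ix 9 3)) : NoS (X j) := by
  rcases h with h | h
  · obtain ⟨h1, h2, h3⟩ := nos1 j h
    exact NoS.X h1 h2 h3
  · obtain ⟨h1, h2, h3⟩ := nos2 j h
    exact NoS.X h1 h2 h3

theorem nos_par {j : Low 10} (h1 : j ≠ ix 7 0) (h2 : j ≠ ix 8 7) (h3 : j ≠ ix 9 8) :
    NoS (par j) := by
  unfold par
  split_ifs
  · exact ((nosX (by tauto)).mul (nosX (by tauto))).mul (nosX (by tauto))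
  · exact ((nosX (by tauto)).mul (nosX (by tauto))).neg
  · exact ((nosX (by tauto)).mul (nosX (by tauto))).neg
  · exact (nosX (by tauto)).mul (nosX (by tauto))
  · exact (nosX (by tauto)).mul (nosX (by tauto))
  · exact NoS.X h1 h2 h3

theorem nos_F0 : NoS F0 := by
  unfold F0
  exact ((((((nosX (by tauto)).mul (nosX (by tauto))).neg.sub
    ((nosX (by tauto)).mul (nosX (by tauto)))).add
    (((nosX (by tauto)).mul (nosX (by tauto))).mul (nosX (by tauto)))).add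
    ((nosX (by tauto)).mul (((nosX (by tauto)).mul (nosX (by tauto))).add
      ((nosX (by tauto)).mul (nosX (by tauto)))))).add
    ((nosX (by tauto)).mul (((nosX (by tauto)).mul (nosX (by tauto))).add
      ((nosX (by tauto)).mul (nosX (by tauto)))))).add
    (((nosX (by tauto)).mul (nosX (by tauto))).mul (nosX (by tauto)))

theorem Phi_F0_ne : Phi F0 ≠ 0 := by
  intro h
  have h2 := eval_F0 (fun j => if j = ix 3 0 ∨ j = ix 2 1 ∨ j = ix 9 2 then 1 else 0)
  rw [h, map_zero] at h2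
  rw [if_pos (by tauto), if_pos (by tauto), if_pos (by tauto), if_neg (by decide +kernel),
    if_neg (by decide +kernel), if_neg (by decide +kernel), if_neg (by decide +kernel),
    if_neg (by decide +kernel), if_neg (by decide +kernel), if_neg (by decide +kernel),
    if_neg (by decide +kernel)] at h2
  norm_num at h2

/-- Division by the last equation. -/
theorem exists_quot {f : A10}
    (hf : ∀ z : Low 10 → ℂ, z (ix 7 0) * z (ix 8 7) * z (ix 9 8) = eval z (Phi F0) →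
      eval (ppt z) f = 0) : ∃ q : A10, Phi (f - FF * q) = 0 := by
  refine Pool.Agent.W417.SN.Div.main (Low 10) (ix 7 0) (ix 8 7) (ix 9 8) (by decide +kernel)
    (by decide +kernel) (by decide +kernel) Phi ?_ ?_ ?_ ?_ F0 nos_F0 Phi_F0_ne f ?_
  · rw [Phi, aeval_X]
    simp only [par]
    rw [if_neg, if_neg, if_neg, if_neg, if_neg] <;> decide +kernel
  · rw [Phi, aeval_X]
    simp only [par]
    rw [if_neg, if_neg, if_neg, if_neg, if_neg] <;> decide +kernel
  · rw [Phi, aeval_X]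
    simp only [par]
    rw [if_neg, if_neg, if_neg, if_neg, if_neg] <;> decide +kernel
  · intro j h1 h2 h3
    rw [Phi, aeval_X]
    exact nos_par h1 h2 h3
  · intro y hy
    rw [eval_Phi]
    exact hf y hy

/-- The component of the lowest degree. -/
theorem comp_lead {p p0 : A10} {k : ℕ} (h0 : p0.IsHomogeneous k)
    (h : p - p0 ∈ originIdeal (Low 10) ^ (k + 1)) : homogeneousComponent k p = p0 := by
  have e : p = p0 + (p - p0) := by ring
  rw [e, map_add]
  have h1 : homogeneousComponent k (p - p0) = 0 := by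
    ext s
    rw [coeff_homogeneousComponent, coeff_zero]
    split_ifs with hs
    · exact (mem_origin_pow _ _).mp h s (by omega)
    · rfl
  rw [h1, add_zero, homogeneousComponent_of_mem h0, if_pos rfl]

theorem FF_comp {q : A10} {k : ℕ} (hq : q ∈ originIdeal (Low 10) ^ k) :
    FF * q - G0 * homogeneousComponent k q ∈ originIdeal (Low 10) ^ (k + 2 + 1) := by
  have e : FF * q - G0 * homogeneousComponent k q =
      G0 * (q - homogeneousComponent k q) + F3 * q := by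
    rw [FF_eq]
    ring
  rw [e]
  refine Ideal.add_mem _ ?_ ?_
  · exact org_mul (homog_mem G0_hom) (sub_homog_mem hq) (by ring)
  · exact org_mul F3_mem hq (by ring)

/-- The conditions on `P - G0 * q`. -/
structure Cond (R : A10) : Prop where
  c1 : ∀ y : Low 10 → ℂ, y (ix 6 0) = 0 → y (ix 5 1) = 0 → y (ix 4 1) = 0 → y (ix 2 1) ≠ 0 →
    y (ix 9 3) ≠ 0 → eval y R = 0
  c2 : ∀ y : Low 10 → ℂ, y (ix 9 3) = 0 → y (ix 5 3) = 0 → y (ix 4 3) = 0 → y (ix 6 0) ≠ 0 →
    y (ix 6 3) ≠ 0 → y (ix 1 0) ≠ 0 → eval y R = 0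
  c3 : ∀ (y : Low 10 → ℂ) (α β : ℂ), y (ix 6 0) = 0 → y (ix 9 3) = 0 →
    α * y (ix 5 3) = β * y (ix 5 1) → α * y (ix 4 3) = β * y (ix 4 1) → α ≠ 0 → β ≠ 0 →
    eval y R = 0

theorem cond_of {ψ : A10} (hψ : Phi ψ = 0) {k : ℕ} (hk : ψ ∈ originIdeal (Low 10) ^ k) :
    Cond (homogeneousComponent k ψ) where
  c1 := fun y h1 h2 h3 h4 h5 => arc1 hψ hk y h1 h2 h3 h4 h5
  c2 := fun y h1 h2 h3 h4 h5 h6 => arc2 hψ hk y h1 h2 h3 h4 h5 h6
  c3 := fun y α β h1 h2 h3 h4 h5 h6 => arc3 hψ hk y α β h1 h2 h3 h4 h5 h6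

theorem FF_mem : FF ∈ originIdeal (Low 10) ^ 2 := by
  rw [FF_eq]
  exact Ideal.add_mem _ (homog_mem G0_hom) (org_le F3_mem (by norm_num))

theorem eval_G0 (y : Low 10 → ℂ) : eval y G0 =
    -(y (ix 3 0) * y (ix 9 3)) - y (ix 6 0) * y (ix 9 6) := by
  unfold G0
  simp only [map_sub, map_neg, map_mul, eval_X]

/-- The quotient has order at least `i - 2`, for `i = 2, 4`. -/
theorem quot_two {f q : A10} (hf : f ∈ originIdeal (Low 10) ^ 2) (hq : Phi (f - FF * q) = 0) :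
    Cond (homogeneousComponent 2 f - G0 * homogeneousComponent 0 q) := by
  have hψ : f - FF * q ∈ originIdeal (Low 10) ^ 2 :=
    Ideal.sub_mem _ hf (Ideal.mul_mem_right _ _ FF_mem)
  have h := cond_of hq hψ
  have e : homogeneousComponent 2 (f - FF * q) =
      homogeneousComponent 2 f - G0 * homogeneousComponent 0 q := by
    rw [map_sub]
    congr 1
    exact comp_lead (G0_hom.mul (homogeneousComponent_isHomogeneous 0 q))
      (FF_comp (by rw [pow_zero, Ideal.one_eq_top]; exact Submodule.mem_top))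
  rwa [e] at h

end Pool.Agent.W442.SN
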