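import Mathlib
import Pool.Agent.W442.SN.Low2

open MvPolynomial

set_option linter.unusedSimpArgs false

namespace Pool.Agent.W442.SN

open Pool.Agent.W442.SV Pool.Agent.W308.SV

theorem K1 {R : A10} (h : Cond R) (s : Low 10 →₀ ℕ) (h1 : s (ix 6 0) = 0)
    (h2 : s (ix 5 1) = 0) (h3 : s (ix 4 1) = 0) : coeff s R = 0 := by
  apply coeff_zero_of_support (fun j => decide (j ≠ ix 6 0 ∧ j ≠ ix 5 1 ∧ j ≠ ix 4 1)) R
  · intro a ha hb
    exact h.c1 a (ha _ (by decide +kernel)) (ha _ (by decide +kernel)) (ha _ (by decide +kernel))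
      (hb _ (by decide +kernel)) (hb _ (by decide +kernel))
  · intro i hi
    rw [decide_eq_false_iff_not] at hi
    by_cases e1 : i = ix 6 0
    · rw [e1, h1]
    by_cases e2 : i = ix 5 1
    · rw [e2, h2]
    by_cases e3 : i = ix 4 1
    · rw [e3, h3]
    exact absurd ⟨e1, e2, e3⟩ hi

theorem K2 {R : A10} (h : Cond R) (s : Low 10 →₀ ℕ) (h1 : s (ix 9 3) = 0)
    (h2 : s (ix 5 3) = 0) (h3 : s (ix 4 3) = 0) : coeff s R = 0 := by
  apply coeff_zero_of_support (fun j => decide (j ≠ ix 9 3 ∧ j ≠ ix 5 3 ∧ j ≠ ix 4 3)) R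
  · intro a ha hb
    exact h.c2 a (ha _ (by decide +kernel)) (ha _ (by decide +kernel)) (ha _ (by decide +kernel))
      (hb _ (by decide +kernel)) (hb _ (by decide +kernel)) (hb _ (by decide +kernel))
  · intro i hi
    rw [decide_eq_false_iff_not] at hi
    by_cases e1 : i = ix 9 3
    · rw [e1, h1]
    by_cases e2 : i = ix 5 3
    · rw [e2, h2]
    by_cases e3 : i = ix 4 3
    · rw [e3, h3]
    exact absurd ⟨e1, e2, e3⟩ hi

/-! ## The third component -/

noncomputable def rho (j : Low 10) : A10 :=
  if j = ix 5 1 then X (ix 5 1) * X (ix 4 1)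
  else if j = ix 5 3 then X (ix 5 1) * X (ix 4 3)
  else if j = ix 6 0 then 0
  else if j = ix 9 3 then 0
  else X j

noncomputable def Rho : A10 →ₐ[ℂ] A10 := aeval rho

noncomputable def rpt (z : Low 10 → ℂ) (j : Low 10) : ℂ :=
  if j = ix 5 1 then z (ix 5 1) * z (ix 4 1)
  else if j = ix 5 3 then z (ix 5 1) * z (ix 4 3)
  else if j = ix 6 0 then 0
  else if j = ix 9 3 then 0
  else z j

theorem eval_Rho (z : Low 10 → ℂ) (f : A10) : eval z (Rho f) = eval (rpt z) f := by
  have h : (eval z).comp (Rho : A10 →+* A10) = eval (rpt z) := by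
    apply MvPolynomial.ringHom_ext
    · intro r
      simp [Rho]
    · intro j
      simp only [Rho, RingHom.coe_comp, RingHom.coe_coe, Function.comp_apply, aeval_X, eval_X,
        rho, rpt]
      split_ifs <;> simp
  exact RingHom.congr_fun h f

noncomputable def th (t : Low 10 →₀ ℕ) : Low 10 →₀ ℕ :=
  Finsupp.equivFunOnFinite.symm fun j =>
    if j = ix 5 1 then t (ix 5 1) + t (ix 5 3)
    else if j = ix 4 1 then t (ix 4 1) + t (ix 5 1)
    else if j = ix 4 3 then t (ix 4 3) + t (ix 5 3)
    else if j = ix 5 3 then 0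
    else t j

theorem th_apply (t : Low 10 →₀ ℕ) (j : Low 10) : th t j =
    if j = ix 5 1 then t (ix 5 1) + t (ix 5 3)
    else if j = ix 4 1 then t (ix 4 1) + t (ix 5 1)
    else if j = ix 4 3 then t (ix 4 3) + t (ix 5 3)
    else if j = ix 5 3 then 0
    else t j := rfl

theorem th51 (t : Low 10 →₀ ℕ) : th t (ix 5 1) = t (ix 5 1) + t (ix 5 3) := by
  rw [th_apply, if_pos rfl]
theorem th53 (t : Low 10 →₀ ℕ) : th t (ix 5 3) = 0 := by
  rw [th_apply, if_neg (by decide +kernel), if_neg (by decide +kernel),
    if_neg (by decide +kernel), if_pos rfl]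
theorem th41 (t : Low 10 →₀ ℕ) : th t (ix 4 1) = t (ix 4 1) + t (ix 5 1) := by
  rw [th_apply, if_neg (by decide +kernel), if_pos rfl]
theorem th43 (t : Low 10 →₀ ℕ) : th t (ix 4 3) = t (ix 4 3) + t (ix 5 3) := by
  rw [th_apply, if_neg (by decide +kernel), if_neg (by decide +kernel), if_pos rfl]

theorem th_inj {s t : Low 10 →₀ ℕ} (hs : s (ix 4 1) = 0 ∨ s (ix 5 3) = 0)
    (ht : t (ix 4 1) = 0 ∨ t (ix 5 3) = 0) (h : th s = th t) : s = t := by
  have h1 : th s (ix 5 1) = th t (ix 5 1) := by rw [h]
  have h2 : th s (ix 4 1) = th t (ix 4 1) := by rw [h]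
  have h3 : th s (ix 4 3) = th t (ix 4 3) := by rw [h]
  rw [th51, th51] at h1
  rw [th41, th41] at h2
  rw [th43, th43] at h3
  ext j
  by_cases e1 : j = ix 5 1
  · subst e1; omega
  by_cases e2 : j = ix 4 1
  · subst e2; omega
  by_cases e3 : j = ix 4 3
  · subst e3; omega
  by_cases e4 : j = ix 5 3
  · subst e4; omega
  have h4 : th s j = th t j := by rw [h]
  rwa [th_apply, th_apply, if_neg e1, if_neg e2, if_neg e3, if_neg e4, if_neg e1, if_neg e2,
    if_neg e3, if_neg e4] at h4

def T4 : Finset (Low 10) := {ix 5 1, ix 5 3, ix 4 1, ix 4 3}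

theorem prodT4 (g : Low 10 → A10) : ∏ j ∈ T4, g j =
    g (ix 5 1) * (g (ix 5 3) * (g (ix 4 1) * g (ix 4 3))) := by
  unfold T4
  rw [Finset.prod_insert (by decide +kernel), Finset.prod_insert (by decide +kernel),
    Finset.prod_insert (by decide +kernel), Finset.prod_singleton]

theorem split4 (g : Low 10 → A10) : ∏ j, g j = (∏ j ∈ Finset.univ \ T4, g j) *
    (g (ix 5 1) * (g (ix 5 3) * (g (ix 4 1) * g (ix 4 3)))) := by
  rw [← prodT4]
  exact (Finset.prod_sdiff (Finset.subset_univ T4)).symm

theorem rho51 : rho (ix 5 1) = X (ix 5 1) * X (ix 4 1) := if_pos rfl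
theorem rho53 : rho (ix 5 3) = X (ix 5 1) * X (ix 4 3) := by
  rw [rho, if_neg (by decide +kernel), if_pos rfl]
theorem rho41 : rho (ix 4 1) = X (ix 4 1) := by
  rw [rho, if_neg (by decide +kernel), if_neg (by decide +kernel),
    if_neg (by decide +kernel), if_neg (by decide +kernel)]
theorem rho43 : rho (ix 4 3) = X (ix 4 3) := by
  rw [rho, if_neg (by decide +kernel), if_neg (by decide +kernel),
    if_neg (by decide +kernel), if_neg (by decide +kernel)]

theorem mem_T4 {j : Low 10} (hj : j ∉ T4) : j ≠ ix 5 1 ∧ j ≠ ix 5 3 ∧ j ≠ ix 4 1 ∧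
    j ≠ ix 4 3 := by
  unfold T4 at hj
  simp only [Finset.mem_insert, Finset.mem_singleton, not_or] at hj
  exact hj

theorem Rho_prod {t : Low 10 →₀ ℕ} (h1 : t (ix 6 0) = 0) (h2 : t (ix 9 3) = 0) :
    ∏ j, rho j ^ t j = ∏ j, (X j : A10) ^ (th t) j := by
  have e : ∏ j ∈ Finset.univ \ T4, rho j ^ t j =
      ∏ j ∈ Finset.univ \ T4, (X j : A10) ^ (th t) j := by
    apply Finset.prod_congr rfl
    intro j hj
    obtain ⟨e1, e2, e3, e4⟩ := mem_T4 (Finset.mem_sdiff.mp hj).2
    rw [th_apply, if_neg e1, if_neg e3, if_neg e4, if_neg e2, rho, if_neg e1, if_neg e2]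
    split_ifs with c1 c2
    · rw [c1, h1, pow_zero, pow_zero]
    · rw [c2, h2, pow_zero, pow_zero]
    · rfl
  have l := split4 (fun j => rho j ^ t j)
  have r := split4 (fun j => (X j : A10) ^ (th t) j)
  rw [l, r, e]
  rw [rho51, rho53, rho41, rho43, th51, th53, th41, th43]
  generalize ∏ j ∈ Finset.univ \ T4, (X j : A10) ^ (th t) j = A
  ring

theorem Rho_monomial {t : Low 10 →₀ ℕ} (h1 : t (ix 6 0) = 0) (h2 : t (ix 9 3) = 0) (c : ℂ) :
    Rho (monomial t c) = monomial (th t) c := by
  rw [Rho, aeval_monomial, monomial_eq, algebraMap_eq,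
    Finsupp.prod_fintype _ _ (fun i => pow_zero _), Finsupp.prod_fintype _ _ (fun i => pow_zero _),
    Rho_prod h1 h2]

theorem Rho_monomial_zero {t : Low 10 →₀ ℕ} (h : t (ix 6 0) ≠ 0 ∨ t (ix 9 3) ≠ 0) (c : ℂ) :
    Rho (monomial t c) = 0 := by
  rw [Rho, aeval_monomial, Finsupp.prod_fintype _ _ (fun i => pow_zero _)]
  rcases h with h | h
  · rw [Finset.prod_eq_zero (Finset.mem_univ (ix 6 0)), mul_zero]
    rw [rho, if_neg (by decide +kernel), if_neg (by decide +kernel), if_pos rfl, zero_pow h]
  · rw [Finset.prod_eq_zero (Finset.mem_univ (ix 9 3)), mul_zero]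
    rw [rho, if_neg (by decide +kernel), if_neg (by decide +kernel),
      if_neg (by decide +kernel), if_pos rfl, zero_pow h]

theorem coeff_Rho {P : A10} (hP : ∀ s, coeff s P ≠ 0 → Good s) {s : Low 10 →₀ ℕ} (hs : Good s)
    (h1 : s (ix 6 0) = 0) (h2 : s (ix 9 3) = 0) : coeff (th s) (Rho P) = coeff s P := by
  classical
  conv_lhs => rw [P.as_sum]
  rw [map_sum, coeff_sum, Finset.sum_eq_single s]
  · rw [Rho_monomial h1 h2, coeff_monomial, if_pos rfl]
  · intro t ht hne
    by_cases h : t (ix 6 0) = 0 ∧ t (ix 9 3) = 0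
    · rw [Rho_monomial h.1 h.2, coeff_monomial, if_neg]
      intro he
      exact hne (th_inj (hP t (mem_support_iff.mp ht)).2.2.2.2.2.2.1 hs.2.2.2.2.2.2.1 he)
    · rw [Rho_monomial_zero, coeff_zero]
      by_contra hh
      push Not at hh
      exact h hh
  · intro hns
    rw [notMem_support_iff.mp hns, monomial_zero, map_zero, coeff_zero]

theorem Rho_zero {P φ : A10} (h : Cond (P - G0 * φ)) : Rho P = 0 := by
  apply MvPolynomial.funext_set
    (fun j => if j = ix 4 1 ∨ j = ix 4 3 then ({0}ᶜ : Set ℂ) else Set.univ)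
  · intro i
    split_ifs
    · exact (Set.finite_singleton (0 : ℂ)).infinite_compl
    · exact Set.infinite_univ
  · intro x hx
    have x1 : x (ix 4 1) ≠ 0 := by
      have h1 := hx (ix 4 1) (Set.mem_univ _)
      simp only [true_or, if_true] at h1
      exact h1
    have x2 : x (ix 4 3) ≠ 0 := by
      have h1 := hx (ix 4 3) (Set.mem_univ _)
      simp only [or_true, if_true] at h1
      exact h1
    have a1 : rpt x (ix 5 1) = x (ix 5 1) * x (ix 4 1) := if_pos rfl
    have a2 : rpt x (ix 5 3) = x (ix 5 1) * x (ix 4 3) := by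
      rw [rpt, if_neg (by decide +kernel), if_pos rfl]
    have a3 : rpt x (ix 4 1) = x (ix 4 1) := by
      rw [rpt, if_neg (by decide +kernel), if_neg (by decide +kernel),
        if_neg (by decide +kernel), if_neg (by decide +kernel)]
    have a4 : rpt x (ix 4 3) = x (ix 4 3) := by
      rw [rpt, if_neg (by decide +kernel), if_neg (by decide +kernel),
        if_neg (by decide +kernel), if_neg (by decide +kernel)]
    have a5 : rpt x (ix 6 0) = 0 := by
      rw [rpt, if_neg (by decide +kernel), if_neg (by decide +kernel), if_pos rfl]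
    have a6 : rpt x (ix 9 3) = 0 := by
      rw [rpt, if_neg (by decide +kernel), if_neg (by decide +kernel),
        if_neg (by decide +kernel), if_pos rfl]
    have h3 := h.c3 (rpt x) (x (ix 4 1)) (x (ix 4 3)) a5 a6 (by rw [a2, a1]; ring)
      (by rw [a4, a3]; ring) x1 x2
    rw [map_sub, map_mul, eval_G0, a5, a6] at h3
    rw [eval_Rho, map_zero]
    linear_combination h3

/-! ## Conclusion -/

theorem coeff_two {s : Low 10 →₀ ℕ} {a b : Low 10} (φ : A10) (h : s a = 0 ∨ s b = 0) :
    coeff s (X a * X b * φ) = 0 := by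
  classical
  rcases h with h | h
  · rw [mul_assoc, coeff_X_mul', if_neg]
    rw [Finsupp.mem_support_iff]
    exact fun h' => h' h
  · have e : (X a * X b * φ : A10) = X b * (X a * φ) := by ring
    rw [e, coeff_X_mul', if_neg]
    rw [Finsupp.mem_support_iff]
    exact fun h' => h' h

theorem coeff_two_add (m : Low 10 →₀ ℕ) {a b : Low 10} (φ : A10) :
    coeff (m + Finsupp.single a 1 + Finsupp.single b 1) (X a * X b * φ) = coeff m φ := by
  have e : (X a * X b * φ : A10) = φ * X a * X b := by ring
  rw [e, coeff_mul_X, coeff_mul_X]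

theorem coeff_G0 (s : Low 10 →₀ ℕ) (φ : A10) : coeff s (G0 * φ) =
    -(coeff s (X (ix 3 0) * X (ix 9 3) * φ)) - coeff s (X (ix 6 0) * X (ix 9 6) * φ) := by
  have e : G0 * φ = -(X (ix 3 0) * X (ix 9 3) * φ) - X (ix 6 0) * X (ix 9 6) * φ := by
    unfold G0; ring
  rw [e, coeff_sub, coeff_neg]

/-- The coefficients of `φ` at the monomials without `a, d`. -/
theorem phi1 {P φ : A10} (h : Cond (P - G0 * φ)) (m : Low 10 →₀ ℕ) (h1 : m (ix 6 0) = 0)
    (h2 : m (ix 5 1) = 0) (h3 : m (ix 4 1) = 0) :
    coeff (m + Finsupp.single (ix 3 0) 1 + Finsupp.single (ix 9 3) 1) P = - coeff m φ := by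
  have hm := K1 h (m + Finsupp.single (ix 3 0) 1 + Finsupp.single (ix 9 3) 1)
    (by rw [Finsupp.add_apply, Finsupp.add_apply, h1, single_off (by decide +kernel),
          single_off (by decide +kernel)])
    (by rw [Finsupp.add_apply, Finsupp.add_apply, h2, single_off (by decide +kernel),
          single_off (by decide +kernel)])
    (by rw [Finsupp.add_apply, Finsupp.add_apply, h3, single_off (by decide +kernel),
          single_off (by decide +kernel)])
  rw [coeff_sub, coeff_G0, coeff_two_add, coeff_two] at hm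
  · linear_combination hm
  · left
    rw [Finsupp.add_apply, Finsupp.add_apply, h1, single_off (by decide +kernel),
      single_off (by decide +kernel)]

/-- The coefficients of `φ` at the monomials without `e, h`. -/
theorem phi2 {P φ : A10} (h : Cond (P - G0 * φ)) (m : Low 10 →₀ ℕ) (h1 : m (ix 9 3) = 0)
    (h2 : m (ix 5 3) = 0) (h3 : m (ix 4 3) = 0) :
    coeff (m + Finsupp.single (ix 6 0) 1 + Finsupp.single (ix 9 6) 1) P = - coeff m φ := by
  have hm := K2 h (m + Finsupp.single (ix 6 0) 1 + Finsupp.single (ix 9 6) 1)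
    (by rw [Finsupp.add_apply, Finsupp.add_apply, h1, single_off (by decide +kernel),
          single_off (by decide +kernel)])
    (by rw [Finsupp.add_apply, Finsupp.add_apply, h2, single_off (by decide +kernel),
          single_off (by decide +kernel)])
    (by rw [Finsupp.add_apply, Finsupp.add_apply, h3, single_off (by decide +kernel),
          single_off (by decide +kernel)])
  rw [coeff_sub, coeff_G0, coeff_two_add, coeff_two] at hm
  · linear_combination hm
  · right
    rw [Finsupp.add_apply, Finsupp.add_apply, h1, single_off (by decide +kernel),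
      single_off (by decide +kernel)]

/-- The conclusion for the standard monomials. -/
theorem concl {P φ : A10} (h : Cond (P - G0 * φ)) (hP : ∀ s, coeff s P ≠ 0 → Good s) :
    P = 0 := by
  classical
  ext s
  rw [coeff_zero]
  by_contra hne
  have hg := hP s hne
  obtain ⟨g0, g1, g2, g3, g4, g5, g6, g7, g8, g9, g10⟩ := hg
  apply hne
  by_cases ha : s (ix 6 0) = 0
  · by_cases hh : s (ix 9 3) = 0
    · rw [← coeff_Rho hP (hP s hne) ha hh, Rho_zero h, coeff_zero]
    · have k1 := g4.resolve_right hh
      have k2 := g5.resolve_right hh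
      by_cases hr : s (ix 3 0) = 0
      · have h1 := K1 h s ha k1 k2
        rw [coeff_sub, coeff_G0, coeff_two φ (Or.inl hr),
          coeff_two φ (Or.inl ha)] at h1
        linear_combination h1
      · have k3 := (g8.resolve_left hr).resolve_left hh
        have k4 := (g9.resolve_left hr).resolve_left hh
        have k5 := g10.resolve_left hr
        have hle : Finsupp.single (ix 3 0) 1 + Finsupp.single (ix 9 3) 1 ≤ s := by
          intro j
          rw [Finsupp.add_apply]
          by_cases e1 : ix 3 0 = j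
          · rw [← e1, Finsupp.single_eq_same, single_off (by decide +kernel)]
            omega
          · rw [single_off e1]
            by_cases e2 : ix 9 3 = j
            · rw [← e2, Finsupp.single_eq_same]
              omega
            · rw [single_off e2]
              omega
        obtain ⟨m, hm⟩ := exists_add_of_le hle
        have hm' : s = m + Finsupp.single (ix 3 0) 1 + Finsupp.single (ix 9 3) 1 := by
          rw [hm, add_comm, add_assoc]
        have v : ∀ j, s j = m j + Finsupp.single (ix 3 0) 1 j + Finsupp.single (ix 9 3) 1 j := by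
          intro j
          rw [hm', Finsupp.add_apply, Finsupp.add_apply]
        have m60 : m (ix 6 0) = 0 := by have := v (ix 6 0); omega
        have m51 : m (ix 5 1) = 0 := by have := v (ix 5 1); omega
        have m41 : m (ix 4 1) = 0 := by have := v (ix 4 1); omega
        have m53 : m (ix 5 3) = 0 := by have := v (ix 5 3); omega
        have m43 : m (ix 4 3) = 0 := by have := v (ix 4 3); omega
        have m93 : m (ix 9 3) = 0 := by
          have := v (ix 9 3)
          rw [Finsupp.single_eq_same] at this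
          omega
        have e1 := phi1 h m m60 m51 m41
        have e2 := phi2 h m m93 m53 m43
        have e3 : coeff (m + Finsupp.single (ix 6 0) 1 + Finsupp.single (ix 9 6) 1) P = 0 := by
          by_contra hc
          have hg' := (hP _ hc).2.2.2.2.2.2.2.1
          rw [Finsupp.add_apply, Finsupp.add_apply, Finsupp.add_apply, Finsupp.add_apply,
            Finsupp.single_eq_same, Finsupp.single_eq_same] at hg'
          omega
        rw [hm', e1, ← e2, e3]
  · have k1 := g1.resolve_left ha
    have k2 := g2.resolve_left ha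
    have k3 := g3.resolve_left ha
    have k4 := g7.resolve_left ha
    have h1 := K2 h s k3 k1 k2
    rw [coeff_sub, coeff_G0, coeff_two φ (Or.inr k3),
      coeff_two φ (Or.inr k4)] at h1
    linear_combination h1

/-- The quotient has no terms of degree `0` and `1`. -/
theorem quot_zero {φ : A10} (h : Cond (0 - G0 * φ)) {k : ℕ} (hk : k ≤ 1)
    (hφ : φ.IsHomogeneous k) : φ = 0 := by
  ext m
  rw [coeff_zero]
  by_cases hd : m.degree = k
  · by_cases h1 : m (ix 6 0) = 0 ∧ m (ix 5 1) = 0 ∧ m (ix 4 1) = 0
    · have := phi1 h m h1.1 h1.2.1 h1.2.2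
      rw [coeff_zero] at this
      linear_combination this
    · have d1 := two_le_degree (s := m) (i := ix 6 0) (j := ix 9 3) (by decide +kernel)
      have d2 := two_le_degree (s := m) (i := ix 6 0) (j := ix 5 3) (by decide +kernel)
      have d3 := two_le_degree (s := m) (i := ix 6 0) (j := ix 4 3) (by decide +kernel)
      have d4 := two_le_degree (s := m) (i := ix 5 1) (j := ix 9 3) (by decide +kernel)
      have d5 := two_le_degree (s := m) (i := ix 5 1) (j := ix 5 3) (by decide +kernel)
      have d6 := two_le_degree (s := m) (i := ix 5 1) (j := ix 4 3) (by decide +kernel)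
      have d7 := two_le_degree (s := m) (i := ix 4 1) (j := ix 9 3) (by decide +kernel)
      have d8 := two_le_degree (s := m) (i := ix 4 1) (j := ix 5 3) (by decide +kernel)
      have d9 := two_le_degree (s := m) (i := ix 4 1) (j := ix 4 3) (by decide +kernel)
      have := phi2 h m (by omega) (by omega) (by omega)
      rw [coeff_zero] at this
      linear_combination this
  · exact hφ.coeff_eq_zero hd

theorem quot_step {f q : A10} {k : ℕ} (hf : f ∈ originIdeal (Low 10) ^ (k + 2))
    (hq : q ∈ originIdeal (Low 10) ^ k) (hz : Phi (f - FF * q) = 0) :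
    Cond (homogeneousComponent (k + 2) f - G0 * homogeneousComponent k q) := by
  have hψ : f - FF * q ∈ originIdeal (Low 10) ^ (k + 2) :=
    Ideal.sub_mem _ hf (org_mul FF_mem hq (by ring))
  have h := cond_of hz hψ
  have e : homogeneousComponent (k + 2) (f - FF * q) =
      homogeneousComponent (k + 2) f - G0 * homogeneousComponent k q := by
    rw [map_sub]
    congr 1
    have hh := G0_hom.mul (homogeneousComponent_isHomogeneous k q)
    rw [show 2 + k = k + 2 by ring] at hh
    exact comp_lead hh (FF_comp hq)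
  rwa [e] at h

theorem comp_zero {f : A10} {k : ℕ} (hf : f ∈ originIdeal (Low 10) ^ (k + 1)) :
    homogeneousComponent k f = 0 := by
  ext s
  rw [coeff_homogeneousComponent, coeff_zero]
  split_ifs with hs
  · exact (mem_origin_pow _ _).mp hf s (by omega)
  · rfl

theorem quot_next {f q : A10} {k : ℕ} (hk : k ≤ 1)
    (hf : f ∈ originIdeal (Low 10) ^ (k + 3))
    (hq : q ∈ originIdeal (Low 10) ^ k) (hz : Phi (f - FF * q) = 0) :
    q ∈ originIdeal (Low 10) ^ (k + 1) := by
  have h := quot_step (org_le hf (by omega)) hq hz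
  rw [comp_zero (k := k + 2) hf] at h
  have h2 := quot_zero h hk (homogeneousComponent_isHomogeneous k q)
  have h3 := sub_homog_mem hq
  rwa [h2, sub_zero] at h3

/-- The standard monomials are independent in degrees `2` and `4`. -/
theorem indep {P : A10} {i : ℕ} (hi : i = 2 ∨ i = 4) (hP : ∀ s, coeff s P ≠ 0 → s ∈ N1 i)
    (h : Init I1 i P) : P = 0 := by
  obtain ⟨hh, g, hg, hm⟩ := h
  have hP' : ∀ s, coeff s P ≠ 0 → Good s := fun s hs => ((mem_N1 i s).mp (hP s hs)).2
  have hOP : Om P = P := Om_fix fun s hs => (hP' s hs).1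
  have hf : Om (P + g) = P + Om g := by rw [map_add, hOP]
  have hfm : Om (P + g) ∈ originIdeal (Low 10) ^ i :=
    Om_mem (Ideal.add_mem _ (homog_mem hh) (org_le hg (by omega)))
  have hlead : homogeneousComponent i (Om (P + g)) = P := by
    apply comp_lead hh
    rw [hf, add_sub_cancel_left]
    exact Om_mem hg
  obtain ⟨q, hq⟩ := exists_quot (f := Om (P + g)) (by
    intro z hz
    rw [eval_Om]
    exact mem_vanishingIdeal_iff.mp hm _ (opt_mem z hz))
  have q0 : q ∈ originIdeal (Low 10) ^ 0 := by
    rw [pow_zero, Ideal.one_eq_top]; exact Submodule.mem_top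
  rcases hi with rfl | rfl
  · have h2 := quot_step (k := 0) hfm q0 hq
    rw [zero_add, hlead] at h2
    exact concl h2 hP'
  · have q1 := quot_next (k := 0) (by norm_num) (org_le hfm (by norm_num)) q0 hq
    have q2 := quot_next (k := 1) (by norm_num) (org_le hfm (by norm_num)) q1 hq
    have h2 := quot_step (k := 2) hfm q2 hq
    rw [show 2 + 2 = 4 from rfl, hlead] at h2
    exact concl h2 hP'

end Pool.Agent.W442.SN
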