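import Mathlib
import Pool.Agent.W442.SN.Cell

open MvPolynomial Finset

namespace Pool.Agent.W442.SN

open Pool.Agent.W442.SV Pool.Agent.W308.SV

theorem X_mul_X (a b : Low 10) :
    (X a * X b : A10) = monomial (Finsupp.single a 1 + Finsupp.single b 1) 1 := by
  rw [X, X, monomial_mul, one_mul]

theorem single_two_le {s : Low 10 →₀ ℕ} {a b : Low 10} (hab : a ≠ b) (ha : s a ≠ 0)
    (hb : s b ≠ 0) : Finsupp.single a 1 + Finsupp.single b 1 ≤ s := by
  intro j
  rw [Finsupp.add_apply]
  by_cases h1 : a = j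
  · subst h1
    rw [Finsupp.single_eq_same, single_off hab.symm]
    omega
  · by_cases h2 : b = j
    · subst h2
      rw [Finsupp.single_eq_same, single_off h1]
      omega
    · rw [single_off h1, single_off h2]
      exact Nat.zero_le _

theorem mono1 {i : ℕ} {a : Low 10} (h : Init I1 1 (X a)) {s : Low 10 →₀ ℕ}
    (hs : s.degree = i) (ha : s a ≠ 0) : Init I1 i (monomial s 1) :=
  Init.mono h (Finsupp.single_le_iff.mpr (Nat.one_le_iff_ne_zero.mpr ha)) hs

theorem mono2 {i : ℕ} {a b : Low 10} (hab : a ≠ b) (h : Init I1 2 (X a * X b))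
    {s : Low 10 →₀ ℕ} (hs : s.degree = i) (ha : s a ≠ 0) (hb : s b ≠ 0) :
    Init I1 i (monomial s 1) := by
  rw [X_mul_X] at h
  exact Init.mono h (single_two_le hab ha hb) hs

theorem move {i : ℕ} {ε : ℂ} {a b c d : Low 10} (hab : a ≠ b)
    (h : Init I1 2 (X a * X b - C ε * (X c * X d))) {s : Low 10 →₀ ℕ} (hs : s.degree = i)
    (ha : s a ≠ 0) (hb : s b ≠ 0) : ∃ m : Low 10 →₀ ℕ,
      s = m + (Finsupp.single a 1 + Finsupp.single b 1) ∧
      (m + (Finsupp.single c 1 + Finsupp.single d 1)).degree = i ∧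
      Init I1 i (monomial s 1 -
        C ε * monomial (m + (Finsupp.single c 1 + Finsupp.single d 1)) 1) := by
  obtain ⟨m, hm⟩ := exists_add_of_le (single_two_le hab ha hb)
  have hd : m.degree + 2 = i := by
    rw [hm, map_add, map_add, Finsupp.degree_single, Finsupp.degree_single] at hs
    omega
  refine ⟨m, by rw [hm, add_comm], ?_, ?_⟩
  · rw [map_add, map_add, Finsupp.degree_single, Finsupp.degree_single]
    omega
  · have h2 := h.mul (isHomogeneous_monomial (n := m.degree) (1 : ℂ) rfl) (k := i) (by omega)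
    rw [X_mul_X, X_mul_X, sub_mul, mul_assoc, monomial_mul, monomial_mul, one_mul] at h2
    rw [hm, add_comm m]
    exact h2

theorem lin_init {j : Low 10} (hj : j ∈ Lin) : Init I1 1 (X j) := by
  unfold Lin at hj
  simp only [mem_insert, mem_singleton] at hj
  rcases hj with rfl | rfl | rfl | rfl | rfl | rfl | rfl
  exacts [l50, l40, l20, l90, l91, l80, l97]

theorem red_all (i c : ℕ) : ∀ (k : ℕ) (s : Low 10 →₀ ℕ), s.degree = i → s (ix 4 1) = k →
    s (ix 7 0) = c → Red I1 i ((N1 i).filter fun t => t (ix 7 0) = c) (monomial s 1) := by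
  intro k
  induction k with
  | zero => ?_
  | succ k ih => ?_
  all_goals
    intro s hs hk hc
    by_cases hL : L0 s
    swap
    · unfold L0 at hL
      push Not at hL
      obtain ⟨j, hj, hj'⟩ := hL
      exact Red.of_init (mono1 (lin_init hj) hs hj')
    by_cases c1 : s (ix 6 0) ≠ 0 ∧ s (ix 5 3) ≠ 0
    · exact Red.of_init (mono2 (by decide +kernel) k_ae1 hs c1.1 c1.2)
    by_cases c2 : s (ix 6 0) ≠ 0 ∧ s (ix 4 3) ≠ 0
    · exact Red.of_init (mono2 (by decide +kernel) k_ae2 hs c2.1 c2.2)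
    by_cases c3 : s (ix 6 0) ≠ 0 ∧ s (ix 9 3) ≠ 0
    · exact Red.of_init (mono2 (by decide +kernel) k_ah hs c3.1 c3.2)
    by_cases c4 : s (ix 5 1) ≠ 0 ∧ s (ix 9 3) ≠ 0
    · exact Red.of_init (mono2 (by decide +kernel) k_d1h hs c4.1 c4.2)
    by_cases c5 : s (ix 4 1) ≠ 0 ∧ s (ix 9 3) ≠ 0
    · exact Red.of_init (mono2 (by decide +kernel) k_d2h hs c5.1 c5.2)
    by_cases c6 : s (ix 6 0) ≠ 0 ∧ s (ix 9 6) ≠ 0
    · have hG : Init I1 2 (X (ix 6 0) * X (ix 9 6) - C (-1) * (X (ix 9 3) * X (ix 3 0))) := by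
        have e : (X (ix 6 0) * X (ix 9 6) - C (-1) * (X (ix 9 3) * X (ix 3 0)) : A10) =
            X (ix 6 0) * X (ix 9 6) + X (ix 3 0) * X (ix 9 3) := by
          rw [map_neg, C_1]
          ring
        rw [e]
        exact k_G
      obtain ⟨m, hm, hd, hI⟩ := move (by decide +kernel) hG hs c6.1 c6.2
      refine Red.congr hI (Red.smul _ ?_)
      set s' := m + (Finsupp.single (ix 9 3) 1 + Finsupp.single (ix 3 0) 1) with hs'
      have hsa := c6.1
      have hsq := c6.2
      have v : ∀ j, s j = m j + (Finsupp.single (ix 6 0) 1 j + Finsupp.single (ix 9 6) 1 j) := by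
        intro j
        rw [hm, Finsupp.add_apply, Finsupp.add_apply]
      have v' : ∀ j, s' j = m j +
          (Finsupp.single (ix 9 3) 1 j + Finsupp.single (ix 3 0) 1 j) := by
        intro j
        rw [hs', Finsupp.add_apply, Finsupp.add_apply]
      have a1 := v (ix 6 0)
      have a2 := v (ix 5 3)
      have a3 := v (ix 4 3)
      have a4 := v (ix 9 3)
      have b1 := v' (ix 6 0)
      have b2 := v' (ix 5 3)
      have b3 := v' (ix 4 3)
      have b4 := v' (ix 9 3)
      have b5 := v' (ix 3 0)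
      have b6 := v' (ix 5 1)
      have b7 := v' (ix 4 1)
      rw [Finsupp.single_eq_same] at a1 b4 b5
      rw [single_off (by decide +kernel), single_off (by decide +kernel)] at a2 a3 a4 b1 b2 b3 b6 b7
      rw [single_off (by decide +kernel)] at a1 b4 b5
      have a5 := v (ix 7 0)
      have b8 := v' (ix 7 0)
      rw [single_off (by decide +kernel), single_off (by decide +kernel)] at a5 b8
      by_cases c7 : s' (ix 6 0) ≠ 0
      · exact Red.of_init (mono2 (by decide +kernel) k_ah hd c7 (by omega))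
      by_cases c8 : s' (ix 5 1) ≠ 0
      · exact Red.of_init (mono2 (by decide +kernel) k_d1h hd c8 (by omega))
      by_cases c9 : s' (ix 4 1) ≠ 0
      · exact Red.of_init (mono2 (by decide +kernel) k_d2h hd c9 (by omega))
      apply Red.of_mem
      rw [mem_filter, mem_N1]
      refine ⟨⟨hd, ?_, ?_⟩, by omega⟩
      · intro j hj
        have := hL j hj
        rw [v j, single_lin ne_lin.1 hj, single_lin ne_lin.2.2.2.2.2.2.1 hj] at this
        rw [v' j, single_lin ne_lin.2.1 hj, single_lin ne_lin.2.2.2.2.2.2.2 hj]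
        exact this
      · push Not at c7 c8 c9
        have k1 : s' (ix 5 3) = 0 := by omega
        have k2 : s' (ix 4 3) = 0 := by omega
        have k3 : s' (ix 9 3) = 1 := by omega
        exact ⟨Or.inl c7, Or.inl c7, Or.inl c7, Or.inl c8, Or.inl c9, Or.inl c9, Or.inl c7,
          Or.inr (Or.inr k1), Or.inr (Or.inr k2), Or.inr k3.le⟩
    by_cases c10 : s (ix 3 0) ≠ 0 ∧ s (ix 9 3) ≠ 0 ∧
        (s (ix 5 3) ≠ 0 ∨ s (ix 4 3) ≠ 0 ∨ 2 ≤ s (ix 9 3))
    · have hG : Init I1 2 (X (ix 3 0) * X (ix 9 3) - C (-1) * (X (ix 6 0) * X (ix 9 6))) := by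
        have e : (X (ix 3 0) * X (ix 9 3) - C (-1) * (X (ix 6 0) * X (ix 9 6)) : A10) =
            X (ix 6 0) * X (ix 9 6) + X (ix 3 0) * X (ix 9 3) := by
          rw [map_neg, C_1]
          ring
        rw [e]
        exact k_G
      obtain ⟨m, hm, hd, hI⟩ := move (by decide +kernel) hG hs c10.1 c10.2.1
      refine Red.congr hI (Red.smul _ ?_)
      set s' := m + (Finsupp.single (ix 6 0) 1 + Finsupp.single (ix 9 6) 1) with hs'
      have v : ∀ j, s j = m j + (Finsupp.single (ix 3 0) 1 j + Finsupp.single (ix 9 3) 1 j) := by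
        intro j
        rw [hm, Finsupp.add_apply, Finsupp.add_apply]
      have v' : ∀ j, s' j = m j +
          (Finsupp.single (ix 6 0) 1 j + Finsupp.single (ix 9 6) 1 j) := by
        intro j
        rw [hs', Finsupp.add_apply, Finsupp.add_apply]
      have a1 := v (ix 9 3)
      have a2 := v (ix 5 3)
      have a3 := v (ix 4 3)
      have b1 := v' (ix 6 0)
      have b2 := v' (ix 5 3)
      have b3 := v' (ix 4 3)
      have b4 := v' (ix 9 3)
      rw [Finsupp.single_eq_same] at a1 b1
      rw [single_off (by decide +kernel), single_off (by decide +kernel)] at a2 a3 b2 b3 b4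
      rw [single_off (by decide +kernel)] at a1 b1
      rcases c10.2.2 with h | h | h
      · exact Red.of_init (mono2 (by decide +kernel) k_ae1 hd (by omega) (by omega))
      · exact Red.of_init (mono2 (by decide +kernel) k_ae2 hd (by omega) (by omega))
      · exact Red.of_init (mono2 (by decide +kernel) k_ah hd (by omega) (by omega))
    by_cases c11 : s (ix 4 1) ≠ 0 ∧ s (ix 5 3) ≠ 0
  · exact absurd hk c11.1
  · apply Red.of_mem
    rw [mem_filter, mem_N1]
    refine ⟨⟨hs, hL, ?_⟩, hc⟩
    clear hc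
    omega
  · have hG : Init I1 2 (X (ix 4 1) * X (ix 5 3) - C 1 * (X (ix 5 1) * X (ix 4 3))) := by
      rw [C_1, one_mul]
      exact k_dd
    obtain ⟨m, hm, hd, hI⟩ := move (by decide +kernel) hG hs c11.1 c11.2
    refine Red.congr hI (Red.smul _ (ih _ hd ?_ ?_))
    swap
    · have w : s (ix 7 0) =
          m (ix 7 0) + (Finsupp.single (ix 4 1) 1 (ix 7 0) + Finsupp.single (ix 5 3) 1 (ix 7 0)) := by
        rw [hm, Finsupp.add_apply, Finsupp.add_apply]
      rw [single_off (by decide +kernel), single_off (by decide +kernel)] at w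
      rw [Finsupp.add_apply, Finsupp.add_apply, single_off (by decide +kernel),
        single_off (by decide +kernel)]
      omega
    have v : s (ix 4 1) =
        m (ix 4 1) + (Finsupp.single (ix 4 1) 1 (ix 4 1) + Finsupp.single (ix 5 3) 1 (ix 4 1)) := by
      rw [hm, Finsupp.add_apply, Finsupp.add_apply]
    rw [Finsupp.single_eq_same, single_off (by decide +kernel)] at v
    rw [Finsupp.add_apply, Finsupp.add_apply, single_off (by decide +kernel),
      single_off (by decide +kernel)]
    omega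
  · apply Red.of_mem
    rw [mem_filter, mem_N1]
    refine ⟨⟨hs, hL, ?_⟩, hc⟩
    clear hc
    omega

theorem red_N (i : ℕ) (s : Low 10 →₀ ℕ) (hs : s.degree = i) :
    Red I1 i (N1 i) (monomial s 1) := by
  obtain ⟨f, hf, hf'⟩ := red_all i (s (ix 7 0)) _ s hs rfl rfl
  exact ⟨f, fun t ht => (mem_filter.mp (hf t ht)).1, hf'⟩

/-- The exponent of `X a * X b * X c * X d * X e`. -/
noncomputable def m5 (a b c d e : Low 10) : Low 10 →₀ ℕ :=
  Finsupp.single a 1 + (Finsupp.single b 1 + (Finsupp.single c 1 + (Finsupp.single d 1 +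
    Finsupp.single e 1)))

theorem monomial_m5 (a b c d e : Low 10) :
    (monomial (m5 a b c d e) 1 : A10) = X a * X b * X c * X d * X e := by
  unfold m5
  simp only [X]
  rw [monomial_mul, monomial_mul, monomial_mul, monomial_mul]
  congr 1
  · simp only [add_assoc]
  · norm_num

theorem degree_m5 (a b c d e : Low 10) : (m5 a b c d e).degree = 5 := by
  unfold m5
  simp only [map_add, Finsupp.degree_single]

/-- The three monomials that can be removed in degree 5. -/
noncomputable def Spec : Finset (Low 10 →₀ ℕ) :=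
  {m5 (ix 7 0) (ix 8 7) (ix 9 8) (ix 5 1) (ix 5 3), m5 (ix 7 0) (ix 8 7) (ix 9 8) (ix 5 1) (ix 4 3),
    m5 (ix 7 0) (ix 8 7) (ix 9 8) (ix 4 1) (ix 4 3)}

theorem spec_s {t : Low 10 →₀ ℕ} (ht : t ∈ Spec) : t (ix 7 0) = 1 := by
  unfold Spec at ht
  simp only [mem_insert, mem_singleton] at ht
  rcases ht with rfl | rfl | rfl
  all_goals
    unfold m5
    simp only [Finsupp.add_apply]
    rw [Finsupp.single_eq_same, single_off (by decide +kernel), single_off (by decide +kernel),
      single_off (by decide +kernel), single_off (by decide +kernel)]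
    rfl

/-- The standard monomials of degree 5. -/
noncomputable def N5 : Finset (Low 10 →₀ ℕ) := N1 5 \ Spec

theorem mem_N5 (t : Low 10 →₀ ℕ) : t ∈ N5 ↔ t ∈ N1 5 ∧ t ∉ Spec := by
  unfold N5
  rw [mem_sdiff]

theorem red0 (a b c d e : Low 10) (ha : a ≠ ix 7 0) (hb : b ≠ ix 7 0) (hc : c ≠ ix 7 0)
    (hd : d ≠ ix 7 0) (he : e ≠ ix 7 0) : Red I1 5 N5 (X a * X b * X c * X d * X e) := by
  rw [← monomial_m5]
  obtain ⟨f, hf, hf'⟩ := red_all 5 0 _ (m5 a b c d e) (degree_m5 a b c d e) rfl (by
    unfold m5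
    simp only [Finsupp.add_apply]
    rw [single_off ha, single_off hb, single_off hc, single_off hd, single_off he]
    rfl)
  refine ⟨f, fun t ht => ?_, hf'⟩
  have h := hf t ht
  rw [mem_filter] at h
  rw [mem_N5]
  refine ⟨h.1, fun h2 => ?_⟩
  have h3 := spec_s h2
  rw [h.2] at h3
  exact absurd h3 (by norm_num)

theorem red_spec (d e d' e' : Low 10) (hQ : Init I1 5 (QQ d e d' e')) (hd : d ≠ ix 7 0)
    (he : e ≠ ix 7 0) (hd' : d' ≠ ix 7 0) (he' : e' ≠ ix 7 0) :
    Red I1 5 N5 (X (ix 7 0) * X (ix 8 7) * X (ix 9 8) * X d * X e') := by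
  have e1 : (X (ix 7 0) * X (ix 8 7) * X (ix 9 8) * X d * X e' : A10) - (
      X (ix 6 3) * X (ix 1 0) * X (ix 9 6) * X d * X d' +
      (X (ix 3 0) * X (ix 2 1) * X (ix 9 2) * X e * X e' +
      (X (ix 3 0) * X (ix 6 3) * X (ix 9 6) * X d * X e' +
      (X (ix 3 0) * X (ix 5 3) * X (ix 9 5) * X d * X e' +
      (X (ix 3 0) * X (ix 4 3) * X (ix 9 4) * X d * X e' +
      (X (ix 1 0) * X (ix 5 1) * X (ix 9 5) * X d * X e' +
      (X (ix 1 0) * X (ix 4 1) * X (ix 9 4) * X d * X e' +
      X (ix 1 0) * X (ix 2 1) * X (ix 9 2) * X d * X e'))))))) = -(QQ d e d' e') := by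
    unfold QQ F3
    ring
  refine Red.congr (by rw [e1]; exact hQ.neg) ?_
  have hh : ∀ j : Low 10, j = ix 6 3 ∨ j = ix 1 0 ∨ j = ix 9 6 ∨ j = ix 3 0 ∨ j = ix 2 1 ∨
      j = ix 9 2 ∨ j = ix 5 3 ∨ j = ix 9 5 ∨ j = ix 4 3 ∨ j = ix 9 4 ∨ j = ix 5 1 ∨
      j = ix 4 1 → j ≠ ix 7 0 := by decide +kernel
  refine (red0 _ _ _ _ _ (hh _ (by tauto)) (hh _ (by tauto)) (hh _ (by tauto)) hd hd').add
    ((red0 _ _ _ _ _ (hh _ (by tauto)) (hh _ (by tauto)) (hh _ (by tauto)) he he').add
    ((red0 _ _ _ _ _ (hh _ (by tauto)) (hh _ (by tauto)) (hh _ (by tauto)) hd he').add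
    ((red0 _ _ _ _ _ (hh _ (by tauto)) (hh _ (by tauto)) (hh _ (by tauto)) hd he').add
    ((red0 _ _ _ _ _ (hh _ (by tauto)) (hh _ (by tauto)) (hh _ (by tauto)) hd he').add
    ((red0 _ _ _ _ _ (hh _ (by tauto)) (hh _ (by tauto)) (hh _ (by tauto)) hd he').add
    ((red0 _ _ _ _ _ (hh _ (by tauto)) (hh _ (by tauto)) (hh _ (by tauto)) hd he').add
    (red0 _ _ _ _ _ (hh _ (by tauto)) (hh _ (by tauto)) (hh _ (by tauto)) hd he')))))))

theorem red_N5 (s : Low 10 →₀ ℕ) (hs : s.degree = 5) : Red I1 5 N5 (monomial s 1) := by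
  refine Red.trans (red_N 5 s hs) fun t ht => ?_
  by_cases h : t ∈ Spec
  · unfold Spec at h
    simp only [mem_insert, mem_singleton] at h
    rcases h with rfl | rfl | rfl
    · rw [monomial_m5]
      exact red_spec _ _ _ _ k_Q11 (by decide +kernel) (by decide +kernel) (by decide +kernel)
        (by decide +kernel)
    · rw [monomial_m5]
      exact red_spec _ _ _ _ k_Q12 (by decide +kernel) (by decide +kernel) (by decide +kernel)
        (by decide +kernel)
    · rw [monomial_m5]
      exact red_spec _ _ _ _ k_Q22 (by decide +kernel) (by decide +kernel) (by decide +kernel)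
        (by decide +kernel)
  · apply Red.of_mem
    rw [mem_N5]
    exact ⟨ht, h⟩

theorem m5_apply (a b c d e j : Low 10) : m5 a b c d e j = (if a = j then 1 else 0) +
    ((if b = j then 1 else 0) + ((if c = j then 1 else 0) + ((if d = j then 1 else 0) +
      (if e = j then 1 else 0)))) := by
  unfold m5
  simp only [Finsupp.add_apply, Finsupp.single_apply]

theorem spec_sub : Spec ⊆ N1 5 := by
  rw [Finset.subset_iff]
  intro t ht
  unfold Spec at ht
  simp only [mem_insert, mem_singleton] at ht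
  rcases ht with rfl | rfl | rfl
  all_goals
    rw [mem_N1]
    refine ⟨degree_m5 _ _ _ _ _, ?_⟩
    unfold Good L0
    simp only [m5_apply]
    decide +kernel

theorem card_Spec : Spec.card = 3 := by
  unfold Spec
  rw [card_insert_of_notMem, card_insert_of_notMem, card_singleton]
  · rw [mem_singleton]
    intro h
    have := DFunLike.congr_fun h (ix 4 1)
    rw [m5_apply, m5_apply] at this
    revert this
    decide +kernel
  · rw [mem_insert, mem_singleton]
    rintro (h | h)
    · have := DFunLike.congr_fun h (ix 5 3)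
      rw [m5_apply, m5_apply] at this
      revert this
      decide +kernel
    · have := DFunLike.congr_fun h (ix 5 3)
      rw [m5_apply, m5_apply] at this
      revert this
      decide +kernel

theorem card_N5 : N5.card = 787643 := by
  unfold N5
  rw [card_sdiff_of_subset spec_sub, card_N1_five, card_Spec]

end Pool.Agent.W442.SN
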