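import Mathlib
import Pool.Agent.W442.SN.Low3
import Pool.Agent.W442.SN.Up2
import Pool.Agent.W410.SN.Tube
import Pool.Agent.W880.SN.Loc2

open MvPolynomial

set_option linter.unusedSimpArgs false

namespace Pool.Agent.W442.SN

open Pool.Agent.W442.SV Pool.Agent.W308.SV

theorem opt_zero : opt (ppt 0) = 0 := by
  funext j
  unfold opt ppt
  simp only [Pi.zero_apply, mul_zero, zero_mul, neg_zero, ite_self]

theorem zero_mem_tube : (0 : Low 10 → ℂ) ∈ tube v1 w1 := by
  have h := opt_mem 0 (by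
    rw [eval_F0]
    simp only [Pi.zero_apply, mul_zero, zero_mul, neg_zero, sub_zero, add_zero])
  rwa [opt_zero] at h

theorem slice_zero {n : ℕ} (v : Equiv.Perm (Fin n)) : slice v 0 = 0 := by
  funext j
  unfold slice
  simp only [Pi.zero_apply, ite_self]

theorem zero_mem_patch : (0 : Low 10 → ℂ) ∈ patch v1 w1 := by
  have h := zero_mem_tube
  unfold tube at h
  rw [Set.mem_ofPred_eq, slice_zero] at h
  exact h

/-- The ideal of the patch. -/
noncomputable abbrev IP : Ideal A10 := vanishingIdeal ℂ (patch v1 w1)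

theorem IP_le : IP ≤ originIdeal (Low 10) := by
  intro f hf
  exact mem_vanishingIdeal_iff.mp hf 0 zero_mem_patch

theorem I1_le : I1 ≤ originIdeal (Low 10) := by
  intro f hf
  exact mem_vanishingIdeal_iff.mp hf 0 zero_mem_tube

theorem init_iff (i : ℕ) (f : A10) : Init IP i f ↔ Init I1 i f :=
  Pool.Agent.W410.SN.main 10 v1 w1 i f

theorem indep0 {P : A10} (hP : ∀ s, coeff s P ≠ 0 → s ∈ N1 0) (h : Init I1 0 P) : P = 0 := by
  obtain ⟨hh, g, hg, hm⟩ := h
  have h1 := I1_le hm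
  have hg' : g ∈ originIdeal (Low 10) := by
    have := hg
    rwa [zero_add, pow_one] at this
  have h2 : P ∈ originIdeal (Low 10) := by
    have := Ideal.sub_mem _ h1 hg'
    rwa [add_sub_cancel_right] at this
  ext s
  rw [coeff_zero]
  by_contra hne
  have hs := ((mem_N1 0 s).mp (hP s hne)).1
  have hs0 : s = 0 := by
    rw [Finsupp.degree_eq_zero_iff] at hs
    exact hs
  rw [hs0] at hne
  exact hne ((mem_origin P).mp h2)

theorem hilb_le (i : ℕ) (N : Finset (Low 10 →₀ ℕ))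
    (h : ∀ s : Low 10 →₀ ℕ, s.degree = i → Red I1 i N (monomial s 1)) :
    hilb v1 w1 i ≤ N.card := by
  refine Pool.Agent.W880.SN.upper (Low 10) IP IP_le i N ?_
  intro s hs
  obtain ⟨f, hf, hf'⟩ := h s hs
  exact ⟨f, hf, (init_iff i _).mpr hf'⟩

theorem le_hilb (i : ℕ) (h : ∀ P : A10, (∀ s, coeff s P ≠ 0 → s ∈ N1 i) → Init I1 i P → P = 0) :
    (N1 i).card ≤ hilb v1 w1 i := by
  refine Pool.Agent.W880.SN.lower (Low 10) IP IP_le i (N1 i) ?_ ?_
  · intro s hs
    exact ((mem_N1 i s).mp hs).1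
  · intro f hf hi
    exact h f hf ((init_iff i _).mp hi)

theorem hilb0 : 1 ≤ hilb v1 w1 0 := by
  have := le_hilb 0 (fun P hP h => indep0 hP h)
  rwa [card_N1_zero] at this

theorem hilb1 : hilb v1 w1 1 ≤ 38 := (hilb_le 1 (N1 1) (red_N 1)).trans card_N1_one

theorem hilb2 : 734 ≤ hilb v1 w1 2 := by
  have := le_hilb 2 (fun P hP h => indep (Or.inl rfl) hP h)
  rwa [card_N1_two] at this

theorem hilb3 : hilb v1 w1 3 ≤ 9622 := by
  have := hilb_le 3 (N1 3) (red_N 3)
  rwa [card_N1_three] at this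

theorem hilb4 : 96393 ≤ hilb v1 w1 4 := by
  have := le_hilb 4 (fun P hP h => indep (Or.inr rfl) hP h)
  rwa [card_N1_four] at this

theorem hilb5 : hilb v1 w1 5 ≤ 787643 := by
  have := hilb_le 5 N5 red_N5
  rwa [card_N5] at this

theorem coeff_step (g : PowerSeries ℤ) (i : ℕ) :
    PowerSeries.coeff (i + 1) ((1 - PowerSeries.X) * g) =
      PowerSeries.coeff (i + 1) g - PowerSeries.coeff i g := by
  rw [sub_mul, one_mul, map_sub, PowerSeries.coeff_succ_X_mul]

theorem coeff_step0 (g : PowerSeries ℤ) :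
    PowerSeries.coeff 0 ((1 - PowerSeries.X) * g) = PowerSeries.coeff 0 g := by
  rw [sub_mul, one_mul, map_sub, PowerSeries.coeff_zero_X_mul, sub_zero]

theorem coeff_pow (f : PowerSeries ℤ) (n : ℕ) :
    PowerSeries.coeff 0 ((1 - PowerSeries.X) ^ n * f) = PowerSeries.coeff 0 f ∧
    PowerSeries.coeff 1 ((1 - PowerSeries.X) ^ n * f) =
      PowerSeries.coeff 1 f - n * PowerSeries.coeff 0 f ∧
    PowerSeries.coeff 2 ((1 - PowerSeries.X) ^ n * f) =
      PowerSeries.coeff 2 f - n * PowerSeries.coeff 1 f + n.choose 2 * PowerSeries.coeff 0 f ∧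
    PowerSeries.coeff 3 ((1 - PowerSeries.X) ^ n * f) =
      PowerSeries.coeff 3 f - n * PowerSeries.coeff 2 f + n.choose 2 * PowerSeries.coeff 1 f -
        n.choose 3 * PowerSeries.coeff 0 f ∧
    PowerSeries.coeff 4 ((1 - PowerSeries.X) ^ n * f) =
      PowerSeries.coeff 4 f - n * PowerSeries.coeff 3 f + n.choose 2 * PowerSeries.coeff 2 f -
        n.choose 3 * PowerSeries.coeff 1 f + n.choose 4 * PowerSeries.coeff 0 f ∧
    PowerSeries.coeff 5 ((1 - PowerSeries.X) ^ n * f) =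
      PowerSeries.coeff 5 f - n * PowerSeries.coeff 4 f + n.choose 2 * PowerSeries.coeff 3 f -
        n.choose 3 * PowerSeries.coeff 2 f + n.choose 4 * PowerSeries.coeff 1 f -
        n.choose 5 * PowerSeries.coeff 0 f := by
  induction n with
  | zero => simp
  | succ n ih =>
    obtain ⟨h0, h1, h2, h3, h4, h5⟩ := ih
    have e : ((1 : PowerSeries ℤ) - PowerSeries.X) ^ (n + 1) * f =
        (1 - PowerSeries.X) * ((1 - PowerSeries.X) ^ n * f) := by ring
    have c2 : (n + 1).choose 2 = n + n.choose 2 := by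
      rw [Nat.choose_succ_succ' n 1, Nat.choose_one_right]
    have c3 : (n + 1).choose 3 = n.choose 2 + n.choose 3 := Nat.choose_succ_succ' n 2
    have c4 : (n + 1).choose 4 = n.choose 3 + n.choose 4 := Nat.choose_succ_succ' n 3
    have c5 : (n + 1).choose 5 = n.choose 4 + n.choose 5 := Nat.choose_succ_succ' n 4
    rw [e, coeff_step0, coeff_step _ 0, coeff_step _ 1, coeff_step _ 2, coeff_step _ 3,
      coeff_step _ 4, c2, c3, c4, c5, h0]
    refine ⟨rfl, ?_, ?_, ?_, ?_, ?_⟩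
    · rw [zero_add, h1]
      push_cast
      ring
    · rw [one_add_one_eq_two, h2, h1]
      push_cast
      ring
    · rw [show (2 + 1 : ℕ) = 3 from rfl, h2, h3]
      push_cast
      ring
    · rw [show (3 + 1 : ℕ) = 4 from rfl, h3, h4]
      push_cast
      ring
    · rw [show (4 + 1 : ℕ) = 5 from rfl, h4, h5]
      push_cast
      ring

/-- The coefficient of `q ^ 5` is negative. -/
theorem hcoeff_neg : hcoeff v1 w1 5 < 0 := by
  rw [hcoeff, (coeff_pow _ _).2.2.2.2.2, PowerSeries.coeff_mk, PowerSeries.coeff_mk,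
    PowerSeries.coeff_mk, PowerSeries.coeff_mk, PowerSeries.coeff_mk, PowerSeries.coeff_mk, len_w1]
  have h0 : (1 : ℤ) ≤ hilb v1 w1 0 := by exact_mod_cast hilb0
  have h1 : (hilb v1 w1 1 : ℤ) ≤ 38 := by exact_mod_cast hilb1
  have h2 : (734 : ℤ) ≤ hilb v1 w1 2 := by exact_mod_cast hilb2
  have h3 : (hilb v1 w1 3 : ℤ) ≤ 9622 := by exact_mod_cast hilb3
  have h4 : (96393 : ℤ) ≤ hilb v1 w1 4 := by exact_mod_cast hilb4
  have h5 : (hilb v1 w1 5 : ℤ) ≤ 787643 := by exact_mod_cast hilb5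
  have k2 : Nat.choose 34 2 = 561 := by norm_num [Nat.choose]
  have k3 : Nat.choose 34 3 = 5984 := by norm_num [Nat.choose]
  have k4 : Nat.choose 34 4 = 46376 := by norm_num [Nat.choose]
  have k5 : Nat.choose 34 5 = 278256 := by norm_num [Nat.choose]
  rw [k2, k3, k4, k5]
  push_cast
  linarith

end Pool.Agent.W442.SN
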