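import Mathlib
import Pool.Agent.W442.SN.Fin
import Pool.Agent.W99.SN.Gr
import Pool.Agent.W395.SN.CMIso
import Pool.Agent.W417.SN.NotCM

open MvPolynomial Filter Topology

set_option linter.unusedSimpArgs false

namespace Pool.Agent.W442.SN

open Pool.Agent.W442.SV Pool.Agent.W308.SV

/-- The ideal of the tangent cone. -/
noncomputable abbrev JJ : Ideal A10 := initIdeal IP

theorem mem_JJ {f : A10} (hf : f ∈ JJ) (i : ℕ) : Init IP i (homogeneousComponent i f) := by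
  unfold JJ at hf
  rw [← Pool.Agent.W99.SN.Gr.ker_T2, RingHom.mem_ker, Pool.Agent.W99.SN.Gr.T2_zero] at hf
  exact hf i

theorem of_init {f : A10} {i : ℕ} (hf : Init I1 i f) : f ∈ JJ :=
  Ideal.subset_span ⟨i, (init_iff i f).mpr hf⟩

theorem JJ_homog : ∀ f ∈ JJ, ∀ i, homogeneousComponent i f ∈ JJ :=
  fun _ hf i => Ideal.subset_span ⟨i, mem_JJ hf i⟩

/-- The form `r h`. -/
noncomputable def xi : A10 := X (ix 3 0) * X (ix 9 3)

theorem xi_hom : xi.IsHomogeneous 2 := hom2 _ _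

theorem xi_eq : xi = monomial (Finsupp.single (ix 3 0) 1 + Finsupp.single (ix 9 3) 1) 1 :=
  X_mul_X _ _

theorem xi_ne : xi ≠ 0 := by
  rw [xi_eq]
  intro h
  rw [monomial_eq_zero] at h
  exact one_ne_zero h

theorem xi_notMem : xi ∉ JJ := by
  classical
  intro h
  have h1 := mem_JJ h 2
  rw [homogeneousComponent_of_mem xi_hom, if_pos rfl] at h1
  refine xi_ne (indep (Or.inl rfl) ?_ ((init_iff 2 xi).mp h1))
  intro s hs
  rw [xi_eq, coeff_monomial] at hs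
  split_ifs at hs with h2
  · rw [← h2, mem_N1]
    refine ⟨?_, ?_⟩
    · rw [map_add, Finsupp.degree_single, Finsupp.degree_single]
    · have e : ∀ j, j ≠ ix 3 0 → j ≠ ix 9 3 →
          (Finsupp.single (ix 3 0) 1 + Finsupp.single (ix 9 3) 1 : Low 10 →₀ ℕ) j = 0 := by
        intro j h3 h4
        rw [Finsupp.add_apply, single_off (Ne.symm h3), single_off (Ne.symm h4)]
      have e1 : (Finsupp.single (ix 3 0) 1 + Finsupp.single (ix 9 3) 1 : Low 10 →₀ ℕ) (ix 9 3)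
          = 1 := by
        rw [Finsupp.add_apply, Finsupp.single_eq_same, single_off (by decide +kernel)]
      refine ⟨?_, Or.inl (e _ (by decide +kernel) (by decide +kernel)),
        Or.inl (e _ (by decide +kernel) (by decide +kernel)),
        Or.inl (e _ (by decide +kernel) (by decide +kernel)),
        Or.inl (e _ (by decide +kernel) (by decide +kernel)),
        Or.inl (e _ (by decide +kernel) (by decide +kernel)),
        Or.inl (e _ (by decide +kernel) (by decide +kernel)),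
        Or.inl (e _ (by decide +kernel) (by decide +kernel)),
        Or.inr (Or.inr (e _ (by decide +kernel) (by decide +kernel))),
        Or.inr (Or.inr (e _ (by decide +kernel) (by decide +kernel))), Or.inr e1.le⟩
      intro j hj
      apply e
      · rintro rfl
        exact ne_lin.2.2.2.2.2.2.2 hj
      · rintro rfl
        exact ne_lin.2.1 hj
  · exact absurd rfl hs

def AA : Finset (Low 10) := {ix 6 0, ix 9 3, ix 5 1, ix 4 1, ix 5 3, ix 4 3} ∪ Lin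
def BB : Finset (Low 10) := {ix 6 0, ix 5 1, ix 4 1, ix 3 0} ∪ Lin

theorem card_AB : BB.card < AA.card := by decide +kernel

theorem mem_AA : ∀ j : Low 10, j ∈ AA → (j = ix 6 0 ∨ j = ix 9 3 ∨ j = ix 5 1 ∨ j = ix 4 1 ∨
    j = ix 5 3 ∨ j = ix 4 3) ∨ j ∈ Lin := by decide +kernel

theorem AA_xi (j : Low 10) (hj : j ∈ AA) : X j * xi ∈ JJ := by
  unfold xi
  rcases mem_AA j hj with (rfl | rfl | rfl | rfl | rfl | rfl) | h
  · have e : (X (ix 6 0) * (X (ix 3 0) * X (ix 9 3)) : A10) =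
        X (ix 3 0) * (X (ix 6 0) * X (ix 9 3)) := by ring
    rw [e]
    exact Ideal.mul_mem_left _ _ (of_init k_ah)
  · have e : (X (ix 9 3) * (X (ix 3 0) * X (ix 9 3)) : A10) =
        X (ix 9 3) * (X (ix 6 0) * X (ix 9 6) + X (ix 3 0) * X (ix 9 3)) -
        X (ix 9 6) * (X (ix 6 0) * X (ix 9 3)) := by ring
    rw [e]
    exact Ideal.sub_mem _ (Ideal.mul_mem_left _ _ (of_init k_G))
      (Ideal.mul_mem_left _ _ (of_init k_ah))
  · have e : (X (ix 5 1) * (X (ix 3 0) * X (ix 9 3)) : A10) =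
        X (ix 3 0) * (X (ix 5 1) * X (ix 9 3)) := by ring
    rw [e]
    exact Ideal.mul_mem_left _ _ (of_init k_d1h)
  · have e : (X (ix 4 1) * (X (ix 3 0) * X (ix 9 3)) : A10) =
        X (ix 3 0) * (X (ix 4 1) * X (ix 9 3)) := by ring
    rw [e]
    exact Ideal.mul_mem_left _ _ (of_init k_d2h)
  · have e : (X (ix 5 3) * (X (ix 3 0) * X (ix 9 3)) : A10) =
        X (ix 5 3) * (X (ix 6 0) * X (ix 9 6) + X (ix 3 0) * X (ix 9 3)) -
        X (ix 9 6) * (X (ix 6 0) * X (ix 5 3)) := by ring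
    rw [e]
    exact Ideal.sub_mem _ (Ideal.mul_mem_left _ _ (of_init k_G))
      (Ideal.mul_mem_left _ _ (of_init k_ae1))
  · have e : (X (ix 4 3) * (X (ix 3 0) * X (ix 9 3)) : A10) =
        X (ix 4 3) * (X (ix 6 0) * X (ix 9 6) + X (ix 3 0) * X (ix 9 3)) -
        X (ix 9 6) * (X (ix 6 0) * X (ix 4 3)) := by ring
    rw [e]
    exact Ideal.sub_mem _ (Ideal.mul_mem_left _ _ (of_init k_G))
      (Ideal.mul_mem_left _ _ (of_init k_ae2))
  · rw [mul_comm]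
    exact Ideal.mul_mem_left _ _ (of_init (lin_init h))

/-! ## The arc -/

/-- `-1` times the denominator divided by `ε`. -/
noncomputable def den (a : Low 10 → ℂ) (ε : ℂ) : ℂ :=
  -a (ix 9 3) + ε * (a (ix 6 3) * a (ix 9 6) + a (ix 5 3) * a (ix 9 5) + a (ix 4 3) * a (ix 9 4))

noncomputable def num (a : Low 10 → ℂ) (ε : ℂ) : ℂ :=
  a (ix 7 0) * a (ix 8 7) * a (ix 9 8) - a (ix 1 0) * a (ix 2 1) * a (ix 9 2) +
    ε * (a (ix 1 0) * (a (ix 9 2) * a (ix 2 1) / a (ix 9 3)) *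
      (a (ix 6 3) * a (ix 9 6) + a (ix 5 3) * a (ix 9 5) + a (ix 4 3) * a (ix 9 4)))

/-- The parameters of the arc. -/
noncomputable def z4 (a : Low 10 → ℂ) (ε : ℂ) (j : Low 10) : ℂ :=
  if j = ix 6 0 then ε * (a (ix 9 2) * a (ix 2 1) / a (ix 9 3))
  else if j = ix 9 2 then a (ix 9 3) / a (ix 2 1)
  else if j = ix 3 0 then ε * (ε * (num a ε / den a ε))
  else ε * a j

/-- The arc divided by `ε`. -/
noncomputable def q4 (a : Low 10 → ℂ) (ε : ℂ) (j : Low 10) : ℂ :=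
  if j = ix 6 0 then ε ^ 2 * (a (ix 6 3) * a (ix 1 0) * (a (ix 9 2) * a (ix 2 1) / a (ix 9 3)))
  else if j = ix 5 1 then -(ε * (a (ix 9 2) * a (ix 2 1) / a (ix 9 3) * a (ix 5 3)))
  else if j = ix 4 1 then -(ε * (a (ix 9 2) * a (ix 2 1) / a (ix 9 3) * a (ix 4 3)))
  else if j = ix 3 0 then ε * (num a ε / den a ε)
  else if j = ix 8 0 then ε * (a (ix 7 0) * a (ix 8 7))
  else if j = ix 9 7 then ε * (a (ix 8 7) * a (ix 9 8))
  else if j ∈ Lin then 0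
  else a j

theorem m30 : ix 3 0 ≠ ix 6 0 ∧ ix 3 0 ≠ ix 5 1 ∧ ix 3 0 ≠ ix 4 1 ∧ ix 3 0 ≠ ix 9 2 ∧
    ix 3 0 ≠ ix 9 3 ∧ ix 3 0 ≠ ix 8 0 ∧ ix 3 0 ≠ ix 9 7 := by decide +kernel
theorem m60 : ix 6 0 ≠ ix 3 0 ∧ ix 6 0 ≠ ix 8 0 ∧ ix 6 0 ≠ ix 9 7 := by decide +kernel
theorem m51 : ix 5 1 ≠ ix 3 0 ∧ ix 5 1 ≠ ix 8 0 ∧ ix 5 1 ≠ ix 9 7 := by decide +kernel
theorem m41 : ix 4 1 ≠ ix 3 0 ∧ ix 4 1 ≠ ix 8 0 ∧ ix 4 1 ≠ ix 9 7 := by decide +kernel
theorem m92 : ix 9 2 ≠ ix 3 0 ∧ ix 9 2 ≠ ix 8 0 ∧ ix 9 2 ≠ ix 9 7 := by decide +kernel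
theorem m93 : ix 9 3 ≠ ix 3 0 ∧ ix 9 3 ≠ ix 8 0 ∧ ix 9 3 ≠ ix 9 7 := by decide +kernel
theorem m80 : ix 8 0 ≠ ix 6 0 ∧ ix 8 0 ≠ ix 5 1 ∧ ix 8 0 ≠ ix 4 1 ∧ ix 8 0 ≠ ix 3 0 := by
  decide +kernel
theorem m97 : ix 9 7 ≠ ix 6 0 ∧ ix 9 7 ≠ ix 5 1 ∧ ix 9 7 ≠ ix 4 1 ∧ ix 9 7 ≠ ix 3 0 ∧
    ix 9 7 ≠ ix 8 0 := by decide +kernel

theorem zoth : ∀ j : Low 10, j = ix 6 3 ∨ j = ix 1 0 ∨ j = ix 2 1 ∨ j = ix 5 3 ∨ j = ix 4 3 ∨
    j = ix 9 5 ∨ j = ix 9 4 ∨ j = ix 9 6 ∨ j = ix 7 0 ∨ j = ix 8 7 ∨ j = ix 9 8 →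
    j ≠ ix 6 0 ∧ j ≠ ix 9 2 ∧ j ≠ ix 3 0 := by decide +kernel

theorem z4_oth {a : Low 10 → ℂ} {ε : ℂ} {j : Low 10} (h : j = ix 6 3 ∨ j = ix 1 0 ∨
    j = ix 2 1 ∨ j = ix 5 3 ∨ j = ix 4 3 ∨
    j = ix 9 5 ∨ j = ix 9 4 ∨ j = ix 9 6 ∨ j = ix 7 0 ∨ j = ix 8 7 ∨ j = ix 9 8) :
    z4 a ε j = ε * a j := by
  obtain ⟨h1, h2, h3⟩ := zoth j h
  rw [z4, if_neg h1, if_neg h2, if_neg h3]

theorem z4_60 {a : Low 10 → ℂ} {ε : ℂ} :
    z4 a ε (ix 6 0) = ε * (a (ix 9 2) * a (ix 2 1) / a (ix 9 3)) := if_pos rfl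
theorem z4_92 {a : Low 10 → ℂ} {ε : ℂ} :
    z4 a ε (ix 9 2) = a (ix 9 3) / a (ix 2 1) := by
  rw [z4, if_neg n92.1, if_pos rfl]
theorem z4_30 {a : Low 10 → ℂ} {ε : ℂ} :
    z4 a ε (ix 3 0) = ε * (ε * (num a ε / den a ε)) := by
  rw [z4, if_neg m30.1, if_neg m30.2.2.2.1, if_pos rfl]

theorem z4_eq {a : Low 10 → ℂ} {ε : ℂ} (h1 : a (ix 2 1) ≠ 0) (h2 : a (ix 9 3) ≠ 0)
    (h3 : den a ε ≠ 0) : z4 a ε (ix 7 0) * z4 a ε (ix 8 7) * z4 a ε (ix 9 8) =
      eval (z4 a ε) (Phi F0) := by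
  rw [eval_F0, z4_60, z4_92, z4_30, z4_oth (j := ix 7 0) (by tauto),
    z4_oth (j := ix 8 7) (by tauto), z4_oth (j := ix 9 8) (by tauto),
    z4_oth (j := ix 6 3) (by tauto), z4_oth (j := ix 1 0) (by tauto),
    z4_oth (j := ix 2 1) (by tauto), z4_oth (j := ix 5 3) (by tauto),
    z4_oth (j := ix 4 3) (by tauto), z4_oth (j := ix 9 5) (by tauto),
    z4_oth (j := ix 9 4) (by tauto), z4_oth (j := ix 9 6) (by tauto)]
  have e : num a ε / den a ε * den a ε = num a ε := div_mul_cancel₀ _ h3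
  have e1 : a (ix 9 3) / a (ix 2 1) * a (ix 2 1) = a (ix 9 3) := div_mul_cancel₀ _ h1
  have e2 : a (ix 9 2) * a (ix 2 1) / a (ix 9 3) * a (ix 9 3) = a (ix 9 2) * a (ix 2 1) :=
    div_mul_cancel₀ _ h2
  generalize num a ε / den a ε = Q at e ⊢
  unfold num den at e
  generalize a (ix 9 3) / a (ix 2 1) = w at e1 ⊢
  generalize a (ix 9 2) * a (ix 2 1) / a (ix 9 3) = ρ at e e2 ⊢
  linear_combination (-ε ^ 3) * e + (ε ^ 3 * Q - ε ^ 3 * a (ix 1 0) * ρ) * e1 - ε ^ 3 * a (ix 1 0) * e2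

theorem opt_80 (z : Low 10 → ℂ) : opt z (ix 8 0) = z (ix 7 0) * z (ix 8 7) := if_pos rfl
theorem opt_97 (z : Low 10 → ℂ) : opt z (ix 9 7) = z (ix 8 7) * z (ix 9 8) := by
  rw [opt, if_neg m97.2.2.2.2, if_pos rfl]
theorem opt_lin {j : Low 10} (hj : j ∈ Lin) (h1 : j ≠ ix 8 0) (h2 : j ≠ ix 9 7)
    (z : Low 10 → ℂ) : opt z j = 0 := by
  rw [opt, if_neg h1, if_neg h2, if_pos hj]

theorem arc4_eq {a : Low 10 → ℂ} {ε : ℂ} (h1 : a (ix 2 1) ≠ 0) (h2 : a (ix 9 3) ≠ 0) :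
    ε • q4 a ε = opt (ppt (z4 a ε)) := by
  obtain ⟨p1, p2, p3, p4, p5⟩ := ppt_eq (z4 a ε)
  funext j
  rw [Pi.smul_apply, smul_eq_mul]
  by_cases e60 : j = ix 6 0
  · subst e60
    rw [opt_of_notMem ne_lin.1, p1, z4_60, z4_oth (j := ix 6 3) (by tauto),
      z4_oth (j := ix 1 0) (by tauto), q4, if_pos rfl]
    ring
  by_cases e51 : j = ix 5 1
  · subst e51
    rw [opt_of_notMem ne_lin.2.2.2.2.1, p2, z4_60, z4_oth (j := ix 5 3) (by tauto), q4,
      if_neg e60, if_pos rfl]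
    ring
  by_cases e41 : j = ix 4 1
  · subst e41
    rw [opt_of_notMem ne_lin.2.2.2.2.2.1, p3, z4_60, z4_oth (j := ix 4 3) (by tauto), q4,
      if_neg e60, if_neg e51, if_pos rfl]
    ring
  by_cases e92 : j = ix 9 2
  · subst e92
    rw [opt_of_notMem notlin.2.2.2.1, p4, z4_60, z4_92, q4, if_neg e60, if_neg e51, if_neg e41,
      if_neg m92.1, if_neg m92.2.1, if_neg m92.2.2, if_neg notlin.2.2.2.1]
    field_simp
  by_cases e93 : j = ix 9 3
  · subst e93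
    rw [opt_of_notMem ne_lin.2.1, p5, z4_92, z4_oth (j := ix 2 1) (by tauto), q4, if_neg e60,
      if_neg e51, if_neg e41, if_neg m93.1, if_neg m93.2.1, if_neg m93.2.2, if_neg ne_lin.2.1]
    field_simp
  by_cases e30 : j = ix 3 0
  · subst e30
    rw [opt_of_notMem ne_lin.2.2.2.2.2.2.2, ppt_oth (j := ix 3 0) (by tauto), z4_30, q4,
      if_neg e60, if_neg e51, if_neg e41, if_pos rfl]
  by_cases e80 : j = ix 8 0
  · subst e80
    rw [opt_80, ppt_oth (j := ix 7 0) (by tauto), ppt_oth (j := ix 8 7) (by tauto),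
      z4_oth (j := ix 7 0) (by tauto), z4_oth (j := ix 8 7) (by tauto), q4,
      if_neg e60, if_neg e51, if_neg e41, if_neg e30, if_pos rfl]
    ring
  by_cases e97 : j = ix 9 7
  · subst e97
    rw [opt_97, ppt_oth (j := ix 8 7) (by tauto), ppt_oth (j := ix 9 8) (by tauto),
      z4_oth (j := ix 8 7) (by tauto), z4_oth (j := ix 9 8) (by tauto), q4,
      if_neg e60, if_neg e51, if_neg e41, if_neg e30, if_neg e80, if_pos rfl]
    ring
  by_cases hl : j ∈ Lin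
  · rw [opt_lin hl e80 e97, q4, if_neg e60, if_neg e51, if_neg e41, if_neg e30, if_neg e80,
      if_neg e97, if_pos hl, mul_zero]
  · rw [opt_of_notMem hl, ppt_other e60 e51 e41 e92 e93, z4, if_neg e60, if_neg e92, if_neg e30,
      q4, if_neg e60, if_neg e51, if_neg e41, if_neg e30, if_neg e80, if_neg e97, if_neg hl]

theorem q4_zero {a : Low 10 → ℂ} (ha : ∀ j ∈ BB, a j = 0) : q4 a 0 = a := by
  funext j
  unfold q4
  split_ifs with c0 c1 c2 c3 c4 c5 c6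
  · rw [c0, ha (ix 6 0) (by decide +kernel)]; ring
  · rw [c1, ha (ix 5 1) (by decide +kernel)]; ring
  · rw [c2, ha (ix 4 1) (by decide +kernel)]; ring
  · rw [c3, ha (ix 3 0) (by decide +kernel)]; ring
  · rw [c4, ha (ix 8 0) (by decide +kernel)]; ring
  · rw [c5, ha (ix 9 7) (by decide +kernel)]; ring
  · rw [ha j (Finset.mem_union_right _ c6)]
  · rfl

theorem den_cont (a : Low 10 → ℂ) : Continuous (den a) := by
  unfold den
  fun_prop

theorem num_cont (a : Low 10 → ℂ) : Continuous (num a) := by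
  unfold num
  fun_prop

theorem den_zero {a : Low 10 → ℂ} (h2 : a (ix 9 3) ≠ 0) : den a 0 ≠ 0 := by
  unfold den
  rw [zero_mul, add_zero]
  exact neg_ne_zero.mpr h2

theorem q4_cont {a : Low 10 → ℂ} (h2 : a (ix 9 3) ≠ 0) : ContinuousAt (q4 a) 0 := by
  apply continuousAt_pi.mpr
  intro j
  unfold q4
  split_ifs
  · fun_prop
  · fun_prop
  · fun_prop
  · exact continuousAt_id.mul ((num_cont a).continuousAt.div (den_cont a).continuousAt
      (den_zero h2))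
  · fun_prop
  · fun_prop
  · fun_prop
  · fun_prop

/-- Initial forms vanish on the component. -/
theorem init_vanish {f : A10} {i : ℕ} (hf : Init I1 i f) {a : Low 10 → ℂ}
    (ha : ∀ j ∈ BB, a j = 0) (h1 : a (ix 2 1) ≠ 0) (h2 : a (ix 9 3) ≠ 0) : eval a f = 0 := by
  obtain ⟨hh, g, hg, hm⟩ := hf
  have hF : f + g ∈ originIdeal (Low 10) ^ i :=
    Ideal.add_mem _ (homog_mem hh) (org_le hg (by omega))
  have hlead : homogeneousComponent i (f + g) = f := by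
    apply comp_lead hh
    rw [add_sub_cancel_left]
    exact hg
  have h := arc_vanish hF (q4 a) (q4_cont h2) ?_
  · rwa [hlead, q4_zero ha] at h
  · have h3 : ∀ᶠ ε in 𝓝[≠] (0 : ℂ), den a ε ≠ 0 :=
      ((den_cont a).continuousAt.eventually_ne (den_zero h2)).filter_mono nhdsWithin_le_nhds
    filter_upwards [h3] with ε hε
    rw [arc4_eq h1 h2]
    exact mem_vanishingIdeal_iff.mp hm _ (opt_mem _ (z4_eq h1 h2 hε))

theorem JJ_le : JJ ≤ Ideal.span ((fun j => (X j : A10)) '' (BB : Set (Low 10))) := by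
  unfold JJ initIdeal
  rw [Ideal.span_le]
  rintro f ⟨i, hf⟩
  rw [SetLike.mem_coe, mem_ideal_span_X_image]
  intro m hm
  by_contra hne
  push Not at hne
  rw [mem_support_iff] at hm
  apply hm
  have hf' := (init_iff i f).mp hf
  apply coeff_zero_of_support (fun j => decide (j ∉ BB)) f
  · intro a ha hb
    refine init_vanish hf' (fun j hj => ha j ?_) (hb _ ?_) (hb _ ?_)
    · rw [decide_eq_false_iff_not]
      exact fun h => h hj
    · decide +kernel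
    · decide +kernel
  · intro j hj
    rw [decide_eq_false_iff_not, not_not] at hj
    exact hne j hj

/-- The tangent cone is not Cohen-Macaulay. -/
theorem not_cm : ¬ IsCM (GrRing (R := LocalRing v1 w1) (mx v1 w1)) := by
  intro h
  obtain ⟨e⟩ := Pool.Agent.W99.SN.Gr.main (Low 10) IP IP_le
  have h2 : IsCM (MvPolynomial (Low 10) ℂ ⧸ initIdeal IP) :=
    Pool.Agent.W395.SN.CMIso.main _ _ e h
  exact Pool.Agent.W417.SN.NotCM.main (Low 10) JJ JJ_homog AA BB card_AB xi 2 xi_hom xi_notMem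
    AA_xi JJ_le h2

end Pool.Agent.W442.SN
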